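import Mathlib

set_option autoImplicit false

section

open Complex MeasureTheory Set Filter Topology

namespace Pool.Agent.MP_6f1701_an

/-- boundary integral over a rectangle -/
noncomputable def rectI (f : ℂ → ℂ) (a b c d : ℝ) : ℂ :=
  (∫ x : ℝ in a..b, f (x + c * I)) - (∫ x : ℝ in a..b, f (x + d * I)) +
   I * (∫ y : ℝ in c..d, f (b + y * I)) - I * (∫ y : ℝ in c..d, f (a + y * I))

lemma rectI_zero {f : ℂ → ℂ} {a b c d : ℝ} (hab : a ≤ b) (hcd : c ≤ d)
    (hf : DifferentiableOn ℂ f (Icc a b ×ℂ Icc c d)) : rectI f a b c d = 0 := by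
  have h := integral_boundary_rect_eq_zero_of_differentiableOn f (⟨a, c⟩ : ℂ) (⟨b, d⟩ : ℂ)
    (by simpa [uIcc_of_le hab, uIcc_of_le hcd] using hf)
  simpa [rectI, smul_eq_mul] using h

lemma log_sub_log_neg_of_im_pos {w : ℂ} (h : 0 < w.im) :
    Complex.log w - Complex.log (-w) = Real.pi * I := by
  rw [Complex.log, Complex.log, norm_neg, Complex.arg_neg_eq_arg_sub_pi_of_im_pos h]
  push_cast
  ring

lemma log_neg_sub_log_of_im_neg {w : ℂ} (h : w.im < 0) :
    Complex.log (-w) - Complex.log w = Real.pi * I := by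
  rw [Complex.log, Complex.log, norm_neg, Complex.arg_neg_eq_arg_add_pi_of_im_neg h]
  push_cast
  ring

lemma integral_inv_horiz {z0 : ℂ} {a b c : ℝ} (hc : c ≠ z0.im) :
    (∫ x : ℝ in a..b, 1 / ((x : ℂ) + c * I - z0)) =
      Complex.log (b + c * I - z0) - Complex.log (a + c * I - z0) := by
  have hne : ∀ x : ℝ, ((x : ℂ) + c * I - z0).im ≠ 0 := by
    intro x
    simp only [sub_im, add_im, ofReal_im, mul_im, ofReal_re, I_im, I_re]
    intro h
    apply hc
    linarith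
  have hsl : ∀ x : ℝ, ((x : ℂ) + c * I - z0) ∈ slitPlane := fun x => Or.inr (hne x)
  have hne' : ∀ x : ℝ, ((x : ℂ) + c * I - z0) ≠ 0 := fun x => slitPlane_ne_zero (hsl x)
  apply intervalIntegral.integral_eq_sub_of_hasDerivAt
    (f := fun x : ℝ => Complex.log ((x : ℂ) + c * I - z0))
  · intro x _
    have h1 : HasDerivAt (fun x : ℝ => ((x : ℂ) + c * I - z0)) 1 x := by
      have := (hasDerivAt_id (x : ℂ)).comp_ofReal
      simpa using (this.add_const (c * I)).sub_const z0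
    exact h1.clog_real (hsl x)
  · apply Continuous.intervalIntegrable
    exact continuous_const.div (by fun_prop) hne'

lemma integral_inv_vert_pos {z0 : ℂ} {a c d : ℝ} (ha : z0.re < a) :
    I * (∫ y : ℝ in c..d, 1 / ((a : ℂ) + y * I - z0)) =
      Complex.log (a + d * I - z0) - Complex.log (a + c * I - z0) := by
  have hpos : ∀ y : ℝ, 0 < ((a : ℂ) + y * I - z0).re := by
    intro y
    simp only [sub_re, add_re, ofReal_re, mul_re, ofReal_im, I_im, I_re]
    linarith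
  have hsl : ∀ y : ℝ, ((a : ℂ) + y * I - z0) ∈ slitPlane := fun x => Or.inl (hpos x)
  have hne' : ∀ y : ℝ, ((a : ℂ) + y * I - z0) ≠ 0 := fun x => slitPlane_ne_zero (hsl x)
  rw [← intervalIntegral.integral_const_mul]
  apply intervalIntegral.integral_eq_sub_of_hasDerivAt
    (f := fun y : ℝ => Complex.log ((a : ℂ) + y * I - z0))
  · intro y _
    have h1 : HasDerivAt (fun y : ℝ => ((a : ℂ) + y * I - z0)) I y := by
      have := ((hasDerivAt_id (y : ℂ)).comp_ofReal).mul_const I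
      simpa using (this.const_add (a : ℂ)).sub_const z0
    have h2 := h1.clog_real (hsl y)
    rw [mul_one_div]
    exact h2
  · apply Continuous.intervalIntegrable
    exact continuous_const.mul (continuous_const.div (by fun_prop) hne')

lemma integral_inv_vert_neg {z0 : ℂ} {a c d : ℝ} (ha : a < z0.re) :
    I * (∫ y : ℝ in c..d, 1 / ((a : ℂ) + y * I - z0)) =
      Complex.log (-(a + d * I - z0)) - Complex.log (-(a + c * I - z0)) := by
  have hpos : ∀ y : ℝ, 0 < (-((a : ℂ) + y * I - z0)).re := by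
    intro y
    simp only [neg_re, sub_re, add_re, ofReal_re, mul_re, ofReal_im, I_im, I_re]
    linarith
  have hsl : ∀ y : ℝ, -((a : ℂ) + y * I - z0) ∈ slitPlane := fun x => Or.inl (hpos x)
  have hne' : ∀ y : ℝ, ((a : ℂ) + y * I - z0) ≠ 0 := fun x => by
    have := slitPlane_ne_zero (hsl x)
    exact neg_ne_zero.mp this
  rw [← intervalIntegral.integral_const_mul]
  apply intervalIntegral.integral_eq_sub_of_hasDerivAt
    (f := fun y : ℝ => Complex.log (-((a : ℂ) + y * I - z0)))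
  · intro y _
    have h1 : HasDerivAt (fun y : ℝ => -((a : ℂ) + y * I - z0)) (-I) y := by
      have := ((hasDerivAt_id (y : ℂ)).comp_ofReal).mul_const I
      have h3 := ((this.const_add (a : ℂ)).sub_const z0).neg
      rw [one_mul] at h3
      exact h3
    have h2 := h1.clog_real (hsl y)
    rw [neg_div_neg_eq] at h2
    rw [mul_one_div]
    exact h2
  · apply Continuous.intervalIntegrable
    exact continuous_const.mul (continuous_const.div (by fun_prop) hne')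

lemma rectI_inv {z0 : ℂ} {a b c d : ℝ} (ha : a < z0.re) (hb : z0.re < b) (hc : c < z0.im)
    (hd : z0.im < d) : rectI (fun z => 1 / (z - z0)) a b c d = 2 * Real.pi * I := by
  unfold rectI
  simp only
  rw [integral_inv_horiz (ne_of_lt hc), integral_inv_horiz (ne_of_gt hd),
    integral_inv_vert_pos hb, integral_inv_vert_neg ha]
  have h1 : (0 : ℝ) < ((a : ℂ) + d * I - z0).im := by
    simp only [sub_im, add_im, ofReal_im, mul_im, ofReal_re, I_im, I_re]
    linarith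
  have h2 : ((a : ℂ) + c * I - z0).im < 0 := by
    simp only [sub_im, add_im, ofReal_im, mul_im, ofReal_re, I_im, I_re]
    linarith
  have e1 := log_sub_log_neg_of_im_pos h1
  have e2 := log_neg_sub_log_of_im_neg h2
  linear_combination e1 + e2

/-- Cauchy formula on a rectangle. -/
lemma rectI_cauchy {f : ℂ → ℂ} {z0 : ℂ} {a b c d : ℝ} (ha : a < z0.re) (hb : z0.re < b)
    (hc : c < z0.im) (hd : z0.im < d) (hf : DifferentiableOn ℂ f (Icc a b ×ℂ Icc c d)) :
    rectI (fun z => f z / (z - z0)) a b c d = 2 * Real.pi * I * f z0 := by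
  have hab : a ≤ b := by linarith
  have hcd : c ≤ d := by linarith
  have hmem : (Icc a b ×ℂ Icc c d) ∈ 𝓝 z0 := by
    rw [← mem_interior_iff_mem_nhds, interior_reProdIm, interior_Icc, interior_Icc]
    exact ⟨⟨ha, hb⟩, ⟨hc, hd⟩⟩
  have hds : DifferentiableOn ℂ (dslope f z0) (Icc a b ×ℂ Icc c d) :=
    (differentiableOn_dslope hmem).mpr hf
  have h0 := rectI_zero hab hcd hds
  have h1 := rectI_inv ha hb hc hd
  have key : ∀ z, z ≠ z0 → f z / (z - z0) = dslope f z0 z + f z0 * (1 / (z - z0)) := by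
    intro z hz
    rw [dslope_of_ne _ hz, slope_def_field]
    have : z - z0 ≠ 0 := sub_ne_zero.mpr hz
    field_simp
    ring
  -- non-vanishing on the four sides
  have nh : ∀ (x e : ℝ), e ≠ z0.im → ((x : ℂ) + e * I) ≠ z0 := by
    intro x e he h
    apply he
    have := congrArg Complex.im h
    simpa using this
  have nv : ∀ (e y : ℝ), e ≠ z0.re → ((e : ℂ) + y * I) ≠ z0 := by
    intro x e he h
    apply he
    have := congrArg Complex.re h
    simpa using this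
  have hdc : ContinuousOn (dslope f z0) (Icc a b ×ℂ Icc c d) := hds.continuousOn
  have ih : ∀ e : ℝ, e ∈ Icc c d → e ≠ z0.im →
      (∫ x : ℝ in a..b, f (x + e * I) / ((x : ℂ) + e * I - z0)) =
      (∫ x : ℝ in a..b, dslope f z0 (x + e * I)) +
        f z0 * ∫ x : ℝ in a..b, 1 / ((x : ℂ) + e * I - z0) := by
    intro e he hne
    rw [← intervalIntegral.integral_const_mul, ← intervalIntegral.integral_add]
    · apply intervalIntegral.integral_congr
      intro x _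
      exact key _ (nh x e hne)
    · apply ContinuousOn.intervalIntegrable
      rw [uIcc_of_le hab]
      apply hdc.comp (by fun_prop)
      intro x hx
      refine ⟨?_, ?_⟩
      · simpa using hx
      · simpa using he
    · apply Continuous.intervalIntegrable
      exact continuous_const.mul (continuous_const.div (by fun_prop)
        (fun x => sub_ne_zero.mpr (nh x e hne)))
  have iv : ∀ e : ℝ, e ∈ Icc a b → e ≠ z0.re →
      (∫ y : ℝ in c..d, f (e + y * I) / ((e : ℂ) + y * I - z0)) =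
      (∫ y : ℝ in c..d, dslope f z0 (e + y * I)) +
        f z0 * ∫ y : ℝ in c..d, 1 / ((e : ℂ) + y * I - z0) := by
    intro e he hne
    rw [← intervalIntegral.integral_const_mul, ← intervalIntegral.integral_add]
    · apply intervalIntegral.integral_congr
      intro x _
      exact key _ (nv e x hne)
    · apply ContinuousOn.intervalIntegrable
      rw [uIcc_of_le hcd]
      apply hdc.comp (by fun_prop)
      intro x hx
      refine ⟨?_, ?_⟩
      · simpa using he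
      · simpa using hx
    · apply Continuous.intervalIntegrable
      exact continuous_const.mul (continuous_const.div (by fun_prop)
        (fun x => sub_ne_zero.mpr (nv e x hne)))
  unfold rectI at h0 h1 ⊢
  simp only at h0 h1 ⊢
  rw [ih c (left_mem_Icc.mpr hcd) (ne_of_lt hc), ih d (right_mem_Icc.mpr hcd) (ne_of_gt hd),
    iv b (right_mem_Icc.mpr hab) (ne_of_gt hb), iv a (left_mem_Icc.mpr hab) (ne_of_lt ha)]
  linear_combination h0 + f z0 * h1

end Pool.Agent.MP_6f1701_an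

end

section

open Complex MeasureTheory Set Filter Topology

namespace Pool.Agent.MP_6f1701_an

section general

variable {α : Type*} [MeasurableSpace α] {μ : Measure α}

lemma ck_bound {φ v : α → ℂ} {ζ : ℂ} {d : ℝ} (hd : 0 < d) (h : ∀ᵐ a ∂μ, d ≤ ‖v a - ζ‖) :
    ∀ᵐ a ∂μ, ‖φ a / (v a - ζ)‖ ≤ ‖φ a‖ / d := by
  filter_upwards [h] with a ha
  rw [norm_div]
  exact div_le_div_of_nonneg_left (norm_nonneg _) hd ha

lemma ck_int {φ v : α → ℂ} (hφ : Integrable φ μ) (hv : AEMeasurable v μ) {ζ : ℂ} {d : ℝ}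
    (hd : 0 < d) (h : ∀ᵐ a ∂μ, d ≤ ‖v a - ζ‖) : Integrable (fun a => φ a / (v a - ζ)) μ := by
  refine Integrable.mono' (hφ.norm.div_const d) ?_ (ck_bound hd h)
  exact (hφ.aestronglyMeasurable.aemeasurable.div (hv.sub_const ζ)).aestronglyMeasurable

lemma ck_norm {φ v : α → ℂ} (hφ : Integrable φ μ) {ζ : ℂ} {d : ℝ}
    (hd : 0 < d) (h : ∀ᵐ a ∂μ, d ≤ ‖v a - ζ‖) :
    ‖∫ a, φ a / (v a - ζ) ∂μ‖ ≤ (∫ a, ‖φ a‖ ∂μ) / d := by
  rw [← integral_div]
  exact norm_integral_le_of_norm_le (hφ.norm.div_const d) (ck_bound hd h)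

lemma ck_diff {φ v : α → ℂ} (hφ : Integrable φ μ) (hv : AEMeasurable v μ) {ζ0 : ℂ} {d : ℝ}
    (hd : 0 < d) (h : ∀ᵐ a ∂μ, d ≤ ‖v a - ζ0‖) :
    DifferentiableAt ℂ (fun ζ => ∫ a, φ a / (v a - ζ) ∂μ) ζ0 := by
  have hfar : ∀ᵐ a ∂μ, ∀ ζ ∈ Metric.ball ζ0 (d / 2), d / 2 ≤ ‖v a - ζ‖ := by
    filter_upwards [h] with a ha ζ hζ
    rw [Metric.mem_ball, dist_eq_norm] at hζ
    have h1 : ‖v a - ζ0‖ ≤ ‖v a - ζ‖ + ‖ζ - ζ0‖ := by
      have := norm_add_le (v a - ζ) (ζ - ζ0)
      simpa using this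
    linarith
  have hmeas : ∀ ζ : ℂ, AEStronglyMeasurable (fun a => φ a / (v a - ζ)) μ := fun ζ =>
    (hφ.aestronglyMeasurable.aemeasurable.div (hv.sub_const ζ)).aestronglyMeasurable
  have key := hasDerivAt_integral_of_dominated_loc_of_deriv_le (μ := μ) (𝕜 := ℂ)
    (F := fun ζ a => φ a / (v a - ζ)) (F' := fun ζ a => φ a / (v a - ζ) ^ 2)
    (x₀ := ζ0) (s := Metric.ball ζ0 (d / 2)) (bound := fun a => ‖φ a‖ * (4 / d ^ 2))
    (Metric.ball_mem_nhds _ (by positivity)) (Eventually.of_forall hmeas)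
    (ck_int hφ hv hd h)
    ((hφ.aestronglyMeasurable.aemeasurable.div ((hv.sub_const ζ0).pow_const 2)).aestronglyMeasurable)
    ?_ (hφ.norm.mul_const _) ?_
  · exact key.2.differentiableAt
  · filter_upwards [hfar] with a ha ζ hζ
    have h2 := ha ζ hζ
    rw [norm_div, norm_pow]
    have h3 : (d / 2) ^ 2 ≤ ‖v a - ζ‖ ^ 2 := by
      have : (0:ℝ) ≤ d / 2 := by positivity
      exact pow_le_pow_left₀ this h2 2
    have h4 : ‖φ a‖ / ‖v a - ζ‖ ^ 2 ≤ ‖φ a‖ / (d / 2) ^ 2 :=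
      div_le_div_of_nonneg_left (norm_nonneg _) (by positivity) h3
    calc _ ≤ _ := h4
      _ = ‖φ a‖ * (4 / d ^ 2) := by field_simp; ring
  · filter_upwards [hfar] with a ha ζ hζ
    have h2 := ha ζ hζ
    have h3 : v a - ζ ≠ 0 := by
      intro h0
      rw [h0, norm_zero] at h2
      linarith
    have h4 : HasDerivAt (fun ζ : ℂ => v a - ζ) (-1) ζ := by
      simpa using (hasDerivAt_id ζ).const_sub (v a)
    have h5 := (hasDerivAt_const ζ (φ a)).div h4 h3
    have h6 : (0 * (v a - ζ) - φ a * (-1)) / (v a - ζ) ^ 2 = φ a / (v a - ζ) ^ 2 := by ring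
    rw [h6] at h5
    exact h5

end general

/-- the double exponential -/
noncomputable def kk (v : ℂ) : ℂ := cexp (cexp v)

lemma kk_diff : Differentiable ℂ kk := by
  unfold kk
  fun_prop

lemma kk_cont : Continuous kk := kk_diff.continuous

/-- the Cauchy kernel -/
noncomputable def hk (ζ v : ℂ) : ℂ := kk v / (v - ζ)

lemma norm_kk (v : ℂ) : ‖kk v‖ = Real.exp (Real.exp v.re * Real.cos v.im) := by
  unfold kk
  rw [Complex.norm_exp, Complex.exp_re]

lemma norm_kk_line {s : ℝ} (hs : Real.cos s = -1) (x : ℝ) :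
    ‖kk (x + s * I)‖ = Real.exp (-Real.exp x) := by
  rw [norm_kk]
  simp [hs]

lemma norm_kk_line_le {s : ℝ} (hs : Real.cos s = -1) (x : ℝ) :
    ‖kk (x + s * I)‖ ≤ Real.exp (-1) * Real.exp (-x) := by
  rw [norm_kk_line hs, ← Real.exp_add]
  apply Real.exp_le_exp.mpr
  have := Real.add_one_le_exp x
  linarith

lemma kk_line_int {s : ℝ} (hs : Real.cos s = -1) (N : ℝ) :
    IntegrableOn (fun x : ℝ => kk (x + s * I)) (Ioi N) := by
  have h1 : IntegrableOn (fun x : ℝ => Real.exp (-1) * Real.exp (-x)) (Ioi N) := by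
    have := exp_neg_integrableOn_Ioi N (b := 1) one_pos
    simp only [neg_mul, one_mul] at this
    exact this.const_mul _
  refine Integrable.mono' h1 ?_ ?_
  · exact (kk_cont.comp (by fun_prop)).aestronglyMeasurable
  · exact Eventually.of_forall (fun x => norm_kk_line_le hs x)

lemma kk_line_norm_integral {s : ℝ} (hs : Real.cos s = -1) :
    (∫ x in Ioi (0:ℝ), ‖kk (x + s * I)‖) ≤ 2 / 5 := by
  have h1 : IntegrableOn (fun x : ℝ => Real.exp (-1) * Real.exp (-x)) (Ioi 0) := by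
    have := exp_neg_integrableOn_Ioi 0 (b := 1) one_pos
    simp only [neg_mul, one_mul] at this
    exact this.const_mul _
  have h2 : (∫ x in Ioi (0:ℝ), ‖kk (x + s * I)‖) ≤
      ∫ x in Ioi (0:ℝ), Real.exp (-1) * Real.exp (-x) := by
    apply integral_mono (kk_line_int hs 0).norm h1
    intro x
    exact norm_kk_line_le hs x
  have h3 : (∫ x in Ioi (0:ℝ), Real.exp (-1) * Real.exp (-x)) = Real.exp (-1) := by
    rw [integral_const_mul, integral_exp_neg_Ioi]
    simp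
  have h4 : Real.exp (-1) ≤ 2 / 5 := by
    have := Real.exp_one_gt_d9
    rw [Real.exp_neg]
    rw [inv_le_comm₀ (Real.exp_pos 1) (by norm_num)]
    linarith
  linarith

lemma cos_pi' : Real.cos Real.pi = -1 := Real.cos_pi
lemma cos_neg_pi' : Real.cos (-Real.pi) = -1 := by rw [Real.cos_neg, Real.cos_pi]

/-- contour integral over the boundary of a half strip -/
noncomputable def Ic (N : ℝ) (ζ : ℂ) : ℂ :=
  (2 * Real.pi * I)⁻¹ * (I * (∫ y in (-Real.pi)..Real.pi, hk ζ (N + y * I)) +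
    (∫ x in Ioi N, hk ζ (x + (Real.pi : ℝ) * I)) -
    (∫ x in Ioi N, hk ζ (x + ((-Real.pi : ℝ) : ℂ) * I)))

lemma hk_line_int {s : ℝ} (hs : Real.cos s = -1) {N : ℝ} {ζ : ℂ} {d : ℝ} (hd : 0 < d)
    (h : ∀ x ∈ Ioi N, d ≤ ‖((x : ℂ) + s * I) - ζ‖) :
    IntegrableOn (fun x : ℝ => hk ζ (x + s * I)) (Ioi N) := by
  have := ck_int (μ := volume.restrict (Ioi N)) (φ := fun x : ℝ => kk (x + s * I))
    (v := fun x : ℝ => (x : ℂ) + s * I) (kk_line_int hs N)
    (by apply Continuous.aemeasurable; fun_prop) (ζ := ζ) hd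
    ((ae_restrict_iff' measurableSet_Ioi).mpr (Eventually.of_forall h))
  exact this

lemma hk_cont_line {s : ℝ} {ζ : ℂ} (h : ∀ x : ℝ, ((x : ℂ) + s * I) ≠ ζ) :
    Continuous (fun x : ℝ => hk ζ (x + s * I)) := by
  unfold hk
  exact (kk_cont.comp (by fun_prop)).div (by fun_prop) (fun x => sub_ne_zero.mpr (h x))

lemma Ic_sub {N N' : ℝ} (hN : N ≤ N') {ζ : ℂ} {d : ℝ} (hd : 0 < d)
    (h1 : ∀ x ∈ Ioi N, d ≤ ‖((x : ℂ) + Real.pi * I) - ζ‖)
    (h2 : ∀ x ∈ Ioi N, d ≤ ‖((x : ℂ) + ((-Real.pi : ℝ) : ℂ) * I) - ζ‖) :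
    Ic N' ζ - Ic N ζ = (2 * Real.pi * I)⁻¹ * rectI (fun v => kk v / (v - ζ)) N N' (-Real.pi) Real.pi := by
  have i1 := hk_line_int cos_pi' hd h1
  have i2 := hk_line_int cos_neg_pi' hd h2
  have s1 : (∫ x in Ioi N, hk ζ (x + (Real.pi : ℝ) * I)) =
      (∫ x in N..N', hk ζ (x + (Real.pi : ℝ) * I)) + ∫ x in Ioi N', hk ζ (x + (Real.pi : ℝ) * I) := by
    rw [intervalIntegral.integral_of_le hN, ← setIntegral_union (Set.disjoint_left.mpr (by
      intro x hx hx'; exact absurd hx.2 (not_le.mpr hx'))) measurableSet_Ioi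
      (i1.mono_set Ioc_subset_Ioi_self) (i1.mono_set (Ioi_subset_Ioi hN)), Ioc_union_Ioi_eq_Ioi hN]
  have s2 : (∫ x in Ioi N, hk ζ (x + ((-Real.pi : ℝ) : ℂ) * I)) =
      (∫ x in N..N', hk ζ (x + ((-Real.pi : ℝ) : ℂ) * I)) +
        ∫ x in Ioi N', hk ζ (x + ((-Real.pi : ℝ) : ℂ) * I) := by
    rw [intervalIntegral.integral_of_le hN, ← setIntegral_union (Set.disjoint_left.mpr (by
      intro x hx hx'; exact absurd hx.2 (not_le.mpr hx'))) measurableSet_Ioi
      (i2.mono_set Ioc_subset_Ioi_self) (i2.mono_set (Ioi_subset_Ioi hN)), Ioc_union_Ioi_eq_Ioi hN]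
  unfold Ic
  rw [s1, s2]
  unfold rectI
  simp only [hk]
  ring

lemma norm_ge_re (z : ℂ) : |z.re| ≤ ‖z‖ := Complex.abs_re_le_norm z
lemma norm_ge_im (z : ℂ) : |z.im| ≤ ‖z‖ := Complex.abs_im_le_norm z

lemma far_of_re {N : ℝ} {ζ : ℂ} (h : ζ.re < N) (s : ℝ) :
    ∀ x ∈ Ioi N, (N - ζ.re) ≤ ‖((x : ℂ) + s * I) - ζ‖ := by
  intro x hx
  refine le_trans ?_ (norm_ge_re _)
  simp only [sub_re, add_re, ofReal_re, mul_re, ofReal_im, I_im, I_re]
  rw [mem_Ioi] at hx
  have : N - ζ.re ≤ x + (s * 0 - 0 * 1) - ζ.re := by linarith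
  exact le_trans this (le_abs_self _)

lemma far_of_im {N : ℝ} {ζ : ℂ} (s : ℝ) :
    ∀ x ∈ Ioi N, |s - ζ.im| ≤ ‖((x : ℂ) + s * I) - ζ‖ := by
  intro x _
  refine le_trans ?_ (norm_ge_im _)
  simp only [sub_im, add_im, ofReal_im, mul_im, ofReal_re, I_im, I_re]
  apply le_of_eq
  congr 1
  ring

lemma two_pi_I_ne : (2 * Real.pi * I : ℂ) ≠ 0 := by
  have := Real.pi_pos
  simp [Real.pi_ne_zero]

/-- independence of `N` for `Re ζ < N`. -/
lemma Ic_eq_of_re_lt {N N' : ℝ} (hN : N ≤ N') {ζ : ℂ} (h : ζ.re < N) : Ic N' ζ = Ic N ζ := by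
  have h1 := Ic_sub hN (sub_pos.mpr h) (far_of_re h Real.pi) (far_of_re h (-Real.pi))
  rw [rectI_zero hN (by linarith [Real.pi_pos])] at h1
  · rw [mul_zero, sub_eq_zero] at h1
    exact h1
  · intro v hv
    apply DifferentiableAt.differentiableWithinAt
    apply DifferentiableAt.div kk_diff.differentiableAt (by fun_prop)
    rw [sub_ne_zero]
    rintro rfl
    have : N ≤ v.re := hv.1.1
    linarith

/-- The entire function. -/
noncomputable def EE (ζ : ℂ) : ℂ := Ic (ζ.re + 1) ζ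

lemma EE_eq {N : ℝ} {ζ : ℂ} (h : ζ.re < N) : EE ζ = Ic N ζ := by
  unfold EE
  rcases le_total N (ζ.re + 1) with h1 | h1
  · exact Ic_eq_of_re_lt h1 h
  · exact (Ic_eq_of_re_lt h1 (by linarith)).symm

lemma EE_out_im {ζ : ℂ} (h : Real.pi < |ζ.im|) : EE ζ = Ic 0 ζ := by
  rcases lt_or_ge ζ.re 0 with h0 | h0
  · exact EE_eq h0
  have hd : 0 < |ζ.im| - Real.pi := by linarith
  have hh : ∀ s : ℝ, |s| = Real.pi → ∀ x ∈ Ioi (0:ℝ), |ζ.im| - Real.pi ≤ ‖((x : ℂ) + s * I) - ζ‖ := by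
    intro s hs x hx
    refine le_trans ?_ (far_of_im s x hx)
    rw [← hs, abs_sub_comm]
    exact abs_sub_abs_le_abs_sub _ _
  have h1 := Ic_sub (N := 0) (N' := ζ.re + 1) (by linarith) hd
    (hh Real.pi (abs_of_pos Real.pi_pos))
    (hh (-Real.pi) (by rw [abs_neg, abs_of_pos Real.pi_pos]))
  rw [rectI_zero (by linarith) (by linarith [Real.pi_pos])] at h1
  · rw [mul_zero, sub_eq_zero] at h1
    rw [EE, h1]
  · intro v hv
    apply DifferentiableAt.differentiableWithinAt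
    apply DifferentiableAt.div kk_diff.differentiableAt (by fun_prop)
    rw [sub_ne_zero]
    rintro rfl
    have h3 : v.im ∈ Icc (-Real.pi) Real.pi := hv.2
    have : |v.im| ≤ Real.pi := abs_le.mpr h3
    linarith

lemma EE_in {ζ : ℂ} (h0 : 0 < ζ.re) (h : |ζ.im| < Real.pi) : EE ζ = kk ζ + Ic 0 ζ := by
  have hd : 0 < Real.pi - |ζ.im| := by linarith
  have hh : ∀ s : ℝ, |s| = Real.pi → ∀ x ∈ Ioi (0:ℝ), Real.pi - |ζ.im| ≤ ‖((x : ℂ) + s * I) - ζ‖ := by
    intro s hs x hx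
    refine le_trans ?_ (far_of_im s x hx)
    rw [← hs]
    exact abs_sub_abs_le_abs_sub _ _
  have h1 := Ic_sub (N := 0) (N' := ζ.re + 1) (by linarith) hd
    (hh Real.pi (abs_of_pos Real.pi_pos))
    (hh (-Real.pi) (by rw [abs_neg, abs_of_pos Real.pi_pos]))
  have h2 := abs_lt.mp h
  rw [rectI_cauchy (f := kk) h0 (by linarith) h2.1 h2.2 kk_diff.differentiableOn] at h1
  rw [← mul_assoc, inv_mul_cancel₀ two_pi_I_ne, one_mul] at h1
  rw [EE]
  linear_combination h1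

lemma Ic_diff {N : ℝ} {ζ : ℂ} (h : ζ.re < N) : DifferentiableAt ℂ (Ic N) ζ := by
  unfold Ic
  apply DifferentiableAt.const_mul
  apply DifferentiableAt.sub
  apply DifferentiableAt.add
  · apply DifferentiableAt.const_mul
    have hpi : -Real.pi ≤ Real.pi := by linarith [Real.pi_pos]
    simp only [intervalIntegral.integral_of_le hpi, hk]
    have hc : Continuous (fun y : ℝ => kk (N + y * I)) := kk_cont.comp (by fun_prop)
    refine ck_diff (μ := volume.restrict (Ioc (-Real.pi) Real.pi))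
      (φ := fun y : ℝ => kk (N + y * I)) (v := fun y : ℝ => (N : ℂ) + y * I)
      (d := N - ζ.re) hc.integrableOn_Ioc (by apply Continuous.aemeasurable; fun_prop)
      (by linarith) (Eventually.of_forall (fun y => ?_))
    refine le_trans ?_ (norm_ge_re _)
    simp only [sub_re, add_re, ofReal_re, mul_re, ofReal_im, I_im, I_re]
    refine le_trans (le_of_eq ?_) (le_abs_self _)
    ring
  · simp only [hk]
    exact ck_diff (φ := fun x : ℝ => kk (x + Real.pi * I))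
      (v := fun x : ℝ => (x : ℂ) + (Real.pi : ℝ) * I) (d := N - ζ.re)
      (kk_line_int cos_pi' N) (by apply Continuous.aemeasurable; fun_prop)
      (by linarith) ((ae_restrict_iff' measurableSet_Ioi).mpr
        (Eventually.of_forall (far_of_re h Real.pi)))
  · simp only [hk]
    exact ck_diff (φ := fun x : ℝ => kk (x + ((-Real.pi : ℝ) : ℂ) * I))
      (v := fun x : ℝ => (x : ℂ) + ((-Real.pi : ℝ) : ℂ) * I) (d := N - ζ.re)
      (kk_line_int cos_neg_pi' N) (by apply Continuous.aemeasurable; fun_prop)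
      (by linarith) ((ae_restrict_iff' measurableSet_Ioi).mpr
        (Eventually.of_forall (far_of_re h (-Real.pi))))

lemma EE_diff : Differentiable ℂ EE := by
  intro ζ
  have h1 : DifferentiableAt ℂ (Ic (ζ.re + 1)) ζ := Ic_diff (by linarith)
  apply h1.congr_of_eventuallyEq
  have : {w : ℂ | w.re < ζ.re + 1} ∈ 𝓝 ζ := by
    apply IsOpen.mem_nhds
    · exact isOpen_lt Complex.continuous_re continuous_const
    · show ζ.re < ζ.re + 1
      linarith
  filter_upwards [this] with w hw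
  exact EE_eq hw

end Pool.Agent.MP_6f1701_an

end

section

open Complex MeasureTheory Set Filter Topology

namespace Pool.Agent.MP_6f1701_an

lemma norm_kk_imag (y : ℝ) : ‖kk (((0 : ℝ) : ℂ) + y * I)‖ ≤ Real.exp 1 := by
  rw [norm_kk]
  apply Real.exp_le_exp.mpr
  have h1 : (((0 : ℝ) : ℂ) + y * I).re = 0 := by simp
  rw [h1, Real.exp_zero, one_mul]
  exact Real.cos_le_one _

lemma vert_kk : (∫ y in (-Real.pi)..Real.pi, kk (((0 : ℝ) : ℂ) + y * I)) = 2 * Real.pi := by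
  have h1 : Real.circleAverage (fun z : ℂ => cexp z) 0 1 = cexp 0 := by
    apply DiffContOnCl.circleAverage
    exact (Complex.differentiable_exp).diffContOnCl
  rw [Real.circleAverage_def] at h1
  have h2 : ∀ θ : ℝ, cexp (circleMap 0 1 θ) = kk (((0 : ℝ) : ℂ) + θ * I) := by
    intro θ
    simp [circleMap, kk]
  simp only [h2, Complex.exp_zero] at h1
  have hper : Function.Periodic (fun y : ℝ => kk (((0 : ℝ) : ℂ) + y * I)) (2 * Real.pi) := by
    intro y
    simp only [kk]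
    have : ((0 : ℝ) : ℂ) + ((y + 2 * Real.pi : ℝ) : ℂ) * I = (((0 : ℝ) : ℂ) + y * I) + 2 * Real.pi * I := by
      push_cast
      ring
    rw [this, Complex.exp_periodic]
  have h3 := hper.intervalIntegral_add_eq (-Real.pi) 0
  have h4 : -Real.pi + 2 * Real.pi = Real.pi := by ring
  rw [h4, zero_add] at h3
  rw [h3]
  have h5 : ((2 * Real.pi : ℝ)) • ((2 * Real.pi)⁻¹ • (∫ (θ : ℝ) in 0..2 * Real.pi, kk (((0 : ℝ) : ℂ) + θ * I))) = (2 * Real.pi : ℝ) • (1 : ℂ) := by
    rw [h1]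
  rw [smul_smul, mul_inv_cancel₀ (by positivity), one_smul] at h5
  rw [h5]
  simp

lemma pi_le : Real.pi ≤ 3.15 := by linarith [Real.pi_lt_d2]
lemma pi_ge : 3.14 ≤ Real.pi := by linarith [Real.pi_gt_d2]

/-- Hypothesis: the point is at distance at least `d` from the boundary of the half strip. -/
structure FarL (d : ℝ) (ζ : ℂ) : Prop where
  pos : 0 < d
  vert : ∀ y ∈ Icc (-Real.pi) Real.pi, d ≤ ‖(((0 : ℝ) : ℂ) + (y : ℂ) * I) - ζ‖
  top : ∀ x ∈ Ioi (0 : ℝ), d ≤ ‖((x : ℂ) + (Real.pi : ℝ) * I) - ζ‖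
  bot : ∀ x ∈ Ioi (0 : ℝ), d ≤ ‖((x : ℂ) + ((-Real.pi : ℝ) : ℂ) * I) - ζ‖

lemma norm_two_pi_I_inv : ‖(2 * Real.pi * I : ℂ)⁻¹‖ = (2 * Real.pi)⁻¹ := by
  rw [norm_inv, norm_mul, norm_mul, Complex.norm_I, Complex.norm_real, Real.norm_eq_abs,
    abs_of_pos Real.pi_pos]
  simp

lemma vert_bound {φ : ℝ → ℂ} {M : ℝ} (hM : ∀ y ∈ Icc (-Real.pi) Real.pi, ‖φ y‖ ≤ M)
    {d : ℝ} {ζ : ℂ} (h : FarL d ζ) :
    ‖∫ y in (-Real.pi)..Real.pi, φ y / ((((0 : ℝ) : ℂ) + (y : ℂ) * I) - ζ)‖ ≤ 2 * Real.pi * M / d := by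
  have hpi : -Real.pi ≤ Real.pi := by linarith [Real.pi_pos]
  have h1 : ∀ y ∈ Set.uIoc (-Real.pi) Real.pi, ‖φ y / ((((0 : ℝ) : ℂ) + (y : ℂ) * I) - ζ)‖ ≤ M / d := by
    intro y hy
    rw [uIoc_of_le hpi] at hy
    have hy' : y ∈ Icc (-Real.pi) Real.pi := ⟨hy.1.le, hy.2⟩
    rw [norm_div]
    exact div_le_div₀ (le_trans (norm_nonneg _) (hM y hy')) (hM y hy') h.pos (h.vert y hy')
  have h2 := intervalIntegral.norm_integral_le_of_norm_le_const h1
  refine le_trans h2 (le_of_eq ?_)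
  have : |Real.pi - -Real.pi| = 2 * Real.pi := by
    rw [abs_of_nonneg (by linarith [Real.pi_pos])]; ring
  rw [this]
  ring

lemma Ic_bound {d : ℝ} {ζ : ℂ} (h : FarL d ζ) : ‖Ic 0 ζ‖ ≤ 3 / d := by
  have hd := h.pos
  unfold Ic
  rw [norm_mul, norm_two_pi_I_inv]
  have h1 : ‖I * ∫ y in (-Real.pi)..Real.pi, hk ζ (((0:ℝ):ℂ) + y * I)‖ ≤ 2 * Real.pi * Real.exp 1 / d := by
    rw [norm_mul, Complex.norm_I, one_mul]
    exact vert_bound (fun y _ => norm_kk_imag y) h
  have h2 : ‖∫ x in Ioi (0:ℝ), hk ζ (x + (Real.pi : ℝ) * I)‖ ≤ (2 / 5) / d := by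
    have := ck_norm (μ := volume.restrict (Ioi 0)) (φ := fun x : ℝ => kk (x + (Real.pi : ℝ) * I))
      (v := fun x : ℝ => (x : ℂ) + (Real.pi : ℝ) * I) (ζ := ζ) (kk_line_int cos_pi' 0) hd
      ((ae_restrict_iff' measurableSet_Ioi).mpr (Eventually.of_forall h.top))
    refine le_trans this ?_
    exact div_le_div_of_nonneg_right (kk_line_norm_integral cos_pi') hd.le
  have h3 : ‖∫ x in Ioi (0:ℝ), hk ζ (x + ((-Real.pi : ℝ) : ℂ) * I)‖ ≤ (2 / 5) / d := by
    have := ck_norm (μ := volume.restrict (Ioi 0)) (φ := fun x : ℝ => kk (x + ((-Real.pi : ℝ) : ℂ) * I))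
      (v := fun x : ℝ => (x : ℂ) + ((-Real.pi : ℝ) : ℂ) * I) (ζ := ζ) (kk_line_int cos_neg_pi' 0) hd
      ((ae_restrict_iff' measurableSet_Ioi).mpr (Eventually.of_forall h.bot))
    refine le_trans this ?_
    exact div_le_div_of_nonneg_right (kk_line_norm_integral cos_neg_pi') hd.le
  have h4 := norm_sub_le (I * (∫ y in (-Real.pi)..Real.pi, hk ζ (((0:ℝ):ℂ) + y * I)) +
    (∫ x in Ioi (0:ℝ), hk ζ (x + (Real.pi : ℝ) * I))) (∫ x in Ioi (0:ℝ), hk ζ (x + ((-Real.pi : ℝ) : ℂ) * I))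
  have h5 := norm_add_le (I * (∫ y in (-Real.pi)..Real.pi, hk ζ (((0:ℝ):ℂ) + y * I)))
    (∫ x in Ioi (0:ℝ), hk ζ (x + (Real.pi : ℝ) * I))
  have h6 : Real.exp 1 < 2.7183 := lt_trans Real.exp_one_lt_d9 (by norm_num)
  have h7 : (2 * Real.pi)⁻¹ * (2 * Real.pi * Real.exp 1 / d + (2 / 5) / d + (2 / 5) / d) ≤ 3 / d := by
    have hp := Real.pi_pos
    have hp3 := pi_ge
    rw [← add_div, ← add_div, ← mul_div_assoc]
    apply div_le_div_of_nonneg_right _ hd.le
    rw [inv_mul_le_iff₀ (by positivity)]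
    nlinarith
  refine le_trans (mul_le_mul_of_nonneg_left (le_trans h4 (add_le_add (le_trans h5 (add_le_add h1 h2)) h3)) (by positivity)) ?_
  exact h7

lemma norm_line_le {s x : ℝ} (hs : |s| = Real.pi) (hx : 0 ≤ x) :
    ‖((x : ℂ) + (s : ℂ) * I)‖ ≤ Real.pi * Real.exp (x / 2) := by
  have h1 : ‖((x : ℂ) + (s : ℂ) * I)‖ ≤ x + Real.pi := by
    refine le_trans (norm_add_le _ _) ?_
    rw [norm_mul, Complex.norm_I, mul_one, Complex.norm_real, Complex.norm_real,
      Real.norm_eq_abs, Real.norm_eq_abs, abs_of_nonneg hx, hs]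
  have h2 := Real.add_one_le_exp (x / 2)
  have h3 := pi_ge
  nlinarith

lemma kkv_line_int {s : ℝ} (hs : Real.cos s = -1) (hs' : |s| = Real.pi) :
    IntegrableOn (fun x : ℝ => kk (x + s * I) * (x + s * I)) (Ioi 0) ∧
    (∫ x in Ioi (0:ℝ), ‖kk (x + s * I) * (x + s * I)‖) ≤ 4 / 5 * Real.pi := by
  have hpt : ∀ x ∈ Ioi (0:ℝ), ‖kk (x + s * I) * (x + s * I)‖ ≤ Real.pi * Real.exp (-1) * Real.exp (-(1/2) * x) := by
    intro x hx
    rw [norm_mul]
    have h1 := norm_kk_line_le hs x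
    have h2 := norm_line_le hs' (le_of_lt hx)
    calc _ ≤ (Real.exp (-1) * Real.exp (-x)) * (Real.pi * Real.exp (x / 2)) :=
          mul_le_mul h1 h2 (norm_nonneg _) (by positivity)
      _ = Real.pi * Real.exp (-1) * (Real.exp (-x) * Real.exp (x / 2)) := by ring
      _ = _ := by
        rw [← Real.exp_add]
        congr 2
        ring
  have hint : IntegrableOn (fun x : ℝ => Real.pi * Real.exp (-1) * Real.exp (-(1/2) * x)) (Ioi 0) :=
    (exp_neg_integrableOn_Ioi 0 (b := 1/2) (by norm_num)).const_mul _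
  have hI : IntegrableOn (fun x : ℝ => kk (x + s * I) * (x + s * I)) (Ioi 0) := by
    refine Integrable.mono' hint ?_ ?_
    · exact ((kk_cont.comp (by fun_prop)).mul (by fun_prop)).aestronglyMeasurable
    · exact (ae_restrict_iff' measurableSet_Ioi).mpr (Eventually.of_forall hpt)
  refine ⟨hI, ?_⟩
  have h1 : (∫ x in Ioi (0:ℝ), ‖kk (x + s * I) * (x + s * I)‖) ≤
      ∫ x in Ioi (0:ℝ), Real.pi * Real.exp (-1) * Real.exp (-(1/2) * x) :=
    setIntegral_mono_on hI.norm hint measurableSet_Ioi hpt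
  have h2 : (∫ x in Ioi (0:ℝ), Real.pi * Real.exp (-1) * Real.exp (-(1/2) * x)) = Real.pi * Real.exp (-1) * 2 := by
    rw [integral_const_mul]
    congr 1
    have := integral_exp_mul_Ioi (a := -(1/2 : ℝ)) (by norm_num) 0
    rw [this]
    norm_num
  have h4 : Real.exp (-1) ≤ 2 / 5 := by
    have := Real.exp_one_gt_d9
    rw [Real.exp_neg]
    rw [inv_le_comm₀ (Real.exp_pos 1) (by norm_num)]
    linarith
  have hp := Real.pi_pos
  rw [h2] at h1
  nlinarith

lemma kk_shift (x : ℝ) : kk (x + ((-Real.pi : ℝ) : ℂ) * I) = kk (x + (Real.pi : ℝ) * I) := by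
  unfold kk
  have h : (x : ℂ) + (Real.pi : ℝ) * I = ((x : ℂ) + ((-Real.pi : ℝ) : ℂ) * I) + 2 * Real.pi * I := by
    push_cast
    ring
  rw [h, Complex.exp_periodic]

lemma Ic_asym {d : ℝ} {ζ : ℂ} (h : FarL d ζ) (hζ : ζ ≠ 0) : ‖Ic 0 ζ + 1 / ζ‖ ≤ 10 / (d * ‖ζ‖) := by
  have hd := h.pos
  obtain ⟨it, bt⟩ := kkv_line_int cos_pi' (abs_of_pos Real.pi_pos)
  obtain ⟨ib, bb⟩ := kkv_line_int cos_neg_pi' (by rw [abs_neg, abs_of_pos Real.pi_pos])
  have hpi : -Real.pi ≤ Real.pi := by linarith [Real.pi_pos]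
  -- rewriting
  have e : ∀ v : ℂ, v - ζ ≠ 0 → kk v * v / (v - ζ) = ζ * hk ζ v + kk v := by
    intro v hv
    unfold hk
    field_simp
    ring
  have nt : ∀ x ∈ Ioi (0:ℝ), ((x : ℂ) + (Real.pi : ℝ) * I) - ζ ≠ 0 := by
    intro x hx h0
    have := h.top x hx
    rw [h0, norm_zero] at this
    linarith
  have nb : ∀ x ∈ Ioi (0:ℝ), ((x : ℂ) + ((-Real.pi : ℝ) : ℂ) * I) - ζ ≠ 0 := by
    intro x hx h0
    have := h.bot x hx
    rw [h0, norm_zero] at this
    linarith
  have nv : ∀ y ∈ Icc (-Real.pi) Real.pi, (((0:ℝ) : ℂ) + (y : ℂ) * I) - ζ ≠ 0 := by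
    intro x hx h0
    have := h.vert x hx
    rw [h0, norm_zero] at this
    linarith
  have at_top : (∫ x in Ioi (0:ℝ), kk (x + (Real.pi : ℝ) * I) * (x + (Real.pi : ℝ) * I) / ((x + (Real.pi : ℝ) * I) - ζ)) =
      ζ * (∫ x in Ioi (0:ℝ), hk ζ (x + (Real.pi : ℝ) * I)) + ∫ x in Ioi (0:ℝ), kk (x + (Real.pi : ℝ) * I) := by
    rw [← integral_const_mul, ← integral_add]
    · apply setIntegral_congr_fun measurableSet_Ioi
      intro x hx
      exact e _ (nt x hx)
    · exact (hk_line_int cos_pi' hd h.top).const_mul ζ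
    · exact kk_line_int cos_pi' 0
  have at_bot : (∫ x in Ioi (0:ℝ), kk (x + ((-Real.pi : ℝ) : ℂ) * I) * (x + ((-Real.pi : ℝ) : ℂ) * I) / ((x + ((-Real.pi : ℝ) : ℂ) * I) - ζ)) =
      ζ * (∫ x in Ioi (0:ℝ), hk ζ (x + ((-Real.pi : ℝ) : ℂ) * I)) + ∫ x in Ioi (0:ℝ), kk (x + ((-Real.pi : ℝ) : ℂ) * I) := by
    rw [← integral_const_mul, ← integral_add]
    · apply setIntegral_congr_fun measurableSet_Ioi
      intro x hx
      exact e _ (nb x hx)
    · exact (hk_line_int cos_neg_pi' hd h.bot).const_mul ζ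
    · exact kk_line_int cos_neg_pi' 0
  have at_v : (∫ y in (-Real.pi)..Real.pi, kk (((0:ℝ):ℂ) + y * I) * (((0:ℝ):ℂ) + y * I) / ((((0:ℝ):ℂ) + y * I) - ζ)) =
      ζ * (∫ y in (-Real.pi)..Real.pi, hk ζ (((0:ℝ):ℂ) + y * I)) + ∫ y in (-Real.pi)..Real.pi, kk (((0:ℝ):ℂ) + y * I) := by
    rw [← intervalIntegral.integral_const_mul, ← intervalIntegral.integral_add]
    · apply intervalIntegral.integral_congr
      intro y hy
      rw [uIcc_of_le hpi] at hy
      exact e _ (nv y hy)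
    · apply ContinuousOn.intervalIntegrable
      rw [uIcc_of_le hpi]
      unfold hk
      apply ContinuousOn.mul continuousOn_const
      apply ContinuousOn.div
      · exact (kk_cont.comp (by fun_prop)).continuousOn
      · fun_prop
      · exact nv
    · apply Continuous.intervalIntegrable
      exact kk_cont.comp (by fun_prop)
  have heq : ζ * Ic 0 ζ + 1 = (2 * Real.pi * I)⁻¹ * (I * (∫ y in (-Real.pi)..Real.pi, kk (((0:ℝ):ℂ) + y * I) * (((0:ℝ):ℂ) + y * I) / ((((0:ℝ):ℂ) + y * I) - ζ)) +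
    (∫ x in Ioi (0:ℝ), kk (x + (Real.pi : ℝ) * I) * (x + (Real.pi : ℝ) * I) / ((x + (Real.pi : ℝ) * I) - ζ)) -
    (∫ x in Ioi (0:ℝ), kk (x + ((-Real.pi : ℝ) : ℂ) * I) * (x + ((-Real.pi : ℝ) : ℂ) * I) / ((x + ((-Real.pi : ℝ) : ℂ) * I) - ζ))) := by
    rw [at_top, at_bot, at_v, vert_kk]
    simp only [kk_shift]
    unfold Ic
    have h2 : (2 * Real.pi * I : ℂ)⁻¹ * (2 * Real.pi * I) = 1 := inv_mul_cancel₀ two_pi_I_ne
    linear_combination -h2
  have hb1 : ‖I * ∫ y in (-Real.pi)..Real.pi, kk (((0:ℝ):ℂ) + y * I) * (((0:ℝ):ℂ) + y * I) / ((((0:ℝ):ℂ) + y * I) - ζ)‖ ≤ 2 * Real.pi * (Real.exp 1 * Real.pi) / d := by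
    rw [norm_mul, Complex.norm_I, one_mul]
    refine vert_bound (φ := fun y : ℝ => kk (((0:ℝ):ℂ) + y * I) * (((0:ℝ):ℂ) + y * I))
      (fun y hy => ?_) h
    rw [norm_mul]
    apply mul_le_mul (norm_kk_imag y) _ (norm_nonneg _) (Real.exp_pos 1).le
    simp only [ofReal_zero, zero_add, norm_mul, Complex.norm_I, mul_one, Complex.norm_real, Real.norm_eq_abs]
    exact abs_le.mpr hy
  have hb2 : ‖∫ x in Ioi (0:ℝ), kk (x + (Real.pi : ℝ) * I) * (x + (Real.pi : ℝ) * I) / ((x + (Real.pi : ℝ) * I) - ζ)‖ ≤ (4 / 5 * Real.pi) / d := by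
    have := ck_norm (μ := volume.restrict (Ioi 0)) (φ := fun x : ℝ => kk (x + (Real.pi : ℝ) * I) * (x + (Real.pi : ℝ) * I))
      (v := fun x : ℝ => (x : ℂ) + (Real.pi : ℝ) * I) (ζ := ζ) it hd
      ((ae_restrict_iff' measurableSet_Ioi).mpr (Eventually.of_forall h.top))
    exact le_trans this (div_le_div_of_nonneg_right bt hd.le)
  have hb3 : ‖∫ x in Ioi (0:ℝ), kk (x + ((-Real.pi : ℝ) : ℂ) * I) * (x + ((-Real.pi : ℝ) : ℂ) * I) / ((x + ((-Real.pi : ℝ) : ℂ) * I) - ζ)‖ ≤ (4 / 5 * Real.pi) / d := by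
    have := ck_norm (μ := volume.restrict (Ioi 0)) (φ := fun x : ℝ => kk (x + ((-Real.pi : ℝ) : ℂ) * I) * (x + ((-Real.pi : ℝ) : ℂ) * I))
      (v := fun x : ℝ => (x : ℂ) + ((-Real.pi : ℝ) : ℂ) * I) (ζ := ζ) ib hd
      ((ae_restrict_iff' measurableSet_Ioi).mpr (Eventually.of_forall h.bot))
    exact le_trans this (div_le_div_of_nonneg_right bb hd.le)
  have hnb : ‖ζ * Ic 0 ζ + 1‖ ≤ 10 / d := by
    rw [heq, norm_mul, norm_two_pi_I_inv]
    have h4 := norm_sub_le (I * (∫ y in (-Real.pi)..Real.pi, kk (((0:ℝ):ℂ) + y * I) * (((0:ℝ):ℂ) + y * I) / ((((0:ℝ):ℂ) + y * I) - ζ)) +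
      (∫ x in Ioi (0:ℝ), kk (x + (Real.pi : ℝ) * I) * (x + (Real.pi : ℝ) * I) / ((x + (Real.pi : ℝ) * I) - ζ)))
      (∫ x in Ioi (0:ℝ), kk (x + ((-Real.pi : ℝ) : ℂ) * I) * (x + ((-Real.pi : ℝ) : ℂ) * I) / ((x + ((-Real.pi : ℝ) : ℂ) * I) - ζ))
    have h5 := norm_add_le (I * (∫ y in (-Real.pi)..Real.pi, kk (((0:ℝ):ℂ) + y * I) * (((0:ℝ):ℂ) + y * I) / ((((0:ℝ):ℂ) + y * I) - ζ)))
      (∫ x in Ioi (0:ℝ), kk (x + (Real.pi : ℝ) * I) * (x + (Real.pi : ℝ) * I) / ((x + (Real.pi : ℝ) * I) - ζ))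
    refine le_trans (mul_le_mul_of_nonneg_left (le_trans h4 (add_le_add (le_trans h5 (add_le_add hb1 hb2)) hb3)) (by positivity)) ?_
    rw [← add_div, ← add_div, ← mul_div_assoc]
    apply div_le_div_of_nonneg_right _ hd.le
    have hp := Real.pi_pos
    have h6 : Real.exp 1 < 2.7183 := lt_trans Real.exp_one_lt_d9 (by norm_num)
    have h7 := pi_le
    have h8 : Real.exp 1 * Real.pi ≤ 2.7183 * 3.15 := mul_le_mul h6.le h7 hp.le (by norm_num)
    have h9 : (2 * Real.pi)⁻¹ * (2 * Real.pi * (Real.exp 1 * Real.pi) + 4 / 5 * Real.pi + 4 / 5 * Real.pi) = Real.exp 1 * Real.pi + 4 / 5 := by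
      field_simp
      ring
    rw [h9]
    linarith
  have hz : 0 < ‖ζ‖ := norm_pos_iff.mpr hζ
  have hfin : Ic 0 ζ + 1 / ζ = (ζ * Ic 0 ζ + 1) / ζ := by
    field_simp
  rw [hfin, norm_div, ← div_div]
  exact div_le_div_of_nonneg_right hnb hz.le

end Pool.Agent.MP_6f1701_an

end

section

open Complex MeasureTheory Set Filter Topology

namespace Pool.Agent.MP_6f1701_an

lemma re_line (x s : ℝ) (ζ : ℂ) : (((x : ℂ) + (s : ℂ) * I) - ζ).re = x - ζ.re := by
  simp

lemma im_line (x s : ℝ) (ζ : ℂ) : (((x : ℂ) + (s : ℂ) * I) - ζ).im = s - ζ.im := by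
  simp

lemma farL_im {d : ℝ} {ζ : ℂ} (hd : 0 < d) (h : Real.pi + d ≤ |ζ.im|) : FarL d ζ := by
  have key : ∀ s ∈ Icc (-Real.pi) Real.pi, ∀ x : ℝ, d ≤ ‖((x : ℂ) + (s : ℂ) * I) - ζ‖ := by
    intro s hs x
    refine le_trans ?_ (norm_ge_im _)
    rw [im_line]
    have h1 : |s| ≤ Real.pi := abs_le.mpr hs
    have h2 : |ζ.im| - |s| ≤ |s - ζ.im| := by
      rw [abs_sub_comm]
      exact abs_sub_abs_le_abs_sub _ _
    linarith
  have hp := Real.pi_pos
  exact ⟨hd, fun y hy => key y hy 0, fun x _ => key Real.pi ⟨by linarith, le_rfl⟩ x,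
    fun x _ => key (-Real.pi) ⟨le_rfl, by linarith⟩ x⟩

lemma farL_re {d : ℝ} {ζ : ℂ} (hd : 0 < d) (h : ζ.re ≤ -d) : FarL d ζ := by
  have key : ∀ s : ℝ, ∀ x : ℝ, 0 ≤ x → d ≤ ‖((x : ℂ) + (s : ℂ) * I) - ζ‖ := by
    intro s x hx
    refine le_trans ?_ (norm_ge_re _)
    rw [re_line]
    refine le_trans ?_ (le_abs_self _)
    linarith
  exact ⟨hd, fun y _ => key y 0 le_rfl, fun x hx => key Real.pi x (le_of_lt hx),
    fun x hx => key (-Real.pi) x (le_of_lt hx)⟩

lemma farL_in {d : ℝ} {ζ : ℂ} (hd : 0 < d) (h : d ≤ ζ.re) (h2 : |ζ.im| ≤ Real.pi - d) :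
    FarL d ζ := by
  have key : ∀ s : ℝ, |s| = Real.pi → ∀ x : ℝ, d ≤ ‖((x : ℂ) + (s : ℂ) * I) - ζ‖ := by
    intro s hs x
    refine le_trans ?_ (norm_ge_im _)
    rw [im_line]
    have h2 : |s| - |ζ.im| ≤ |s - ζ.im| := abs_sub_abs_le_abs_sub _ _
    linarith
  refine ⟨hd, fun y _ => ?_, fun x _ => key Real.pi (abs_of_pos Real.pi_pos) x,
    fun x _ => key (-Real.pi) (by rw [abs_neg, abs_of_pos Real.pi_pos]) x⟩
  refine le_trans ?_ (norm_ge_re _)
  rw [re_line, abs_sub_comm]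
  refine le_trans ?_ (le_abs_self _)
  linarith

lemma EE_le_im {d : ℝ} {ζ : ℂ} (hd : 0 < d) (h : Real.pi + d ≤ |ζ.im|) : ‖EE ζ‖ ≤ 3 / d := by
  rw [EE_out_im (by linarith)]
  exact Ic_bound (farL_im hd h)

lemma EE_asym_im {d : ℝ} {ζ : ℂ} (hd : 0 < d) (h : Real.pi + d ≤ |ζ.im|) :
    ‖EE ζ + 1 / ζ‖ ≤ 10 / (d * ‖ζ‖) := by
  rw [EE_out_im (by linarith)]
  apply Ic_asym (farL_im hd h)
  rintro rfl
  simp at h
  linarith [Real.pi_pos]

lemma EE_le_re {d : ℝ} {ζ : ℂ} (hd : 0 < d) (h : ζ.re ≤ -d) : ‖EE ζ‖ ≤ 3 / d := by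
  rw [EE_eq (N := 0) (by linarith)]
  exact Ic_bound (farL_re hd h)

lemma EE_asym_re {d : ℝ} {ζ : ℂ} (hd : 0 < d) (h : ζ.re ≤ -d) :
    ‖EE ζ + 1 / ζ‖ ≤ 10 / (d * ‖ζ‖) := by
  rw [EE_eq (N := 0) (by linarith)]
  apply Ic_asym (farL_re hd h)
  rintro rfl
  simp at h
  linarith

lemma EE_sub_kk {d : ℝ} {ζ : ℂ} (hd : 0 < d) (h : d ≤ ζ.re) (h2 : |ζ.im| ≤ Real.pi - d) :
    ‖EE ζ - kk ζ‖ ≤ 3 / d := by
  rw [EE_in (by linarith) (by linarith)]
  simpa using Ic_bound (farL_in hd h h2)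

lemma norm_kk_le_one {ζ : ℂ} (h1 : Real.pi / 2 ≤ |ζ.im|) (h2 : |ζ.im| ≤ Real.pi) : ‖kk ζ‖ ≤ 1 := by
  rw [norm_kk]
  have hc : Real.cos ζ.im ≤ 0 := by
    rw [← Real.cos_abs]
    apply Real.cos_nonpos_of_pi_div_two_le_of_le h1
    linarith [Real.pi_pos]
  have : Real.exp ζ.re * Real.cos ζ.im ≤ 0 :=
    mul_nonpos_of_nonneg_of_nonpos (Real.exp_pos _).le hc
  rw [← Real.exp_zero]
  exact Real.exp_le_exp.mpr this

/-- bound near the horizontal boundary lines, by a maximum modulus argument on a unit disc -/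
lemma EE_near_line {σ : ℝ} (hσ : |σ| = Real.pi) {ξ : ℝ} (hξ : 1.1 ≤ ξ) {ζ : ℂ}
    (hζ : ‖ζ - ((ξ : ℂ) + σ * I)‖ ≤ 1) :
    ‖EE ζ * ((ζ - ((ξ : ℂ) + σ * I)) ^ 2 - 1)‖ ≤ 62 := by
  set c : ℂ := (ξ : ℂ) + σ * I with hc
  have hb := Complex.norm_le_of_forall_mem_frontier_norm_le (f := fun ζ : ℂ => EE ζ * ((ζ - c) ^ 2 - 1))
    (U := Metric.ball c 1) Metric.isBounded_ball (C := 62) ?_ ?_ (z := ζ) ?_
  · exact hb
  · apply Differentiable.diffContOnCl
    have := EE_diff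
    fun_prop
  · intro z hz
    rw [frontier_ball c one_ne_zero, mem_sphere_iff_norm] at hz
    -- w = z - c
    set w : ℂ := z - c with hw
    have hzc : z = c + w := by rw [hw]; ring
    have hsq : w.re ^ 2 + w.im ^ 2 = 1 := by
      have h1 : ‖w‖ ^ 2 = 1 := by rw [hz]; norm_num
      rw [← Complex.normSq_eq_norm_sq, Complex.normSq_apply] at h1
      nlinarith
    have hw2 : ‖w ^ 2 - 1‖ = 2 * |w.im| := by
      have h1 : w ^ 2 - 1 = w * (2 * w.im * I) := by
        apply Complex.ext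
        · simp [pow_two]
          nlinarith
        · simp [pow_two]
          ring
      rw [h1, norm_mul, hz, one_mul, norm_mul, norm_mul, Complex.norm_I, Complex.norm_real]
      simp
    have hwre : |w.re| ≤ 1 := by
      rw [abs_le]
      constructor <;> nlinarith [sq_nonneg w.im]
    have hwim : |w.im| ≤ 1 := by
      rw [abs_le]
      constructor <;> nlinarith [sq_nonneg w.re]
    have hzre : z.re = ξ + w.re := by rw [hzc, hc]; simp
    have hzim : z.im = σ + w.im := by rw [hzc, hc]; simp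
    show ‖EE z * (w ^ 2 - 1)‖ ≤ 62
    rw [norm_mul, hw2]
    rcases eq_or_ne w.im 0 with h0 | h0
    · rw [h0]; simp
    have hpos : 0 < |w.im| := abs_pos.mpr h0
    have hzre' : 0.1 ≤ z.re := by
      rw [hzre]
      have := (abs_le.mp hwre).1
      linarith
    -- two cases according to inside or outside
    have hE : ‖EE z‖ ≤ 1 + 30 / |w.im| := by
      have hcase : |z.im| = Real.pi + |w.im| ∨ |z.im| = Real.pi - |w.im| := by
        rw [hzim]
        rcases abs_eq Real.pi_pos.le |>.mp hσ with hs | hs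
        · rw [hs]
          rcases le_total 0 w.im with h1 | h1
          · left; rw [abs_of_nonneg h1, abs_of_nonneg (by linarith [Real.pi_pos])]
          · right; rw [abs_of_nonpos h1, abs_of_nonneg (by linarith [(abs_le.mp hwim).1, pi_ge])]; ring
        · rw [hs]
          rcases le_total 0 w.im with h1 | h1
          · right; rw [abs_of_nonneg h1, abs_of_nonpos (by linarith [(abs_le.mp hwim).2, pi_ge])]; ring
          · left; rw [abs_of_nonpos h1, abs_of_nonpos (by linarith [Real.pi_pos])]; ring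
      rcases hcase with hcase | hcase
      · have := EE_le_im (ζ := z) hpos (by rw [hcase])
        have h3 : 3 / |w.im| ≤ 30 / |w.im| := div_le_div_of_nonneg_right (by norm_num) hpos.le
        linarith
      · have hd : 0 < |w.im| / 10 := by positivity
        have h1 := EE_sub_kk (ζ := z) hd (by linarith) (by rw [hcase]; linarith)
        have h2 := norm_kk_le_one (ζ := z) (by rw [hcase]; linarith [pi_ge]) (by rw [hcase]; linarith)
        have h3 : ‖EE z‖ ≤ ‖EE z - kk z‖ + ‖kk z‖ := by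
          have := norm_add_le (EE z - kk z) (kk z)
          simpa using this
        have h4 : 3 / (|w.im| / 10) = 30 / |w.im| := by field_simp; norm_num
        rw [h4] at h1
        linarith
    calc ‖EE z‖ * (2 * |w.im|) ≤ (1 + 30 / |w.im|) * (2 * |w.im|) := by
          apply mul_le_mul_of_nonneg_right hE (by positivity)
      _ = 2 * |w.im| + 60 := by field_simp; ring
      _ ≤ 62 := by linarith
  · rw [closure_ball c one_ne_zero, mem_closedBall_iff_norm]
    exact hζ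

lemma EE_mid {ζ : ℂ} (h1 : 1.1 ≤ ζ.re) (h2 : Real.pi / 2 ≤ |ζ.im|) : ‖EE ζ‖ ≤ 83 := by
  by_cases ha : Real.pi + 1 / 2 ≤ |ζ.im|
  · have := EE_le_im (ζ := ζ) (d := 1/2) (by norm_num) ha
    norm_num at this
    linarith
  by_cases hb : |ζ.im| ≤ Real.pi - 1 / 2
  · have h3 := EE_sub_kk (ζ := ζ) (d := 1/2) (by norm_num) (by linarith) hb
    have h4 := norm_kk_le_one h2 (by linarith)
    have h5 : ‖EE ζ‖ ≤ ‖EE ζ - kk ζ‖ + ‖kk ζ‖ := by
      have := norm_add_le (EE ζ - kk ζ) (kk ζ)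
      simpa using this
    norm_num at h3
    linarith
  push Not at ha hb
  obtain ⟨σ, hσ, hσ'⟩ : ∃ σ : ℝ, |σ| = Real.pi ∧ |ζ.im - σ| ≤ 1 / 2 := by
    rcases le_total 0 ζ.im with h0 | h0
    · rw [abs_of_nonneg h0] at ha hb
      exact ⟨Real.pi, abs_of_pos Real.pi_pos, abs_le.mpr ⟨by linarith, by linarith⟩⟩
    · rw [abs_of_nonpos h0] at ha hb
      exact ⟨-Real.pi, by rw [abs_neg, abs_of_pos Real.pi_pos], abs_le.mpr ⟨by linarith, by linarith⟩⟩
  have hdiff : ζ - ((ζ.re : ℂ) + σ * I) = ((ζ.im - σ : ℝ) : ℂ) * I := by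
    apply Complex.ext <;> simp
  have hn : ‖ζ - ((ζ.re : ℂ) + σ * I)‖ ≤ 1 / 2 := by
    rw [hdiff, norm_mul, Complex.norm_I, mul_one, Complex.norm_real, Real.norm_eq_abs]
    exact hσ'
  have h3 := EE_near_line hσ h1 (le_trans hn (by norm_num))
  rw [norm_mul] at h3
  have h4 : (3 / 4 : ℝ) ≤ ‖(ζ - ((ζ.re : ℂ) + σ * I)) ^ 2 - 1‖ := by
    have h5 : ‖(ζ - ((ζ.re : ℂ) + σ * I)) ^ 2‖ ≤ 1 / 4 := by
      rw [norm_pow]
      have := pow_le_pow_left₀ (norm_nonneg _) hn 2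
      norm_num at this
      linarith
    have h6 : ‖(1 : ℂ)‖ ≤ ‖(ζ - ((ζ.re : ℂ) + σ * I)) ^ 2‖ + ‖(ζ - ((ζ.re : ℂ) + σ * I)) ^ 2 - 1‖ := by
      have := norm_sub_le ((ζ - ((ζ.re : ℂ) + σ * I)) ^ 2) ((ζ - ((ζ.re : ℂ) + σ * I)) ^ 2 - 1)
      simpa using this
    rw [norm_one] at h6
    linarith
  nlinarith [norm_nonneg (EE ζ)]

end Pool.Agent.MP_6f1701_an

end

section

open Complex MeasureTheory Set Filter Topology

namespace Pool.Agent.MP_6f1701_an

noncomputable def yk (k : ℕ) : ℝ := (1 / 4) ^ k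

lemma yk_pos (k : ℕ) : 0 < yk k := by unfold yk; positivity
lemma yk_succ (k : ℕ) : yk (k + 1) = yk k / 4 := by unfold yk; rw [pow_succ]; ring
lemma yk_anti {k l : ℕ} (h : k ≤ l) : yk l ≤ yk k := by
  unfold yk
  exact pow_le_pow_of_le_one (by norm_num) (by norm_num) h
lemma yk_mul (k : ℕ) : (8 : ℝ) ^ k * yk k = 2 ^ k := by
  unfold yk
  rw [← mul_pow]
  norm_num
lemma yk_tendsto : Tendsto yk atTop (𝓝 0) := by
  unfold yk
  exact tendsto_pow_atTop_nhds_zero_of_lt_one (by norm_num) (by norm_num)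
lemma yk_le_one (k : ℕ) : yk k ≤ 1 := by
  unfold yk
  exact pow_le_one₀ (by norm_num) (by norm_num)

/-- rescaled variable at level `k` -/
noncomputable def zt (k : ℕ) (z : ℂ) : ℂ := (((8 : ℝ) ^ k : ℝ) : ℂ) * (z - (yk k : ℂ) * I)

lemma zt_re (k : ℕ) (z : ℂ) : (zt k z).re = 8 ^ k * z.re := by
  unfold zt
  rw [Complex.re_ofReal_mul]
  simp

lemma zt_im (k : ℕ) (z : ℂ) : (zt k z).im = 8 ^ k * (z.im - yk k) := by
  unfold zt
  rw [Complex.im_ofReal_mul]
  simp

lemma zt_diff (k : ℕ) : Differentiable ℂ (zt k) := by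
  unfold zt
  fun_prop

lemma two_pow_ge {k : ℕ} (hk : 20 ≤ k) : (1048576 : ℝ) ≤ 2 ^ k := by
  have h : (2 : ℝ) ^ 20 ≤ 2 ^ k := pow_le_pow_right₀ (by norm_num) hk
  norm_num at h
  exact h

lemma term_bound {k : ℕ} (hk : 20 ≤ k) {z : ℂ} (h : (2 : ℝ) ^ k / 2 ≤ |(zt k z).im|) :
    ‖EE (zt k z)‖ ≤ 12 / 2 ^ k := by
  have h1 := two_pow_ge hk
  have h2 := EE_le_im (ζ := zt k z) (d := 2 ^ k / 4) (by positivity) (by linarith [pi_le])
  have h3 : (3 : ℝ) / (2 ^ k / 4) = 12 / 2 ^ k := by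
    field_simp
    norm_num
  rw [h3] at h2
  exact h2

/-- levels far below -/
lemma im_low {k : ℕ} {z : ℂ} (h : 2 * yk k ≤ z.im) : (2 : ℝ) ^ k / 2 ≤ |(zt k z).im| := by
  rw [zt_im]
  refine le_trans ?_ (le_abs_self _)
  have h1 := yk_mul k
  have h2 : (0:ℝ) < 8 ^ k := by positivity
  have h3 : (8:ℝ) ^ k * yk k ≤ 8 ^ k * (z.im - yk k) := mul_le_mul_of_nonneg_left (by linarith) h2.le
  have h4 : (0:ℝ) < 2 ^ k := by positivity
  linarith

/-- levels above -/
lemma im_high {k : ℕ} {z : ℂ} (h : z.im ≤ yk k / 2) : (2 : ℝ) ^ k / 2 ≤ |(zt k z).im| := by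
  rw [zt_im]
  refine le_trans ?_ (neg_le_abs _)
  have h1 := yk_mul k
  have h2 : (0:ℝ) < 8 ^ k := by positivity
  have h3 : (8:ℝ) ^ k * (yk k / 2) ≤ 8 ^ k * (yk k - z.im) := mul_le_mul_of_nonneg_left (by linarith) h2.le
  linarith

/-- the exponent -/
noncomputable def SS (z : ℂ) : ℂ := ∑' k : ℕ, EE (zt (k + 20) z)

lemma sum12 : Summable (fun k : ℕ => (12 : ℝ) / 2 ^ (k + 20)) := by
  have h := (summable_geometric_of_lt_one (r := (1/2 : ℝ)) (by norm_num) (by norm_num)).mul_left (12 / 2 ^ 20)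
  refine h.congr (fun k => ?_)
  rw [pow_add, one_div, inv_pow]
  field_simp

lemma sum12_val : (∑' k : ℕ, (12 : ℝ) / 2 ^ (k + 20)) = 24 / 2 ^ 20 := by
  have h : ∀ k : ℕ, (12 : ℝ) / 2 ^ (k + 20) = (12 / 2 ^ 20) * (1 / 2) ^ k := by
    intro k
    rw [pow_add, one_div, inv_pow]
    field_simp
  rw [tsum_congr h, tsum_mul_left, tsum_geometric_of_lt_one (by norm_num) (by norm_num)]
  norm_num

lemma exists_level {y : ℝ} (hy : 0 < y) : ∃ N : ℕ, 2 * yk N ≤ y := by
  have h := (yk_tendsto.const_mul 2)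
  rw [mul_zero] at h
  obtain ⟨N, hN⟩ := (h.eventually (gt_mem_nhds hy)).exists
  exact ⟨N, hN.le⟩

lemma summ_SS {z : ℂ} (hz : 0 < z.im) : Summable (fun k : ℕ => EE (zt (k + 20) z)) := by
  obtain ⟨N, hN⟩ := exists_level hz
  refine Summable.of_norm_bounded_eventually_nat sum12 ?_
  filter_upwards [eventually_ge_atTop N] with k hk
  apply term_bound (by omega)
  apply im_low
  have := yk_anti (show N ≤ k + 20 by omega)
  linarith

lemma SS_diff {z0 : ℂ} (hz : 0 < z0.im) : DifferentiableAt ℂ SS z0 := by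
  obtain ⟨N, hN⟩ := exists_level (half_pos hz)
  set U : Set ℂ := {z : ℂ | z0.im / 2 < z.im} with hU
  have hUo : IsOpen U := isOpen_lt continuous_const Complex.continuous_im
  have hz0 : z0 ∈ U := by
    show z0.im / 2 < z0.im
    linarith
  have h1 : DifferentiableOn ℂ (fun w : ℂ => ∑' k : ℕ, EE (zt (k + N + 20) w)) U := by
    apply differentiableOn_tsum_of_summable_norm (u := fun k : ℕ => (12 : ℝ) / 2 ^ (k + N + 20))
    · exact (summable_nat_add_iff (f := fun k : ℕ => (12 : ℝ) / 2 ^ (k + 20)) N).mpr sum12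
    · intro k
      exact (EE_diff.comp (zt_diff _)).differentiableOn
    · exact hUo
    · intro k w hw
      apply term_bound (by omega)
      apply im_low
      have h2 := yk_anti (show N ≤ k + N + 20 by omega)
      have h3 : z0.im / 2 < w.im := hw
      linarith
  have h2 : DifferentiableAt ℂ (fun w : ℂ => (∑ k ∈ Finset.range N, EE (zt (k + 20) w)) +
      ∑' k : ℕ, EE (zt (k + N + 20) w)) z0 := by
    apply DifferentiableAt.add
    · apply DifferentiableAt.fun_sum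
      intro k _
      exact (EE_diff.comp (zt_diff _)).differentiableAt
    · exact (h1 z0 hz0).differentiableAt (hUo.mem_nhds hz0)
  apply h2.congr_of_eventuallyEq
  filter_upwards [hUo.mem_nhds hz0] with w hw
  have hw' : 0 < w.im := by
    have h3 : z0.im / 2 < w.im := hw
    linarith
  exact ((summ_SS hw').sum_add_tsum_nat_add N).symm

/-- The slab at level `n`. -/
def Qn (n : ℕ) : Set ℂ := {z : ℂ | yk n / 2 ≤ z.im ∧ z.im ≤ 2 * yk n}

lemma Qn_im_pos {n : ℕ} {z : ℂ} (hz : z ∈ Qn n) : 0 < z.im := by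
  have := yk_pos n
  have := hz.1
  linarith

lemma Qn_term {n k : ℕ} (hk : 20 ≤ k) (hkn : k ≠ n) {z : ℂ} (hz : z ∈ Qn n) :
    ‖EE (zt k z)‖ ≤ 12 / 2 ^ k := by
  apply term_bound hk
  rcases lt_or_gt_of_ne hkn with h | h
  · apply im_high
    have h1 := yk_anti (show k + 1 ≤ n by omega)
    rw [yk_succ] at h1
    have := hz.2
    linarith
  · apply im_low
    have h1 := yk_anti (show n + 1 ≤ k by omega)
    rw [yk_succ] at h1
    have := hz.1
    linarith

/-- the neutral part of the exponent at level `n` -/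
noncomputable def Sn (n : ℕ) (z : ℂ) : ℂ := SS z - EE (zt n z)

lemma Sn_bound {n : ℕ} (hn : 20 ≤ n) {z : ℂ} (hz : z ∈ Qn n) : ‖Sn n z‖ ≤ 1 / 10000 := by
  have hs := summ_SS (Qn_im_pos hz)
  have h1 := hs.tsum_eq_add_tsum_ite (n - 20)
  have h2 : n - 20 + 20 = n := by omega
  rw [h2] at h1
  have h3 : Sn n z = ∑' k : ℕ, (if k = n - 20 then 0 else EE (zt (k + 20) z)) := by
    unfold Sn SS
    rw [h1]
    ring
  rw [h3]
  have h4 : ∀ k : ℕ, ‖(if k = n - 20 then 0 else EE (zt (k + 20) z))‖ ≤ 12 / 2 ^ (k + 20) := by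
    intro k
    split_ifs with hk
    · rw [norm_zero]; positivity
    · apply Qn_term (by omega) (by omega) hz
  have h5 := tsum_of_norm_bounded sum12.hasSum h4
  rw [sum12_val] at h5
  refine le_trans h5 ?_
  norm_num

lemma Sn_diff {n : ℕ} {z : ℂ} (hz : 0 < z.im) : DifferentiableAt ℂ (Sn n) z := by
  unfold Sn
  exact (SS_diff hz).sub (EE_diff.comp (zt_diff n)).differentiableAt

lemma SS_eq (n : ℕ) (z : ℂ) : SS z = Sn n z + EE (zt n z) := by
  unfold Sn
  ring

/-- derivative of the main function on the half plane -/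
noncomputable def dF (z : ℂ) : ℂ := cexp (SS z) / z ^ 2

lemma im_pos_ne_zero {z : ℂ} (hz : 0 < z.im) : z ≠ 0 := by
  rintro rfl
  simp at hz

lemma dF_ne_zero {z : ℂ} (hz : 0 < z.im) : dF z ≠ 0 := by
  unfold dF
  exact div_ne_zero (Complex.exp_ne_zero _) (pow_ne_zero 2 (im_pos_ne_zero hz))

lemma dF_diff {z : ℂ} (hz : 0 < z.im) : DifferentiableAt ℂ dF z := by
  unfold dF
  have h1 := (SS_diff hz).cexp
  exact h1.div (by fun_prop) (pow_ne_zero 2 (im_pos_ne_zero hz))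

/-- Cayley transform from the disc to the half plane -/
noncomputable def Cay (w : ℂ) : ℂ := I * (1 + w) / (1 - w)

/-- inverse Cayley transform -/
noncomputable def Cai (z : ℂ) : ℂ := (z - I) / (z + I)

lemma one_sub_ne {w : ℂ} (hw : w ∈ Metric.ball (0 : ℂ) 1) : 1 - w ≠ 0 := by
  intro h
  have : w = 1 := by linear_combination -h
  rw [this] at hw
  simp at hw

lemma add_I_ne {z : ℂ} (hz : 0 ≤ z.im) : z + I ≠ 0 := by
  intro h
  have := congrArg Complex.im h
  simp at this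
  linarith

lemma Cay_im {w : ℂ} (hw : w ∈ Metric.ball (0 : ℂ) 1) : 0 < (Cay w).im := by
  have h1 : 1 - w ≠ 0 := one_sub_ne hw
  have h2 : Cay w = ((1 / Complex.normSq (1 - w) : ℝ) : ℂ) * (I * (1 + w) * (starRingEnd ℂ) (1 - w)) := by
    unfold Cay
    rw [div_eq_mul_inv, Complex.inv_def]
    push_cast
    ring
  rw [h2, Complex.im_ofReal_mul]
  have h3 : 0 < Complex.normSq (1 - w) := Complex.normSq_pos.mpr h1
  have h4 : (I * (1 + w) * (starRingEnd ℂ) (1 - w)).im = 1 - (w.re ^ 2 + w.im ^ 2) := by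
    simp
    ring
  rw [h4]
  have h5 : w.re ^ 2 + w.im ^ 2 < 1 := by
    rw [mem_ball_zero_iff] at hw
    have : ‖w‖ ^ 2 < 1 := by nlinarith [norm_nonneg w]
    rw [← Complex.normSq_eq_norm_sq, Complex.normSq_apply] at this
    nlinarith
  have : 0 < 1 - (w.re ^ 2 + w.im ^ 2) := by linarith
  positivity

lemma Cai_Cay {w : ℂ} (hw : w ∈ Metric.ball (0 : ℂ) 1) : Cai (Cay w) = w := by
  have h1 : 1 - w ≠ 0 := one_sub_ne hw
  have h2 : Cay w + I ≠ 0 := add_I_ne (Cay_im hw).le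
  unfold Cai
  rw [div_eq_iff h2]
  unfold Cay
  field_simp
  ring

lemma Cai_mem {z : ℂ} (hz : 0 < z.im) : Cai z ∈ Metric.ball (0 : ℂ) 1 := by
  have h1 : z + I ≠ 0 := add_I_ne hz.le
  rw [mem_ball_zero_iff]
  unfold Cai
  rw [norm_div, div_lt_one (norm_pos_iff.mpr h1)]
  have h2 : ‖z - I‖ ^ 2 < ‖z + I‖ ^ 2 := by
    rw [← Complex.normSq_eq_norm_sq, ← Complex.normSq_eq_norm_sq, Complex.normSq_apply,
      Complex.normSq_apply]
    simp
    nlinarith
  exact lt_of_pow_lt_pow_left₀ 2 (norm_nonneg _) h2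

lemma Cay_Cai {z : ℂ} (hz : 0 < z.im) : Cay (Cai z) = z := by
  have h1 : z + I ≠ 0 := add_I_ne hz.le
  have h2 : 1 - Cai z ≠ 0 := one_sub_ne (Cai_mem hz)
  unfold Cay
  rw [div_eq_iff h2]
  unfold Cai
  field_simp
  ring_nf

lemma Cay_deriv {w : ℂ} (hw : 1 - w ≠ 0) : HasDerivAt Cay (2 * I / (1 - w) ^ 2) w := by
  have h1 : HasDerivAt (fun w : ℂ => I * (1 + w)) (I * 1) w :=
    ((hasDerivAt_id w).const_add 1).const_mul I
  have h2 : HasDerivAt (fun w : ℂ => 1 - w) (-1) w := by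
    simpa using (hasDerivAt_id w).const_sub 1
  have h3 := h1.div h2 hw
  have h4 : (I * 1 * (1 - w) - I * (1 + w) * (-1)) / (1 - w) ^ 2 = 2 * I / (1 - w) ^ 2 := by ring
  rw [h4] at h3
  exact h3

lemma Cai_deriv {z : ℂ} (hz : z + I ≠ 0) : HasDerivAt Cai (2 * I / (z + I) ^ 2) z := by
  have h1 : HasDerivAt (fun z : ℂ => z - I) 1 z := (hasDerivAt_id z).sub_const I
  have h2 : HasDerivAt (fun z : ℂ => z + I) 1 z := (hasDerivAt_id z).add_const I
  have h3 := h1.div h2 hz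
  have h4 : (1 * (z + I) - (z - I) * 1) / (z + I) ^ 2 = 2 * I / (z + I) ^ 2 := by ring
  rw [h4] at h3
  exact h3

lemma exists_fd : ∃ f : ℂ → ℂ, ∀ w ∈ Metric.ball (0 : ℂ) 1,
    HasDerivAt f (dF (Cay w) * (2 * I / (1 - w) ^ 2)) w := by
  have h : DifferentiableOn ℂ (fun w => dF (Cay w) * (2 * I / (1 - w) ^ 2)) (Metric.ball (0 : ℂ) 1) := by
    intro w hw
    have h1 := one_sub_ne hw
    apply DifferentiableAt.differentiableWithinAt
    apply DifferentiableAt.mul
    · exact DifferentiableAt.comp (g := dF) (f := Cay) w (dF_diff (Cay_im hw)) (Cay_deriv h1).differentiableAt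
    · exact DifferentiableAt.div (by fun_prop) (by fun_prop) (pow_ne_zero 2 h1)
  exact h.isExactOn_ball

/-- the main function on the disc -/
noncomputable def fd : ℂ → ℂ := Classical.choose exists_fd

lemma fd_deriv {w : ℂ} (hw : w ∈ Metric.ball (0 : ℂ) 1) :
    HasDerivAt fd (dF (Cay w) * (2 * I / (1 - w) ^ 2)) w :=
  Classical.choose_spec exists_fd w hw

/-- the main function on the half plane -/
noncomputable def FF (z : ℂ) : ℂ := fd (Cai z)

lemma FF_deriv {z : ℂ} (hz : 0 < z.im) : HasDerivAt FF (dF z) z := by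
  have h1 : z + I ≠ 0 := add_I_ne hz.le
  have h2 := (fd_deriv (Cai_mem hz)).comp z (Cai_deriv h1)
  have h3 : 1 - Cai z ≠ 0 := one_sub_ne (Cai_mem hz)
  rw [Cay_Cai hz] at h2
  have h4 : (2 * I / (1 - Cai z) ^ 2) * (2 * I / (z + I) ^ 2) = 1 := by
    have h5 : (1 - Cai z) * (z + I) = 2 * I := by
      unfold Cai
      field_simp
      ring
    have h6 : (2 * I / (1 - Cai z) ^ 2) * (2 * I / (z + I) ^ 2) = (2 * I) ^ 2 / ((1 - Cai z) * (z + I)) ^ 2 := by
      rw [mul_pow]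
      field_simp
    rw [h6, h5]
    apply div_self
    simp
  have h7 : dF z * (2 * I / (1 - Cai z) ^ 2) * (2 * I / (z + I) ^ 2) = dF z := by
    rw [mul_assoc, h4, mul_one]
  rw [h7] at h2
  exact h2

end Pool.Agent.MP_6f1701_an

end

section

open Complex MeasureTheory Set Filter Topology

namespace Pool.Agent.MP_6f1701_an

/-- integral over bottom, top (reversed) and left side (reversed) -/
noncomputable def threeI (f : ℂ → ℂ) (a b c d : ℝ) : ℂ :=
  (∫ x : ℝ in a..b, f (x + c * I)) - (∫ x : ℝ in a..b, f (x + d * I)) -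
    I * (∫ y : ℝ in c..d, f (a + y * I))

lemma threeI_eq (f : ℂ → ℂ) (a b c d : ℝ) :
    threeI f a b c d = rectI f a b c d - I * (∫ y : ℝ in c..d, f (b + y * I)) := by
  unfold threeI rectI
  ring

/-- the three sides -/
def Sd (a b c d : ℝ) : Set ℂ :=
  {z | (z.re ∈ Icc a b ∧ (z.im = c ∨ z.im = d)) ∨ (z.re = a ∧ z.im ∈ Icc c d)}

lemma int_bot {f : ℂ → ℂ} {a b c d : ℝ} (hab : a ≤ b) (hf : ContinuousOn f (Sd a b c d)) :
    IntervalIntegrable (fun x : ℝ => f (x + c * I)) volume a b := by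
  apply ContinuousOn.intervalIntegrable
  rw [uIcc_of_le hab]
  apply hf.comp (by fun_prop)
  intro x hx
  left
  simp only [add_re, ofReal_re, mul_re, ofReal_im, I_re, I_im, add_im, mul_im]
  constructor
  · simpa using hx
  · left; simp

lemma int_top {f : ℂ → ℂ} {a b c d : ℝ} (hab : a ≤ b) (hf : ContinuousOn f (Sd a b c d)) :
    IntervalIntegrable (fun x : ℝ => f (x + d * I)) volume a b := by
  apply ContinuousOn.intervalIntegrable
  rw [uIcc_of_le hab]
  apply hf.comp (by fun_prop)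
  intro x hx
  left
  simp only [add_re, ofReal_re, mul_re, ofReal_im, I_re, I_im, add_im, mul_im]
  constructor
  · simpa using hx
  · right; simp

lemma int_left {f : ℂ → ℂ} {a b c d : ℝ} (hcd : c ≤ d) (hf : ContinuousOn f (Sd a b c d)) :
    IntervalIntegrable (fun y : ℝ => f (a + y * I)) volume c d := by
  apply ContinuousOn.intervalIntegrable
  rw [uIcc_of_le hcd]
  apply hf.comp (by fun_prop)
  intro x hx
  right
  simp only [add_re, ofReal_re, mul_re, ofReal_im, I_re, I_im, add_im, mul_im]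
  constructor
  · simp
  · simpa using hx

lemma threeI_add {f g : ℂ → ℂ} {a b c d : ℝ} (hab : a ≤ b) (hcd : c ≤ d)
    (hf : ContinuousOn f (Sd a b c d)) (hg : ContinuousOn g (Sd a b c d)) :
    threeI (fun z => f z + g z) a b c d = threeI f a b c d + threeI g a b c d := by
  unfold threeI
  rw [intervalIntegral.integral_add (int_bot hab hf) (int_bot hab hg),
    intervalIntegral.integral_add (int_top hab hf) (int_top hab hg),
    intervalIntegral.integral_add (int_left hcd hf) (int_left hcd hg)]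
  ring

lemma threeI_const_mul {f : ℂ → ℂ} (k : ℂ) (a b c d : ℝ) :
    threeI (fun z => k * f z) a b c d = k * threeI f a b c d := by
  unfold threeI
  simp only [intervalIntegral.integral_const_mul]
  ring

lemma arctan_int {a b c K : ℝ} (hc : 0 < c) (hK : 0 ≤ K) :
    IntervalIntegrable (fun x : ℝ => K / (x ^ 2 + c ^ 2)) volume a b ∧
    (∫ x : ℝ in a..b, K / (x ^ 2 + c ^ 2)) ≤ K * (Real.pi / c) := by
  have hcont : Continuous (fun x : ℝ => K / (x ^ 2 + c ^ 2)) :=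
    continuous_const.div (by fun_prop) (fun x => by positivity)
  refine ⟨hcont.intervalIntegrable _ _, ?_⟩
  have h1 : (∫ x : ℝ in a..b, K / (x ^ 2 + c ^ 2)) =
      K / c * Real.arctan (b / c) - K / c * Real.arctan (a / c) := by
    apply intervalIntegral.integral_eq_sub_of_hasDerivAt
      (f := fun x : ℝ => K / c * Real.arctan (x / c))
    · intro x _
      have h2 : HasDerivAt (fun x : ℝ => x / c) (1 / c) x := (hasDerivAt_id x).div_const c
      have h3 := (h2.arctan).const_mul (K / c)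
      have h4 : K / c * (1 / (1 + (x / c) ^ 2) * (1 / c)) = K / (x ^ 2 + c ^ 2) := by
        have : (0:ℝ) < x ^ 2 + c ^ 2 := by positivity
        have h5 : (0 : ℝ) < 1 + (x / c) ^ 2 := by positivity
        field_simp
        ring
      rw [h4] at h3
      exact h3
    · exact hcont.intervalIntegrable _ _
  rw [h1]
  have h6 := Real.arctan_lt_pi_div_two (b / c)
  have h7 := Real.neg_pi_div_two_lt_arctan (a / c)
  have h8 : 0 ≤ K / c := by positivity
  calc K / c * Real.arctan (b / c) - K / c * Real.arctan (a / c)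
      = K / c * (Real.arctan (b / c) - Real.arctan (a / c)) := by ring
    _ ≤ K / c * Real.pi := mul_le_mul_of_nonneg_left (by linarith) h8
    _ = K * (Real.pi / c) := by ring

lemma threeI_bound {f : ℂ → ℂ} {a b c d K : ℝ} (hab : a ≤ b) (hcd : c ≤ d) (hc : 0 < c)
    (ha : a < 0) (hK : 0 ≤ K) (h : ∀ z ∈ Sd a b c d, ‖f z‖ ≤ K / (z.re ^ 2 + z.im ^ 2)) :
    ‖threeI f a b c d‖ ≤ K * (Real.pi / c) + K * (Real.pi / d) + K * ((d - c) / a ^ 2) := by
  have hd : 0 < d := lt_of_lt_of_le hc hcd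
  have h1 : ‖∫ x : ℝ in a..b, f (x + c * I)‖ ≤ K * (Real.pi / c) := by
    obtain ⟨hi, hle⟩ := arctan_int (a := a) (b := b) hc hK
    refine le_trans (intervalIntegral.norm_integral_le_of_norm_le hab ?_ hi) hle
    refine Eventually.of_forall (fun x hx => ?_)
    have := h (x + c * I) (Or.inl ⟨by simpa using ⟨hx.1.le, hx.2⟩, Or.inl (by simp)⟩)
    simpa using this
  have h2 : ‖∫ x : ℝ in a..b, f (x + d * I)‖ ≤ K * (Real.pi / d) := by
    obtain ⟨hi, hle⟩ := arctan_int (a := a) (b := b) hd hK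
    refine le_trans (intervalIntegral.norm_integral_le_of_norm_le hab ?_ hi) hle
    refine Eventually.of_forall (fun x hx => ?_)
    have := h (x + d * I) (Or.inl ⟨by simpa using ⟨hx.1.le, hx.2⟩, Or.inr (by simp)⟩)
    simpa using this
  have h3 : ‖∫ y : ℝ in c..d, f (a + y * I)‖ ≤ K * ((d - c) / a ^ 2) := by
    have h4 : ∀ y ∈ Set.uIoc c d, ‖f (a + y * I)‖ ≤ K / a ^ 2 := by
      intro y hy
      rw [uIoc_of_le hcd] at hy
      have h5 := h (a + y * I) (Or.inr ⟨by simp, by simpa using ⟨hy.1.le, hy.2⟩⟩)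
      refine le_trans h5 ?_
      have h6 : ((a : ℂ) + y * I).re = a := by simp
      rw [h6]
      have h7 : 0 < a ^ 2 := by nlinarith
      exact div_le_div_of_nonneg_left hK h7 (by nlinarith [sq_nonneg ((a : ℂ) + y * I).im])
    have h5 := intervalIntegral.norm_integral_le_of_norm_le_const h4
    rw [abs_of_nonneg (by linarith)] at h5
    refine le_trans h5 (le_of_eq ?_)
    ring
  unfold threeI
  have h8 := norm_sub_le ((∫ x : ℝ in a..b, f (x + c * I)) - (∫ x : ℝ in a..b, f (x + d * I)))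
    (I * (∫ y : ℝ in c..d, f (a + y * I)))
  have h9 := norm_sub_le (∫ x : ℝ in a..b, f (x + c * I)) (∫ x : ℝ in a..b, f (x + d * I))
  rw [norm_mul, Complex.norm_I, one_mul] at h8
  linarith

/-- fundamental theorem of calculus on the three sides. -/
lemma threeI_ftc {h h' : ℂ → ℂ} {a b c d : ℝ} (hab : a ≤ b) (hcd : c ≤ d)
    (hd : ∀ z ∈ Sd a b c d, HasDerivAt h (h' z) z) (hc : ContinuousOn h' (Sd a b c d)) :
    threeI h' a b c d = h (b + c * I) - h (b + d * I) := by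
  have hmemb : ∀ x ∈ Icc a b, ((x : ℂ) + c * I) ∈ Sd a b c d := fun x hx =>
    Or.inl ⟨by simpa using hx, Or.inl (by simp)⟩
  have hmemt : ∀ x ∈ Icc a b, ((x : ℂ) + d * I) ∈ Sd a b c d := fun x hx =>
    Or.inl ⟨by simpa using hx, Or.inr (by simp)⟩
  have hmeml : ∀ y ∈ Icc c d, ((a : ℂ) + y * I) ∈ Sd a b c d := fun y hy =>
    Or.inr ⟨by simp, by simpa using hy⟩
  have hh : ∀ e : ℝ, ∀ x : ℝ, ((x : ℂ) + e * I) ∈ Sd a b c d →
      HasDerivAt (fun x : ℝ => h (x + e * I)) (h' (x + e * I)) x := by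
    intro e x hx
    have h1 := (hd _ hx).comp_add_const (x : ℂ) (e * I)
    exact h1.comp_ofReal
  have h1 : (∫ x : ℝ in a..b, h' (x + c * I)) = h (b + c * I) - h (a + c * I) := by
    apply intervalIntegral.integral_eq_sub_of_hasDerivAt (f := fun x : ℝ => h (x + c * I))
    · intro x hx
      rw [uIcc_of_le hab] at hx
      exact hh c x (hmemb x hx)
    · exact int_bot hab hc
  have h2 : (∫ x : ℝ in a..b, h' (x + d * I)) = h (b + d * I) - h (a + d * I) := by
    apply intervalIntegral.integral_eq_sub_of_hasDerivAt (f := fun x : ℝ => h (x + d * I))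
    · intro x hx
      rw [uIcc_of_le hab] at hx
      exact hh d x (hmemt x hx)
    · exact int_top hab hc
  have h3 : I * (∫ y : ℝ in c..d, h' (a + y * I)) = h (a + d * I) - h (a + c * I) := by
    rw [← intervalIntegral.integral_const_mul]
    apply intervalIntegral.integral_eq_sub_of_hasDerivAt (f := fun y : ℝ => h (a + y * I))
    · intro y hy
      rw [uIcc_of_le hcd] at hy
      have h4 := hd _ (hmeml y hy)
      have h5 : HasDerivAt (fun w : ℂ => (a : ℂ) + w * I) I (y : ℂ) := by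
        have := ((hasDerivAt_id (y : ℂ)).mul_const I).const_add (a : ℂ)
        rw [one_mul] at this
        exact this
      have h6 := (h4.comp (y : ℂ) h5).comp_ofReal
      rw [mul_comm] at h6
      exact h6
    · exact (int_left hcd hc).const_mul I
  unfold threeI
  rw [h1, h2, h3]
  ring

end Pool.Agent.MP_6f1701_an

end
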