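import Pool.Agent.Lib.MP_6f1701_an.PartA

set_option autoImplicit false

section

open Complex MeasureTheory Set Filter Topology

namespace Pool.Agent.MP_6f1701_an

/-- centre of the n-th singular strip -/
noncomputable def zn (n : ℕ) : ℂ := (yk n : ℂ) * I

lemma zn_re (n : ℕ) : (zn n).re = 0 := by simp [zn]
lemma zn_im (n : ℕ) : (zn n).im = yk n := by simp [zn]

noncomputable def AA (n : ℕ) (z : ℂ) : ℂ := cexp (Sn n z) / z ^ 2

noncomputable def HH (z : ℂ) : ℂ := FF z + 1 / z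

lemma zt_eq (n : ℕ) (z : ℂ) : zt n z = (((8 : ℝ) ^ n : ℝ) : ℂ) * (z - zn n) := rfl

lemma HH_deriv {z : ℂ} (hz : 0 < z.im) : HasDerivAt HH ((cexp (SS z) - 1) / z ^ 2) z := by
  have h0 := im_pos_ne_zero hz
  have h1 := (FF_deriv hz).add ((hasDerivAt_inv h0))
  have h2 : dF z + -(z ^ 2)⁻¹ = (cexp (SS z) - 1) / z ^ 2 := by
    unfold dF
    field_simp
    ring
  rw [h2] at h1
  refine h1.congr_of_eventuallyEq (Eventually.of_forall (fun w => ?_))
  simp [HH]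

lemma normSq_eq' (z : ℂ) : ‖z‖ ^ 2 = z.re ^ 2 + z.im ^ 2 := by
  rw [← Complex.normSq_eq_norm_sq, Complex.normSq_apply]
  ring

lemma norm_exp_small {s : ℂ} (h : ‖s‖ ≤ 1 / 10000) : ‖cexp s‖ ≤ 1.1 := by
  have h1 := Complex.norm_exp_sub_one_le (x := s) (by linarith)
  have h2 : ‖cexp s‖ ≤ ‖cexp s - 1‖ + ‖(1 : ℂ)‖ := by
    have := norm_add_le (cexp s - 1) 1
    simpa using this
  rw [norm_one] at h2
  linarith

lemma AA_norm {n : ℕ} (hn : 20 ≤ n) {z : ℂ} (hz : z ∈ Qn n) :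
    ‖AA n z‖ ≤ 1.1 / (z.re ^ 2 + z.im ^ 2) := by
  unfold AA
  rw [norm_div, norm_pow, normSq_eq']
  exact div_le_div_of_nonneg_right (norm_exp_small (Sn_bound hn hz)) (by positivity)

lemma AA_diff {n : ℕ} {z : ℂ} (hz : 0 < z.im) : DifferentiableAt ℂ (AA n) z := by
  unfold AA
  exact (Sn_diff hz).cexp.div (by fun_prop) (pow_ne_zero 2 (im_pos_ne_zero hz))

set_option maxHeartbeats 4000000 in
lemma jump {n : ℕ} (hn : 20 ≤ n) {b : ℝ} (hb : 1 ≤ b) :
    ‖HH (b + ((yk n / 2 : ℝ) : ℂ) * I) - HH (b + ((2 * yk n : ℝ) : ℂ) * I) -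
      2 * Real.pi * I * (((2 : ℝ) ^ n : ℝ) : ℂ) * cexp (Sn n (zn n))‖ ≤ 3000 := by
  have hy := yk_pos n
  have hy1 := yk_le_one n
  set a : ℝ := -yk n with ha
  set c : ℝ := yk n / 2 with hc
  set d : ℝ := 2 * yk n with hd
  have hab : a ≤ b := by linarith
  have hcd : c ≤ d := by linarith
  have hc0 : 0 < c := by linarith
  have h8 : (0:ℝ) < 8 ^ n := by positivity
  have h2n := two_pow_ge hn
  have hym := yk_mul n
  -- rectangle facts
  have hRQ : ∀ z ∈ (Icc a b ×ℂ Icc c d), z ∈ Qn n := fun z hz => ⟨hz.2.1, hz.2.2⟩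
  have hSR : ∀ z ∈ Sd a b c d, z ∈ (Icc a b ×ℂ Icc c d) := by
    intro z hz
    rcases hz with ⟨h1, h2⟩ | ⟨h1, h2⟩
    · refine ⟨h1, ?_⟩
      rcases h2 with h2 | h2
      · show z.im ∈ Icc c d
        rw [h2]; exact ⟨le_rfl, hcd⟩
      · show z.im ∈ Icc c d
        rw [h2]; exact ⟨hcd, le_rfl⟩
    · refine ⟨?_, h2⟩
      show z.re ∈ Icc a b
      rw [h1]; exact ⟨le_rfl, hab⟩
  have hSQ : ∀ z ∈ Sd a b c d, z ∈ Qn n := fun z hz => hRQ z (hSR z hz)
  have hSne : ∀ z ∈ Sd a b c d, z - zn n ≠ 0 := by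
    intro z hz h0
    have h1 : z = zn n := sub_eq_zero.mp h0
    rw [h1] at hz
    rcases hz with ⟨_, h2⟩ | ⟨h1, _⟩
    · rw [zn_im] at h2
      rcases h2 with h2 | h2 <;> linarith
    · rw [zn_re] at h1
      linarith
  set δ : ℂ := (((8 : ℝ) ^ n : ℝ) : ℂ)⁻¹ with hδ
  have h8c : (((8 : ℝ) ^ n : ℝ) : ℂ) ≠ 0 := by
    exact_mod_cast h8.ne'
  -- pieces
  set f0 : ℂ → ℂ := fun z => (cexp (SS z) - 1) / z ^ 2 with hf0
  set f1 : ℂ → ℂ := fun z => (cexp (Sn n z) - 1) / z ^ 2 with hf1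
  set f2 : ℂ → ℂ := fun z => (-δ) * (AA n z / (z - zn n)) with hf2
  set f3 : ℂ → ℂ := fun z => f0 z - f1 z - f2 z with hf3
  have df0 : ∀ z : ℂ, 0 < z.im → DifferentiableAt ℂ f0 z := fun z hz =>
    ((SS_diff hz).cexp.sub_const 1).div (by fun_prop) (pow_ne_zero 2 (im_pos_ne_zero hz))
  have df1 : ∀ z : ℂ, 0 < z.im → DifferentiableAt ℂ f1 z := fun z hz =>
    ((Sn_diff hz).cexp.sub_const 1).div (by fun_prop) (pow_ne_zero 2 (im_pos_ne_zero hz))
  have cf0 : ContinuousOn f0 (Sd a b c d) := fun z hz =>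
    (df0 z (Qn_im_pos (hSQ z hz))).continuousAt.continuousWithinAt
  have cf1 : ContinuousOn f1 (Sd a b c d) := fun z hz =>
    (df1 z (Qn_im_pos (hSQ z hz))).continuousAt.continuousWithinAt
  have cf2' : ContinuousOn (fun z => AA n z / (z - zn n)) (Sd a b c d) := fun z hz =>
    ((AA_diff (Qn_im_pos (hSQ z hz))).div (by fun_prop) (hSne z hz)).continuousAt.continuousWithinAt
  have cf2 : ContinuousOn f2 (Sd a b c d) := continuousOn_const.mul cf2'
  have cf3 : ContinuousOn f3 (Sd a b c d) := (cf0.sub cf1).sub cf2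
  have e0 : threeI f0 a b c d = HH (b + (c : ℂ) * I) - HH (b + (d : ℂ) * I) :=
    threeI_ftc hab hcd (fun z hz => HH_deriv (Qn_im_pos (hSQ z hz))) cf0
  have esum : threeI f0 a b c d = threeI f1 a b c d + (threeI f2 a b c d + threeI f3 a b c d) := by
    rw [← threeI_add hab hcd cf2 cf3, ← threeI_add (g := fun z => f2 z + f3 z) hab hcd cf1 (cf2.add cf3)]
    congr 1
    funext z
    simp only [hf3]
    ring
  -- f1
  have b1 : ‖threeI f1 a b c d‖ ≤ 2 := by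
    rw [threeI_eq, rectI_zero hab hcd (fun z hz => (df1 z (Qn_im_pos (hRQ z hz))).differentiableWithinAt),
      zero_sub, norm_neg, norm_mul, Complex.norm_I, one_mul]
    have h1 : ∀ y ∈ Set.uIoc c d, ‖f1 (b + y * I)‖ ≤ 1 := by
      intro y hy
      rw [uIoc_of_le hcd] at hy
      have hQ : ((b : ℂ) + y * I) ∈ Qn n := ⟨by simpa using hy.1.le, by simpa using hy.2⟩
      have h2 := Complex.norm_exp_sub_one_le (x := Sn n ((b : ℂ) + y * I)) (by linarith [Sn_bound hn hQ])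
      have h3 := Sn_bound hn hQ
      show ‖(cexp (Sn n ((b : ℂ) + y * I)) - 1) / ((b : ℂ) + y * I) ^ 2‖ ≤ 1
      rw [norm_div, norm_pow, normSq_eq']
      have h4 : ((b : ℂ) + y * I).re = b := by simp
      rw [h4]
      have h5 : 1 ≤ b ^ 2 + ((b : ℂ) + y * I).im ^ 2 := by nlinarith [sq_nonneg ((b : ℂ) + y * I).im]
      rw [div_le_one (by linarith)]
      linarith
    have h5 := intervalIntegral.norm_integral_le_of_norm_le_const h1
    rw [abs_of_nonneg (by linarith)] at h5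
    linarith
  -- f2
  have b2 : ‖threeI f2 a b c d - 2 * Real.pi * I * (((2 : ℝ) ^ n : ℝ) : ℂ) * cexp (Sn n (zn n))‖ ≤ 4 := by
    have h1 : rectI (fun z => AA n z / (z - zn n)) a b c d = 2 * Real.pi * I * AA n (zn n) := by
      apply rectI_cauchy
      · rw [zn_re]; linarith
      · rw [zn_re]; linarith
      · rw [zn_im]; linarith
      · rw [zn_im]; linarith
      · exact fun z hz => (AA_diff (Qn_im_pos (hRQ z hz))).differentiableWithinAt
    have h2 : threeI f2 a b c d = (-δ) * (2 * Real.pi * I * AA n (zn n) -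
        I * ∫ y : ℝ in c..d, AA n (b + y * I) / ((b + y * I) - zn n)) := by
      rw [hf2, threeI_const_mul, threeI_eq, h1]
    have h3 : (-δ) * AA n (zn n) = (((2 : ℝ) ^ n : ℝ) : ℂ) * cexp (Sn n (zn n)) := by
      unfold AA
      have h4 : (zn n) ^ 2 = -((yk n : ℂ) ^ 2) := by
        unfold zn
        rw [mul_pow, Complex.I_sq]
        ring
      rw [h4]
      have h5 : ((yk n : ℂ)) ^ 2 * (((8 : ℝ) ^ n : ℝ) : ℂ) * (((2 : ℝ) ^ n : ℝ) : ℂ) = 1 := by
        have h6 : (yk n) ^ 2 * 8 ^ n * 2 ^ n = 1 := by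
          have h7 : (yk n) ^ 2 * 8 ^ n * 2 ^ n = (8 ^ n * yk n) * (yk n * 2 ^ n) := by ring
          rw [h7, hym]
          have h9 : (2 : ℝ) ^ n * (yk n * 2 ^ n) = ((2:ℝ) ^ n * 2 ^ n * (1/4) ^ n) := by unfold yk; ring
          rw [h9, ← mul_pow, ← mul_pow]
          norm_num
        exact_mod_cast congrArg (fun t : ℝ => (t : ℂ)) h6
      have hy0 : (yk n : ℂ) ≠ 0 := by exact_mod_cast hy.ne'
      rw [hδ]
      field_simp
      linear_combination -h5
    have h4 : threeI f2 a b c d - 2 * Real.pi * I * (((2 : ℝ) ^ n : ℝ) : ℂ) * cexp (Sn n (zn n)) =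
        δ * (I * ∫ y : ℝ in c..d, AA n (b + y * I) / ((b + y * I) - zn n)) := by
      rw [h2]
      linear_combination (2 * Real.pi * I) * h3
    rw [h4, norm_mul, norm_mul, Complex.norm_I, one_mul]
    have hδ1 : ‖δ‖ ≤ 1 := by
      rw [hδ, norm_inv, Complex.norm_real, Real.norm_eq_abs, abs_of_pos h8]
      apply inv_le_one_of_one_le₀
      exact one_le_pow₀ (by norm_num)
    have h5 : ∀ y ∈ Set.uIoc c d, ‖AA n (b + y * I) / ((b + y * I) - zn n)‖ ≤ 2 := by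
      intro y hy
      rw [uIoc_of_le hcd] at hy
      have hQ : ((b : ℂ) + y * I) ∈ Qn n := ⟨by simpa using hy.1.le, by simpa using hy.2⟩
      have h6 := AA_norm hn hQ
      have h7 : ((b : ℂ) + y * I).re = b := by simp
      rw [h7] at h6
      have h9 : 1 ≤ b ^ 2 + ((b : ℂ) + y * I).im ^ 2 := by nlinarith [sq_nonneg ((b : ℂ) + y * I).im]
      have h10 : ‖AA n (b + y * I)‖ ≤ 1.1 := by
        refine le_trans h6 ?_
        rw [div_le_iff₀ (by linarith)]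
        linarith
      have h11 : 1 ≤ ‖((b : ℂ) + y * I) - zn n‖ := by
        refine le_trans ?_ (norm_ge_re _)
        rw [Complex.sub_re, h7, zn_re]
        refine le_trans ?_ (le_abs_self _)
        linarith
      rw [norm_div, div_le_iff₀ (by linarith)]
      linarith
    have h6 := intervalIntegral.norm_integral_le_of_norm_le_const h5
    rw [abs_of_nonneg (by linarith)] at h6
    have h7 : ‖∫ y : ℝ in c..d, AA n (b + y * I) / ((b + y * I) - zn n)‖ ≤ 4 := by linarith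
    calc _ ≤ 1 * 4 := mul_le_mul hδ1 h7 (norm_nonneg _) (by norm_num)
      _ = 4 := by norm_num
  -- f3
  have b3 : ‖threeI f3 a b c d‖ ≤ 2900 := by
    have hK : (0:ℝ) ≤ 250 * yk n := by positivity
    have hpt : ∀ z ∈ Sd a b c d, ‖f3 z‖ ≤ (250 * yk n) / (z.re ^ 2 + z.im ^ 2) := by
      intro z hz
      have hQ := hSQ z hz
      have hzne := im_pos_ne_zero (Qn_im_pos hQ)
      have hsub := hSne z hz
      set ζ : ℂ := zt n z with hζ
      have hζinv : 1 / ζ = δ * (1 / (z - zn n)) := by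
        rw [hζ, zt_eq, hδ]
        field_simp
      have hf3' : f3 z = AA n z * ((cexp (EE ζ) - 1 - EE ζ) + (EE ζ + 1 / ζ)) := by
        rw [hζinv]
        simp only [hf3, hf0, hf1, hf2]
        rw [SS_eq n z, Complex.exp_add]
        unfold AA
        field_simp
        ring
      -- far from the contour
      have hfar : (Real.pi + 2 ^ n / 4 ≤ |ζ.im| ∨ ζ.re ≤ -(2 ^ n / 4)) ∧ 2 ^ n / 2 ≤ ‖ζ‖ := by
        rcases hz with ⟨_, h2⟩ | ⟨h1, _⟩
        · have h3 : (2:ℝ) ^ n / 2 ≤ |ζ.im| := by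
            rw [hζ, zt_im]
            rcases h2 with h2 | h2
            · rw [h2, hc]
              refine le_trans ?_ (neg_le_abs _)
              have h4 : -(8 ^ n * (yk n / 2 - yk n)) = (8 ^ n * yk n) / 2 := by ring
              rw [h4, hym]
            · rw [h2, hd]
              refine le_trans ?_ (le_abs_self _)
              have h4 : (8 ^ n * (2 * yk n - yk n)) = (8 ^ n * yk n) := by ring
              rw [h4, hym]
              linarith
          refine ⟨Or.inl (by linarith [pi_le]), le_trans h3 (norm_ge_im _)⟩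
        · have h3 : ζ.re = -2 ^ n := by
            rw [hζ, zt_re, h1, ha, ← hym]
            ring
          refine ⟨Or.inr (by rw [h3]; linarith), ?_⟩
          refine le_trans ?_ (norm_ge_re _)
          rw [h3, abs_neg, abs_of_pos (by linarith)]
          linarith
      have hp : (0:ℝ) < 2 ^ n := by positivity
      have hE : ‖EE ζ‖ ≤ 12 / 2 ^ n := by
        have e3 : (3 : ℝ) / (2 ^ n / 4) = 12 / 2 ^ n := by field_simp; norm_num
        rw [← e3]
        rcases hfar.1 with h | h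
        · exact EE_le_im (by positivity) h
        · exact EE_le_re (by positivity) h
      have hE2 : ‖EE ζ + 1 / ζ‖ ≤ 80 / (2 ^ n * 2 ^ n) := by
        have h1 : ‖EE ζ + 1 / ζ‖ ≤ 10 / (2 ^ n / 4 * ‖ζ‖) := by
          rcases hfar.1 with h | h
          · exact EE_asym_im (by positivity) h
          · exact EE_asym_re (by positivity) h
        refine le_trans h1 ?_
        have h2 : (10 : ℝ) / (2 ^ n / 4 * ‖ζ‖) ≤ 10 / (2 ^ n / 4 * (2 ^ n / 2)) := by
          apply div_le_div_of_nonneg_left (by norm_num) (by positivity)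
          exact mul_le_mul_of_nonneg_left hfar.2 (by positivity)
        refine le_trans h2 (le_of_eq ?_)
        field_simp
        norm_num
      have hEone : ‖EE ζ‖ ≤ 1 := by
        refine le_trans hE ?_
        rw [div_le_one hp]
        linarith
      have hE3 := Complex.norm_exp_sub_one_sub_id_le hEone
      have hE4 : ‖EE ζ‖ ^ 2 ≤ 144 / (2 ^ n * 2 ^ n) := by
        have := pow_le_pow_left₀ (norm_nonneg _) hE 2
        refine le_trans this (le_of_eq ?_)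
        field_simp
        norm_num
      have hyy : yk n = 1 / (2 ^ n * 2 ^ n) := by
        have h22 : (2 : ℝ) ^ n * 2 ^ n = 4 ^ n := by
          rw [← mul_pow]
          norm_num
        unfold yk
        rw [h22, div_pow, one_pow]
      have hE5 : ‖(cexp (EE ζ) - 1 - EE ζ) + (EE ζ + 1 / ζ)‖ ≤ 224 * yk n := by
        refine le_trans (norm_add_le _ _) ?_
        have : (144 : ℝ) / (2 ^ n * 2 ^ n) + 80 / (2 ^ n * 2 ^ n) = 224 * yk n := by
          rw [hyy]; ring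
        linarith
      rw [hf3', norm_mul]
      have hA := AA_norm hn hQ
      have hden : 0 < z.re ^ 2 + z.im ^ 2 := by
        have := Qn_im_pos hQ
        positivity
      calc ‖AA n z‖ * _ ≤ (1.1 / (z.re ^ 2 + z.im ^ 2)) * (224 * yk n) :=
            mul_le_mul hA hE5 (norm_nonneg _) (by positivity)
        _ = (1.1 * 224 * yk n) / (z.re ^ 2 + z.im ^ 2) := by ring
        _ ≤ _ := by
          apply div_le_div_of_nonneg_right _ hden.le
          nlinarith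
    have h1 := threeI_bound hab hcd hc0 (by linarith) hK hpt
    refine le_trans h1 ?_
    have h2 : 250 * yk n * (Real.pi / c) = 500 * Real.pi := by
      rw [hc]; field_simp; norm_num
    have h3 : 250 * yk n * (Real.pi / d) = 125 * Real.pi := by
      rw [hd]; field_simp; norm_num
    have h4 : 250 * yk n * ((d - c) / a ^ 2) = 375 := by
      rw [hd, hc, ha]; field_simp; norm_num
    rw [h2, h3, h4]
    linarith [pi_le]
  have hfin : HH (b + (c : ℂ) * I) - HH (b + (d : ℂ) * I) -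
      2 * Real.pi * I * (((2 : ℝ) ^ n : ℝ) : ℂ) * cexp (Sn n (zn n)) =
      threeI f1 a b c d + ((threeI f2 a b c d -
        2 * Real.pi * I * (((2 : ℝ) ^ n : ℝ) : ℂ) * cexp (Sn n (zn n))) + threeI f3 a b c d) := by
    rw [← e0, esum]
    ring
  rw [hfin]
  refine le_trans (norm_add_le _ _) ?_
  have := norm_add_le (threeI f2 a b c d -
        2 * Real.pi * I * (((2 : ℝ) ^ n : ℝ) : ℂ) * cexp (Sn n (zn n))) (threeI f3 a b c d)
  linarith

end Pool.Agent.MP_6f1701_an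

end

section

open Complex MeasureTheory Set Filter Topology

namespace Pool.Agent.MP_6f1701_an

lemma curve_bound {g g' : ℝ → ℂ} {B B' : ℝ → ℝ} {a b : ℝ} (hab : a ≤ b)
    (hg : ∀ x ∈ Icc a b, HasDerivAt g (g' x) x) (hB : ∀ x ∈ Icc a b, HasDerivAt B (B' x) x)
    (hle : ∀ x ∈ Icc a b, ‖g' x‖ ≤ B' x) : ‖g b - g a‖ ≤ B b - B a := by
  have h := image_norm_le_of_norm_deriv_right_le_deriv_boundary' (f := fun x => g x - g a)
    (f' := g') (a := a) (b := b) (B := fun x => B x - B a) (B' := B')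
    (fun x hx => ((hg x hx).sub_const (g a)).continuousAt.continuousWithinAt)
    (fun x hx => ((hg x ⟨hx.1, hx.2.le⟩).sub_const (g a)).hasDerivWithinAt)
    (by simp)
    (fun x hx => ((hB x hx).sub_const (B a)).continuousAt.continuousWithinAt)
    (fun x hx => ((hB x ⟨hx.1, hx.2.le⟩).sub_const (B a)).hasDerivWithinAt)
    (fun x hx => hle x ⟨hx.1, hx.2.le⟩)
  exact h ⟨hab, le_rfl⟩

lemma seg_bound {f f' : ℂ → ℂ} {p q : ℂ} {C : ℝ}
    (h : ∀ z ∈ segment ℝ p q, HasDerivAt f (f' z) z) (hb : ∀ z ∈ segment ℝ p q, ‖f' z‖ ≤ C) :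
    ‖f q - f p‖ ≤ C * ‖q - p‖ :=
  (convex_segment p q).norm_image_sub_le_of_norm_hasDerivWithin_le
    (fun z hz => (h z hz).hasDerivWithinAt) hb (left_mem_segment ℝ p q) (right_mem_segment ℝ p q)

noncomputable def wb (b : ℝ) (n : ℕ) : ℂ := HH (b + ((yk n / 2 : ℝ) : ℂ) * I)

lemma wb_pred {b : ℝ} {n : ℕ} (hn : 1 ≤ n) : HH (b + ((2 * yk n : ℝ) : ℂ) * I) = wb b (n - 1) := by
  obtain ⟨m, rfl⟩ : ∃ m, n = m + 1 := ⟨n - 1, by omega⟩
  have : 2 * yk (m + 1) = yk m / 2 := by rw [yk_succ]; ring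
  rw [this]
  rfl

lemma wb_step {b : ℝ} (hb : 1 ≤ b) {n : ℕ} (hn : 20 ≤ n) :
    ‖(wb b (n + 1) - 4 * Real.pi * I * (((2 : ℝ) ^ (n + 1) : ℝ) : ℂ)) -
      (wb b n - 4 * Real.pi * I * (((2 : ℝ) ^ n : ℝ) : ℂ))‖ ≤ 1 / 200 * 2 ^ (n + 1) := by
  have h1 := jump (n := n + 1) (by omega) hb
  rw [wb_pred (by omega)] at h1
  have h2 : n + 1 - 1 = n := by omega
  rw [h2] at h1
  change ‖wb b (n + 1) - wb b n - _‖ ≤ 3000 at h1
  have hQ : zn (n + 1) ∈ Qn (n + 1) := by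
    have := yk_pos (n + 1)
    constructor
    · rw [zn_im]; linarith
    · rw [zn_im]; linarith
  have h3 := Sn_bound (n := n + 1) (by omega) hQ
  have h4 := Complex.norm_exp_sub_one_le (x := Sn (n + 1) (zn (n + 1))) (by linarith)
  set e : ℂ := cexp (Sn (n + 1) (zn (n + 1))) with he
  have h5 : ‖e - 1‖ ≤ 2 / 10000 := by linarith
  set P : ℝ := 2 ^ (n + 1) with hP
  have hPc : (((2 : ℝ) ^ n : ℝ) : ℂ) = (P : ℂ) / 2 := by
    rw [hP]; push_cast; rw [pow_succ]; ring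
  have hPge : 1048576 ≤ P := two_pow_ge (by omega)
  have hdec : (wb b (n + 1) - 4 * Real.pi * I * (P : ℂ)) - (wb b n - 4 * Real.pi * I * ((P : ℂ) / 2)) =
      (wb b (n + 1) - wb b n - 2 * Real.pi * I * (P : ℂ) * e) + 2 * Real.pi * I * (P : ℂ) * (e - 1) := by
    ring
  rw [hPc, hdec]
  refine le_trans (norm_add_le _ _) ?_
  have h6 : ‖2 * Real.pi * I * (P : ℂ) * (e - 1)‖ ≤ 2 * 3.15 * P * (2 / 10000) := by
    rw [norm_mul, norm_mul, norm_mul, norm_mul, Complex.norm_I, Complex.norm_real, Complex.norm_real,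
      Real.norm_eq_abs, Real.norm_eq_abs, abs_of_pos Real.pi_pos, abs_of_pos (by linarith)]
    have h7 : ‖(2 : ℂ)‖ = 2 := by simp
    rw [h7, mul_one]
    have h8 := pi_le
    have h9 := Real.pi_pos
    apply mul_le_mul _ h5 (norm_nonneg _) (by positivity)
    apply mul_le_mul_of_nonneg_right _ (by linarith)
    linarith
  linarith

lemma wb_asym {b : ℝ} (hb : 1 ≤ b) :
    ∀ᶠ n : ℕ in atTop, ‖wb b n - 4 * Real.pi * I * (((2 : ℝ) ^ n : ℝ) : ℂ)‖ ≤ 1 / 10 * 2 ^ n := by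
  set e : ℕ → ℂ := fun n => wb b n - 4 * Real.pi * I * (((2 : ℝ) ^ n : ℝ) : ℂ) with he
  have h1 : ∀ m : ℕ, ‖e (20 + m)‖ ≤ ‖e 20‖ + 1 / 100 * 2 ^ (20 + m) := by
    intro m
    induction m with
    | zero => simp
    | succ m ih =>
      have h2 := wb_step hb (n := 20 + m) (by omega)
      have h3 : ‖e (20 + m + 1)‖ ≤ ‖e (20 + m + 1) - e (20 + m)‖ + ‖e (20 + m)‖ := by
        have := norm_add_le (e (20 + m + 1) - e (20 + m)) (e (20 + m))
        simpa using this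
      have h4 : ‖e (20 + m + 1) - e (20 + m)‖ ≤ 1 / 200 * 2 ^ (20 + m + 1) := h2
      have h5 : (2 : ℝ) ^ (20 + m + 1) = 2 * 2 ^ (20 + m) := by rw [pow_succ]; ring
      have h6 : 20 + (m + 1) = 20 + m + 1 := by omega
      rw [h6, h5]
      rw [h5] at h4
      linarith
  have h2 : Tendsto (fun n : ℕ => (2 : ℝ) ^ n) atTop atTop := tendsto_pow_atTop_atTop_of_one_lt (by norm_num)
  filter_upwards [eventually_ge_atTop 20, h2.eventually_ge_atTop (100 * ‖e 20‖)] with n hn hn2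
  obtain ⟨m, rfl⟩ : ∃ m, n = 20 + m := ⟨n - 20, by omega⟩
  have h3 := h1 m
  have : ‖e (20 + m)‖ ≤ 1 / 10 * 2 ^ (20 + m) := by linarith [norm_nonneg (e 20)]
  exact this

/-- the linear functional used for lower bounds -/
noncomputable def ell (w : ℂ) : ℝ := w.im - w.re / 2

lemma ell_add (a b : ℂ) : ell (a + b) = ell a + ell b := by
  unfold ell; simp; ring

lemma ell_sub (a b : ℂ) : ell (a - b) = ell a - ell b := by
  unfold ell; simp; ring

lemma abs_ell_le (w : ℂ) : |ell w| ≤ 3 / 2 * ‖w‖ := by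
  unfold ell
  have h1 := Complex.abs_re_le_norm w
  have h2 := Complex.abs_im_le_norm w
  rw [abs_le] at *
  constructor <;> linarith [h1.1, h1.2, h2.1, h2.2]

lemma ell_le_norm (w : ℂ) : ell w ≤ 3 / 2 * ‖w‖ := le_trans (le_abs_self _) (abs_ell_le w)

lemma ell_neg_inv {z : ℂ} (hre : 0 ≤ z.re) (him : 0 < z.im) : 1 / (2 * ‖z‖) ≤ ell (-(1 / z)) := by
  have hz : z ≠ 0 := im_pos_ne_zero him
  have hn : 0 < ‖z‖ := norm_pos_iff.mpr hz
  have hns : 0 < Complex.normSq z := Complex.normSq_pos.mpr hz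
  have h1 : ell (-(1 / z)) = (z.im + z.re / 2) / Complex.normSq z := by
    unfold ell
    rw [one_div, Complex.neg_re, Complex.neg_im, Complex.inv_re, Complex.inv_im]
    field_simp
    ring
  rw [h1, Complex.normSq_eq_norm_sq, div_le_div_iff₀ (by positivity) (by positivity)]
  have h2 : ‖z‖ ≤ |z.re| + |z.im| := Complex.norm_le_abs_re_add_abs_im z
  rw [abs_of_nonneg hre, abs_of_pos him] at h2
  nlinarith

/-- derivative bound in zone a -/
lemma zoneA_exp {n : ℕ} (hn : 20 ≤ n) {z : ℂ} (hz : z ∈ Qn n) (h : 100 ≤ |(zt n z).im|) :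
    ‖cexp (SS z) - 1‖ ≤ 65 / 1000 := by
  have h1 := Sn_bound hn hz
  have h2 := EE_le_im (ζ := zt n z) (d := 96) (by norm_num) (by linarith [pi_le])
  have h3 : ‖SS z‖ ≤ 1 / 10000 + 3 / 96 := by
    rw [SS_eq n z]
    exact le_trans (norm_add_le _ _) (add_le_add h1 h2)
  have h4 := Complex.norm_exp_sub_one_le (x := SS z) (by refine le_trans h3 (by norm_num))
  refine le_trans h4 ?_
  norm_num at h3 ⊢
  linarith

lemma zoneA_horiz {n : ℕ} (hn : 20 ≤ n) {x b y : ℝ} (hx : 0 ≤ x) (hxb : x ≤ b)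
    (hy1 : yk n / 2 ≤ y) (hy2 : y ≤ 2 * yk n) (h : 100 ≤ |8 ^ n * (y - yk n)|) :
    ‖HH (b + y * I) - HH (x + y * I)‖ ≤ 13 / 100 / (x + y) := by
  have hy0 : 0 < y := by linarith [yk_pos n]
  have key := curve_bound (g := fun s : ℝ => HH (s + y * I))
    (g' := fun s : ℝ => (cexp (SS (s + y * I)) - 1) / (s + y * I) ^ 2)
    (B := fun s : ℝ => -(13 / 100 / (s + y))) (B' := fun s : ℝ => 13 / 100 / (s + y) ^ 2) hxb
    ?_ ?_ ?_
  · refine le_trans key ?_
    have hby : 0 ≤ b + y := by linarith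
    have : 0 ≤ 13 / 100 / (b + y) := by positivity
    linarith
  · intro s hs
    have him : 0 < ((s : ℂ) + y * I).im := by simpa using hy0
    exact ((HH_deriv him).comp_add_const (s : ℂ) (y * I)).comp_ofReal
  · intro s hs
    have hs0 : 0 < s + y := by linarith [hs.1]
    have h1 : HasDerivAt (fun s : ℝ => s + y) 1 s := (hasDerivAt_id s).add_const y
    have h2 := ((hasDerivAt_const s (13 / 100 : ℝ)).div h1 hs0.ne').neg
    have h3 : -((0 * (s + y) - 13 / 100 * 1) / (s + y) ^ 2) = 13 / 100 / (s + y) ^ 2 := by ring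
    rw [h3] at h2
    exact h2
  · intro s hs
    have hs0 : 0 ≤ s := le_trans hx hs.1
    have hQ : ((s : ℂ) + y * I) ∈ Qn n := ⟨by simpa using hy1, by simpa using hy2⟩
    have h1 := zoneA_exp hn hQ (by rw [zt_im]; simpa using h)
    rw [norm_div, norm_pow, normSq_eq']
    have h2 : ((s : ℂ) + y * I).re = s := by simp
    have h3 : ((s : ℂ) + y * I).im = y := by simp
    rw [h2, h3]
    have h4 : (s + y) ^ 2 ≤ 2 * (s ^ 2 + y ^ 2) := by nlinarith [sq_nonneg (s - y)]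
    rw [div_le_div_iff₀ (by positivity) (by positivity)]
    have h5 : 0 ≤ ‖cexp (SS ((s : ℂ) + y * I)) - 1‖ := norm_nonneg _
    nlinarith [sq_nonneg (s + y)]

lemma zoneA_vert {n : ℕ} (hn : 20 ≤ n) {b y y' : ℝ} (hb : 1 ≤ b)
    (hy : ∀ s ∈ Icc y y', yk n / 2 ≤ s ∧ s ≤ 2 * yk n ∧ 100 ≤ |8 ^ n * (s - yk n)|) (hyy : y ≤ y') :
    ‖HH (b + y' * I) - HH (b + y * I)‖ ≤ 13 / 100 := by
  have key := curve_bound (g := fun s : ℝ => HH (b + s * I))
    (g' := fun s : ℝ => (cexp (SS (b + s * I)) - 1) / (b + s * I) ^ 2 * I)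
    (B := fun s : ℝ => 65 / 1000 * s) (B' := fun s : ℝ => 65 / 1000) hyy ?_ ?_ ?_
  · refine le_trans key ?_
    have h1 := (hy y ⟨le_rfl, hyy⟩).1
    have h2 := (hy y' ⟨hyy, le_rfl⟩).2.1
    have h3 := yk_pos n
    have h4 := yk_le_one n
    linarith
  · intro s hs
    have hs0 : 0 < s := by linarith [(hy s hs).1, yk_pos n]
    have him : 0 < ((b : ℂ) + s * I).im := by simpa using hs0
    have h5 : HasDerivAt (fun w : ℂ => (b : ℂ) + w * I) I (s : ℂ) := by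
      have := ((hasDerivAt_id (s : ℂ)).mul_const I).const_add (b : ℂ)
      rw [one_mul] at this
      exact this
    exact ((HH_deriv him).comp (s : ℂ) h5).comp_ofReal
  · intro s hs
    have := (hasDerivAt_id s).const_mul (65 / 1000 : ℝ)
    rw [mul_one] at this
    exact this
  · intro s hs
    obtain ⟨h1, h2, h3⟩ := hy s hs
    have hQ : ((b : ℂ) + s * I) ∈ Qn n := ⟨by simpa using h1, by simpa using h2⟩
    have h1 := zoneA_exp hn hQ (by rw [zt_im]; simpa using h3)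
    rw [norm_mul, Complex.norm_I, mul_one, norm_div, norm_pow, normSq_eq']
    have h2 : ((b : ℂ) + s * I).re = b := by simp
    rw [h2]
    have h5 : 1 ≤ b ^ 2 + ((b : ℂ) + s * I).im ^ 2 := by nlinarith [sq_nonneg ((b : ℂ) + s * I).im]
    refine le_trans (div_le_self (norm_nonneg _) h5) h1

end Pool.Agent.MP_6f1701_an

end

section

open Complex MeasureTheory Set Filter Topology

namespace Pool.Agent.MP_6f1701_an

lemma re_add_im' (z : ℂ) : ((z.re : ℂ) + (z.im : ℂ) * I) = z := Complex.re_add_im z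

lemma norm_le_re_add_im {z : ℂ} (hre : 0 ≤ z.re) (him : 0 ≤ z.im) : ‖z‖ ≤ z.re + z.im := by
  have h2 : ‖z‖ ≤ |z.re| + |z.im| := Complex.norm_le_abs_re_add_abs_im z
  rwa [abs_of_nonneg hre, abs_of_nonneg him] at h2

lemma zoneA_HH {n : ℕ} (hn : 20 ≤ n) {b : ℝ} (hb : 1 ≤ b) {z : ℂ} (hre : 0 ≤ z.re)
    (hreb : z.re ≤ b) (hz : z ∈ Qn n) (h : 100 ≤ |(zt n z).im|) :
    ∃ w, (w = wb b n ∨ w = wb b (n - 1)) ∧ ‖HH z - w‖ ≤ 13 / 100 / ‖z‖ + 13 / 100 := by
  have him := Qn_im_pos hz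
  have h8 : (0:ℝ) < 8 ^ n := by positivity
  have hzn : 0 < ‖z‖ := norm_pos_iff.mpr (im_pos_ne_zero him)
  rw [zt_im] at h
  have h1 := zoneA_horiz hn hre hreb hz.1 hz.2 h
  rw [re_add_im'] at h1
  have h2 : 13 / 100 / (z.re + z.im) ≤ 13 / 100 / ‖z‖ :=
    div_le_div_of_nonneg_left (by norm_num) hzn (norm_le_re_add_im hre him.le)
  have hy := yk_pos n
  rcases le_total (yk n) z.im with hc | hc
  · -- above
    refine ⟨wb b (n - 1), Or.inr rfl, ?_⟩
    rw [abs_of_nonneg (mul_nonneg h8.le (by linarith))] at h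
    have h3 := zoneA_vert hn hb (y := z.im) (y' := 2 * yk n) (by
      intro s hs
      refine ⟨by linarith [hz.1, hs.1], hs.2, ?_⟩
      refine le_trans ?_ (le_abs_self _)
      refine le_trans h (mul_le_mul_of_nonneg_left (by linarith [hs.1]) h8.le)) hz.2
    rw [wb_pred (by omega)] at h3
    have h4 : HH z - wb b (n - 1) = -(HH (b + z.im * I) - HH z) - (wb b (n - 1) - HH (b + z.im * I)) := by
      ring
    rw [h4]
    refine le_trans (norm_sub_le _ _) ?_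
    rw [norm_neg]
    linarith
  · refine ⟨wb b n, Or.inl rfl, ?_⟩
    rw [abs_of_nonpos (mul_nonpos_of_nonneg_of_nonpos h8.le (by linarith))] at h
    have h3 := zoneA_vert hn hb (y := yk n / 2) (y' := z.im) (by
      intro s hs
      refine ⟨hs.1, by linarith [hs.2], ?_⟩
      refine le_trans ?_ (neg_le_abs _)
      have : (8:ℝ) ^ n * (s - yk n) ≤ 8 ^ n * (z.im - yk n) :=
        mul_le_mul_of_nonneg_left (by linarith [hs.2]) h8.le
      linarith) hz.1
    change ‖HH (b + z.im * I) - wb b n‖ ≤ _ at h3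
    have h4 : HH z - wb b n = -(HH (b + z.im * I) - HH z) + (HH (b + z.im * I) - wb b n) := by
      ring
    rw [h4]
    refine le_trans (norm_add_le _ _) ?_
    rw [norm_neg]
    linarith

/-- Extension to the neighbourhood of the singular strip. -/
lemma zoneB_HH {n : ℕ} (hn : 20 ≤ n) (hbig : (Real.exp 84 + 1) * 800 ≤ 1 / 1000 * 2 ^ n)
    {b : ℝ} (hb : 1 ≤ b) {z : ℂ} (hre : 0 ≤ z.re)
    (hreb : z.re ≤ b) (h1 : 1.1 ≤ (zt n z).re) (h2 : Real.pi / 2 ≤ |(zt n z).im|)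
    (h3 : |(zt n z).im| ≤ 100) :
    ∃ w, (w = wb b n ∨ w = wb b (n - 1)) ∧ ‖HH z - w‖ ≤ 14 / 100 / ‖z‖ + 13 / 100 := by
  have h8 : (0:ℝ) < 8 ^ n := by positivity
  have hy := yk_pos n
  have hym := yk_mul n
  have h2n := two_pow_ge hn
  -- the shift
  obtain ⟨σ, hσ, hσim⟩ : ∃ σ : ℝ, |σ| = 1 ∧ (zt n z).im = σ * |(zt n z).im| := by
    rcases le_total 0 (zt n z).im with h | h
    · exact ⟨1, by simp, by rw [abs_of_nonneg h, one_mul]⟩
    · exact ⟨-1, by simp, by rw [abs_of_nonpos h]; ring⟩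
  set m : ℝ := |(zt n z).im| with hm
  have hσ2 : σ * σ = 1 := by
    have := abs_mul_abs_self σ
    rw [hσ] at this
    linarith
  set t : ℝ := (100 - m) / 8 ^ n with ht
  have ht0 : 0 ≤ t := by rw [ht]; apply div_nonneg <;> linarith
  have ht1 : 8 ^ n * t = 100 - m := by rw [ht]; field_simp
  have htle : 8 ^ n * t ≤ 100 := by rw [ht1]; linarith [abs_nonneg (zt n z).im]
  set z' : ℂ := z + ((σ * t : ℝ) : ℂ) * I with hz'
  have hzim : 8 ^ n * (z.im - yk n) = σ * m := by rw [← zt_im]; exact hσim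
  -- points of the segment
  have hseg : ∀ v ∈ segment ℝ z z', v.re = z.re ∧ ∃ r ∈ Icc (0:ℝ) 1, v.im = z.im + r * (σ * t) := by
    intro v hv
    rw [segment_eq_image'] at hv
    obtain ⟨r, hr, rfl⟩ := hv
    refine ⟨?_, r, hr, ?_⟩
    · simp [hz']
    · simp [hz']
  have hseg2 : ∀ v ∈ segment ℝ z z', v.re = z.re ∧ (zt n v).re = (zt n z).re ∧
      Real.pi / 2 ≤ |(zt n v).im| ∧ |(zt n v).im| ≤ 100 := by
    intro v hv
    obtain ⟨e1, r, hr, e2⟩ := hseg v hv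
    refine ⟨e1, by rw [zt_re, zt_re, e1], ?_⟩
    have e3 : (zt n v).im = σ * (m + r * (100 - m)) := by
      rw [zt_im, e2, ← ht1]
      linear_combination hzim
    rw [e3, abs_mul, hσ, one_mul]
    have h5 : 0 ≤ m := abs_nonneg _
    have h6 : 0 ≤ r * (100 - m) := mul_nonneg hr.1 (by linarith)
    have h7 : r * (100 - m) ≤ 1 * (100 - m) := mul_le_mul_of_nonneg_right hr.2 (by linarith)
    rw [abs_of_nonneg (by linarith)]
    constructor <;> linarith
  -- closeness to the centre line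
  have hclose : ∀ v : ℂ, |(zt n v).im| ≤ 100 → |v.im - yk n| ≤ yk n / 1000 := by
    intro v hv
    rw [zt_im, abs_mul, abs_of_pos h8] at hv
    have h5 : 8 ^ n * |v.im - yk n| ≤ 8 ^ n * (yk n / 1000) := by
      have : 8 ^ n * (yk n / 1000) = 2 ^ n / 1000 := by rw [← hym]; ring
      rw [this]
      linarith
    exact le_of_mul_le_mul_left h5 h8
  have hQv : ∀ v : ℂ, |(zt n v).im| ≤ 100 → v ∈ Qn n := by
    intro v hv
    have := abs_le.mp (hclose v hv)
    constructor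
    · linarith [this.1]
    · linarith [this.2]
  have hz'seg : z' ∈ segment ℝ z z' := right_mem_segment ℝ z z'
  have hzseg : z ∈ segment ℝ z z' := left_mem_segment ℝ z z'
  have hzQ : z ∈ Qn n := hQv z h3
  have hzimpos := Qn_im_pos hzQ
  have hznpos : 0 < ‖z‖ := norm_pos_iff.mpr (im_pos_ne_zero hzimpos)
  have hnorm : ∀ v ∈ segment ℝ z z', 99 / 100 * ‖z‖ ≤ ‖v‖ := by
    intro v hv
    obtain ⟨e1, _, _, e4⟩ := hseg2 v hv
    have h5 := abs_le.mp (hclose v e4)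
    have h6 := abs_le.mp (hclose z h3)
    have h7 : z - v = ((z.im - v.im : ℝ) : ℂ) * I := by
      apply Complex.ext
      · simp [e1]
      · simp
    have h8 : ‖z - v‖ ≤ yk n / 500 := by
      rw [h7, norm_mul, Complex.norm_I, mul_one, Complex.norm_real, Real.norm_eq_abs, abs_le]
      constructor <;> linarith [h5.1, h5.2, h6.1, h6.2]
    have h9 : ‖z‖ ≤ ‖z - v‖ + ‖v‖ := by
      have := norm_add_le (z - v) v
      simpa using this
    have h10 : yk n / 500 ≤ 1 / 100 * ‖z‖ := by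
      have h11 := norm_ge_im z
      rw [abs_of_pos hzimpos] at h11
      linarith [h6.1]
    linarith
  -- derivative bound
  have hder : ∀ v ∈ segment ℝ z z', ‖(cexp (SS v) - 1) / v ^ 2‖ ≤ (Real.exp 84 + 1) * 2 / ‖z‖ ^ 2 := by
    intro v hv
    obtain ⟨e1, e2, e3, e4⟩ := hseg2 v hv
    have hQ := hQv v e4
    have h5 := EE_mid (ζ := zt n v) (by rw [e2]; exact h1) e3
    have h6 : ‖SS v‖ ≤ 84 := by
      rw [SS_eq n v]
      refine le_trans (norm_add_le _ _) ?_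
      linarith [Sn_bound hn hQ]
    have h7 : ‖cexp (SS v) - 1‖ ≤ Real.exp 84 + 1 := by
      refine le_trans (norm_sub_le _ _) ?_
      rw [norm_one]
      have := Complex.norm_exp_le_exp_norm (SS v)
      have h8 := Real.exp_le_exp.mpr h6
      linarith
    rw [norm_div, norm_pow]
    have h8 := hnorm v hv
    have h9 : ‖z‖ ^ 2 / 2 ≤ ‖v‖ ^ 2 := by nlinarith
    have h10 : (Real.exp 84 + 1) * 2 / ‖z‖ ^ 2 = (Real.exp 84 + 1) / (‖z‖ ^ 2 / 2) := by
      field_simp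
    rw [h10]
    apply div_le_div₀ (by positivity) h7 (by positivity) h9
  have hmv := seg_bound (f := HH) (p := z) (q := z') (fun v hv => HH_deriv (Qn_im_pos (hQv v (hseg2 v hv).2.2.2))) hder
  have hzz' : ‖z' - z‖ ≤ 100 / 8 ^ n := by
    rw [hz', add_sub_cancel_left, norm_mul, Complex.norm_I, mul_one, Complex.norm_real, Real.norm_eq_abs,
      abs_mul, hσ, one_mul, abs_of_nonneg ht0, le_div_iff₀ h8, mul_comm]
    exact htle
  have hmv2 : ‖HH z' - HH z‖ ≤ 1 / 1000 / ‖z‖ := by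
    refine le_trans hmv ?_
    refine le_trans (mul_le_mul_of_nonneg_left hzz' (by positivity)) ?_
    have h5 := norm_ge_im z
    rw [abs_of_pos hzimpos] at h5
    have h6 := hzQ.1
    have h7 : yk n / 2 ≤ ‖z‖ := by linarith
    rw [div_mul_div_comm, div_div, div_le_div_iff₀ (by positivity) (by positivity)]
    have h9 : (Real.exp 84 + 1) * 2 * 100 * 4 ≤ 1 / 1000 * 2 ^ n := by linarith
    have h10 : (8:ℝ) ^ n * (yk n / 2) ≤ 8 ^ n * ‖z‖ := mul_le_mul_of_nonneg_left h7 h8.le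
    have h11 : (2:ℝ) ^ n / 2 ≤ 8 ^ n * ‖z‖ := by rw [← hym]; linarith
    have h12 : (Real.exp 84 + 1) * 2 * 100 * 1000 ≤ 8 ^ n * ‖z‖ := by linarith [Real.exp_pos 84]
    calc (Real.exp 84 + 1) * 2 * 100 * (1000 * ‖z‖)
        = ((Real.exp 84 + 1) * 2 * 100 * 1000) * ‖z‖ := by ring
      _ ≤ (8 ^ n * ‖z‖) * ‖z‖ := mul_le_mul_of_nonneg_right h12 hznpos.le
      _ = 1 * (‖z‖ ^ 2 * 8 ^ n) := by ring
  -- apply zone A at z'
  have hz're : z'.re = z.re := (hseg2 z' hz'seg).1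
  have hz'100 : 100 ≤ |(zt n z').im| := by
    have e3 : (zt n z').im = σ * 100 := by
      rw [zt_im, hz']
      simp only [add_im, mul_im, ofReal_re, I_im, ofReal_im, I_re]
      have : (8:ℝ) ^ n * (z.im + (σ * t * 1 + 0 * 0) - yk n) = 8 ^ n * (z.im - yk n) + σ * (8 ^ n * t) := by ring
      rw [this, hzim, ht1]
      ring
    rw [e3, abs_mul, hσ]
    norm_num
  obtain ⟨w, hw, hwb⟩ := zoneA_HH hn hb (z := z') (by rw [hz're]; exact hre) (by rw [hz're]; exact hreb)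
    (hQv z' (hseg2 z' hz'seg).2.2.2) hz'100
  refine ⟨w, hw, ?_⟩
  have h5 : ‖HH z - w‖ ≤ ‖HH z' - HH z‖ + ‖HH z' - w‖ := by
    have h6 : HH z - w = -(HH z' - HH z) + (HH z' - w) := by ring
    rw [h6]
    refine le_trans (norm_add_le _ _) ?_
    rw [norm_neg]
  have h6 : 13 / 100 / ‖z'‖ ≤ 139 / 1000 / ‖z‖ := by
    have h7 := hnorm z' hz'seg
    rw [div_le_div_iff₀ (by linarith [hznpos]) hznpos]
    linarith
  have h7 : 139 / 1000 / ‖z‖ + 1 / 1000 / ‖z‖ = 14 / 100 / ‖z‖ := by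
    rw [← add_div]
    norm_num
  linarith

/-- Main estimate in the neutral zones. -/
lemma neutral {b : ℝ} (hb : 1 ≤ b) :
    ∀ᶠ n : ℕ in atTop, ∀ z : ℂ, 0 ≤ z.re → z.re ≤ b → z ∈ Qn n → Real.pi / 2 ≤ |(zt n z).im| →
      (1.1 ≤ (zt n z).re ∨ 100 ≤ |(zt n z).im|) →
      5 * 2 ^ n + 1 / 4 / ‖z‖ ≤ ell (FF z) ∧ ‖FF z‖ ≤ 20 * 4 ^ n := by
  have h2 : Tendsto (fun n : ℕ => (2 : ℝ) ^ n) atTop atTop := tendsto_pow_atTop_atTop_of_one_lt (by norm_num)
  have hw := wb_asym hb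
  have hw' : ∀ᶠ n : ℕ in atTop, ‖wb b (n - 1) - 4 * Real.pi * I * (((2 : ℝ) ^ (n - 1) : ℝ) : ℂ)‖ ≤ 1 / 10 * 2 ^ (n - 1) :=
    (tendsto_sub_atTop_nat 1).eventually hw
  filter_upwards [eventually_ge_atTop 20, h2.eventually_ge_atTop ((Real.exp 84 + 1) * 800 * 1000), hw, hw']
    with n hn hbig hw hw' z hre hreb hQ h3 h4
  have him := Qn_im_pos hQ
  have hzn : 0 < ‖z‖ := norm_pos_iff.mpr (im_pos_ne_zero him)
  have h2n := two_pow_ge hn
  obtain ⟨w, hwc, hwz⟩ : ∃ w, (w = wb b n ∨ w = wb b (n - 1)) ∧ ‖HH z - w‖ ≤ 14 / 100 / ‖z‖ + 13 / 100 := by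
    by_cases h5 : 100 ≤ |(zt n z).im|
    · obtain ⟨w, hw1, hw2⟩ := zoneA_HH hn hb hre hreb hQ h5
      refine ⟨w, hw1, le_trans hw2 ?_⟩
      have : 13 / 100 / ‖z‖ ≤ 14 / 100 / ‖z‖ := div_le_div_of_nonneg_right (by norm_num) hzn.le
      linarith
    · push Not at h5
      have h6 : 1.1 ≤ (zt n z).re := by
        rcases h4 with h | h
        · exact h
        · linarith
      exact zoneB_HH hn (by linarith) hb hre hreb h6 h3 h5.le
  -- bounds for w
  have hpow : (2 : ℝ) ^ n = 2 * 2 ^ (n - 1) := by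
    obtain ⟨m, rfl⟩ : ∃ m, n = m + 1 := ⟨n - 1, by omega⟩
    rw [Nat.add_sub_cancel, pow_succ]
    ring
  have hellv : ∀ P : ℝ, ell (4 * Real.pi * I * (P : ℂ)) = 4 * Real.pi * P := by
    intro P
    unfold ell
    simp
  have hnv : ∀ P : ℝ, 0 ≤ P → ‖4 * Real.pi * I * (P : ℂ)‖ = 4 * Real.pi * P := by
    intro P hP
    rw [norm_mul, norm_mul, norm_mul, Complex.norm_I, Complex.norm_real, Complex.norm_real,
      Real.norm_eq_abs, Real.norm_eq_abs, abs_of_pos Real.pi_pos, abs_of_nonneg hP]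
    simp
  have gen : ∀ (v : ℂ) (P : ℝ), 0 ≤ P → ‖v - 4 * Real.pi * I * (P : ℂ)‖ ≤ 1 / 10 * P →
      12 * P ≤ ell v ∧ ‖v‖ ≤ 13 * P := by
    intro v P hP hv
    constructor
    · have e1 : ell v = ell (v - 4 * Real.pi * I * (P : ℂ)) + 4 * Real.pi * P := by
        rw [ell_sub, hellv]; ring
      have e2 := (abs_le.mp (abs_ell_le (v - 4 * Real.pi * I * (P : ℂ)))).1
      have e3 := mul_le_mul_of_nonneg_right pi_ge hP
      rw [e1]
      linarith
    · have e1 : ‖v‖ ≤ ‖v - 4 * Real.pi * I * (P : ℂ)‖ + ‖4 * Real.pi * I * (P : ℂ)‖ := by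
        have := norm_add_le (v - 4 * Real.pi * I * (P : ℂ)) (4 * Real.pi * I * (P : ℂ))
        simpa using this
      rw [hnv P hP] at e1
      have e3 := mul_le_mul_of_nonneg_right pi_le hP
      linarith
  have hwb : 6 * 2 ^ n ≤ ell w ∧ ‖w‖ ≤ 13 * 2 ^ n := by
    rcases hwc with rfl | rfl
    · obtain ⟨e1, e2⟩ := gen _ _ (by positivity) hw
      constructor <;> linarith
    · obtain ⟨e1, e2⟩ := gen _ _ (by positivity) hw'
      constructor <;> linarith
  have hFF : FF z = HH z + -(1 / z) := by unfold HH; ring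
  have hinv := ell_neg_inv hre him
  have e1 : ell (FF z) = ell (HH z - w) + ell w + ell (-(1 / z)) := by
    rw [hFF, ell_add, ell_sub]; ring
  have e2 := (abs_le.mp (abs_ell_le (HH z - w))).1
  have e5 : 1 / (2 * ‖z‖) = 1 / 2 / ‖z‖ := by field_simp
  rw [e5] at hinv
  have e6 : 3 / 2 * (14 / 100 / ‖z‖) = 21 / 100 / ‖z‖ := by field_simp; norm_num
  have e7 : 1 / 2 / ‖z‖ - 21 / 100 / ‖z‖ = 29 / 100 / ‖z‖ := by rw [← sub_div]; norm_num
  have e8 : 1 / 4 / ‖z‖ ≤ 29 / 100 / ‖z‖ := div_le_div_of_nonneg_right (by norm_num) hzn.le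
  constructor
  · rw [e1]
    linarith [hwb.1]
  · have f1 : ‖FF z‖ ≤ ‖HH z - w‖ + ‖w‖ + 1 / ‖z‖ := by
      have f2 : FF z = (HH z - w) + w + -(1 / z) := by rw [hFF]; ring
      rw [f2]
      refine le_trans (norm_add_le _ _) ?_
      have := norm_add_le (HH z - w) w
      rw [norm_neg, norm_div, norm_one]
      linarith
    have f2 : 1 / ‖z‖ ≤ 2 * 4 ^ n := by
      have h5 := norm_ge_im z
      rw [abs_of_pos him] at h5
      have h6 := hQ.1
      have h7 : yk n / 2 ≤ ‖z‖ := by linarith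
      rw [div_le_iff₀ hzn]
      have h8 : (4:ℝ) ^ n * yk n = 1 := by
        unfold yk
        rw [← mul_pow]
        norm_num
      have h9 : (2 * 4 ^ n) * (yk n / 2) ≤ (2 * (4:ℝ) ^ n) * ‖z‖ := mul_le_mul_of_nonneg_left h7 (by positivity)
      have h10 : (2 * (4:ℝ) ^ n) * (yk n / 2) = 1 := by rw [← h8]; ring
      linarith
    have f3 : 14 / 100 / ‖z‖ = 14 / 100 * (1 / ‖z‖) := by ring
    have f4 : (2:ℝ) ^ n ≤ 4 ^ n := pow_le_pow_left₀ (by norm_num) (by norm_num) n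
    rw [f3] at hwz
    linarith [hwb.2]

end Pool.Agent.MP_6f1701_an

end

section

open Complex MeasureTheory Set Filter Topology

namespace Pool.Agent.MP_6f1701_an

/-- Gluing function: `D = Ψ - exp (g + s)` has small derivative. -/
lemma hasDerivAt_D {Ψ g : ℂ → ℂ} {g' s : ℂ} (h1 : HasDerivAt Ψ (cexp (g s + s)) s)
    (h2 : HasDerivAt g g' s) :
    HasDerivAt (fun s => Ψ s - cexp (g s + s)) (-(g' * cexp (g s + s))) s := by
  have h3 : HasDerivAt (fun s => g s + s) (g' + 1) s := h2.add (hasDerivAt_id s)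
  have h4 := h1.sub h3.cexp
  have h5 : cexp (g s + s) - cexp (g s + s) * (g' + 1) = -(g' * cexp (g s + s)) := by ring
  rw [h5] at h4
  exact h4

set_option maxHeartbeats 4000000 in
lemma halfcell {Ψ g g' : ℂ → ℂ} {κ0 σ : ℝ} (hσ : σ = 1 ∨ σ = -1)
    (hκ0 : Real.exp 20 ≤ κ0)
    (hΨ : ∀ s : ℂ, 0 ≤ s.re → 4 / 5 * κ0 ≤ ‖s‖ → ‖s‖ ≤ 3 * κ0 → HasDerivAt Ψ (cexp (g s + s)) s)
    (hg : ∀ s : ℂ, 0 ≤ s.re → 4 / 5 * κ0 ≤ ‖s‖ → ‖s‖ ≤ 3 * κ0 →
      HasDerivAt g (g' s) s ∧ ‖g' s‖ ≤ 2 / ‖s‖)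
    {W : ℂ} (hW : ∀ κ ∈ Icc κ0 (κ0 + 2 * Real.pi), ‖Ψ ((σ * κ : ℝ) * I) - W‖ ≤ ‖W‖ / 10)
    (hW1 : 1 ≤ ‖W‖) (hW2 : ‖W‖ ≤ Real.exp (κ0 / 1000))
    (hg1 : -(κ0 / 1000) ≤ (g ((σ * κ0 : ℝ) * I)).re) (hg2 : (g ((σ * κ0 : ℝ) * I)).re ≤ -20) :
    ∃ κ ∈ Icc κ0 (κ0 + 2 * Real.pi),
      JoinedIn {s : ℂ | 0 ≤ s.re ∧ 4 / 5 * κ0 ≤ ‖s‖ ∧ ‖s‖ ≤ 3 * κ0 ∧ ‖W‖ / 2 ≤ ‖Ψ s‖}
        ((σ * κ : ℝ) * I) ((2 * κ0 : ℝ) : ℂ) := by
  have he20 : (480000000 : ℝ) ≤ κ0 := by
    refine le_trans ?_ hκ0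
    have h1 := Real.exp_one_gt_d9
    have h2 : Real.exp 20 = (Real.exp 1) ^ 20 := by
      rw [← Real.exp_nat_mul]; norm_num
    rw [h2]
    have h3 : (2.718 : ℝ) ^ 20 ≤ Real.exp 1 ^ 20 := pow_le_pow_left₀ (by norm_num) (by linarith) 20
    refine le_trans ?_ h3
    norm_num
  have hκpos : 0 < κ0 := by linarith
  have hσ2 : σ * σ = 1 := by rcases hσ with rfl | rfl <;> norm_num
  have hσa : |σ| = 1 := by rcases hσ with rfl | rfl <;> norm_num
  have hpi := Real.pi_pos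
  have hpi2 := pi_le
  set s0 : ℂ := (σ * κ0 : ℝ) * I with hs0
  set a : ℝ := (g s0).re with ha
  -- choice of κ
  set θ : ℝ := σ * (Complex.arg W - (g s0).im) with hθ
  set κ : ℝ := toIcoMod Real.two_pi_pos κ0 θ with hκ
  have hκmem := toIcoMod_mem_Ico Real.two_pi_pos κ0 θ
  rw [← hκ] at hκmem
  have hκm : κ ∈ Icc κ0 (κ0 + 2 * Real.pi) := ⟨hκmem.1, hκmem.2.le⟩
  obtain ⟨m, hm⟩ : ∃ m : ℤ, κ = θ - m * (2 * Real.pi) := by
    refine ⟨toIcoDiv Real.two_pi_pos κ0 θ, ?_⟩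
    rw [hκ, toIcoMod]
    simp
  have hWne : W ≠ 0 := by
    intro h
    rw [h, norm_zero] at hW1
    linarith
  have hWpos : 0 < ‖W‖ := by linarith
  set u : ℂ := W / (‖W‖ : ℂ) with hu
  have hWc : (‖W‖ : ℂ) ≠ 0 := by exact_mod_cast hWpos.ne'
  -- phase identity
  have hphase : cexp (((g s0).im + σ * κ : ℝ) * I) = u := by
    have h1 : (g s0).im + σ * κ = Complex.arg W + (-(σ * m)) * (2 * Real.pi) := by
      rw [hm, hθ]
      linear_combination (Complex.arg W - (g s0).im) * hσ2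
    have h2 : u = cexp (Complex.arg W * I) := by
      rw [hu, div_eq_iff hWc, mul_comm]
      exact (Complex.norm_mul_exp_arg_mul_I W).symm
    rw [h1, h2]
    rcases hσ with rfl | rfl
    · have h3 : ((Complex.arg W + (-(1 * (m : ℝ))) * (2 * Real.pi) : ℝ) : ℂ) * I =
          Complex.arg W * I + ((-m : ℤ) : ℂ) * (2 * Real.pi * I) := by
        push_cast; ring
      rw [h3, Complex.exp_add, Complex.exp_int_mul_two_pi_mul_I, mul_one]
    · have h3 : ((Complex.arg W + (-(-1 * (m : ℝ))) * (2 * Real.pi) : ℝ) : ℂ) * I =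
          Complex.arg W * I + ((m : ℤ) : ℂ) * (2 * Real.pi * I) := by
        push_cast; ring
      rw [h3, Complex.exp_add, Complex.exp_int_mul_two_pi_mul_I, mul_one]
  have hunorm : ‖u‖ = 1 := by
    rw [hu, norm_div, Complex.norm_real, norm_norm, div_self hWpos.ne']
  -- geometry of the first leg
  set Λ : ℝ := κ0 / 100 with hΛ
  have hΛpos : 0 < Λ := by rw [hΛ]; positivity
  have leg1 : ∀ (x y : ℝ), 0 ≤ x → x ≤ Λ → κ0 ≤ y → y ≤ κ0 + 2 * Real.pi →
      κ0 ≤ ‖((x : ℂ) + ((σ * y : ℝ) : ℂ) * I)‖ ∧ ‖((x : ℂ) + ((σ * y : ℝ) : ℂ) * I)‖ ≤ 1.02 * κ0 := by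
    intro x y hx0 hx1 hy0 hy1
    constructor
    · refine le_trans ?_ (norm_ge_im _)
      simp only [add_im, ofReal_im, mul_im, ofReal_re, I_re, I_im]
      have : (0 + (σ * y * 1 + 0 * 0) : ℝ) = σ * y := by ring
      rw [this, abs_mul, hσa, one_mul, abs_of_nonneg (by linarith)]
      exact hy0
    · refine le_trans (norm_add_le _ _) ?_
      rw [norm_mul, Complex.norm_I, mul_one, Complex.norm_real, Complex.norm_real, Real.norm_eq_abs,
        Real.norm_eq_abs, abs_of_nonneg hx0, abs_mul, hσa, one_mul, abs_of_nonneg (by linarith)]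
      linarith
  -- variation of g on the first leg
  have gvar1 : ∀ x : ℝ, 0 ≤ x → x ≤ Λ →
      ‖g ((x : ℂ) + ((σ * κ : ℝ) : ℂ) * I) - g s0‖ ≤ 1 / 20 := by
    intro x hx0 hx1
    set s : ℂ := (x : ℂ) + ((σ * κ : ℝ) : ℂ) * I with hs
    have hmem : ∀ z ∈ segment ℝ s0 s, 0 ≤ z.re ∧ κ0 ≤ ‖z‖ ∧ ‖z‖ ≤ 1.02 * κ0 := by
      intro z hz
      rw [segment_eq_image'] at hz
      obtain ⟨r, hr, rfl⟩ := hz
      have h1 : s0 + r • (s - s0) = ((r * x : ℝ) : ℂ) + ((σ * (κ0 + r * (κ - κ0)) : ℝ) : ℂ) * I := by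
        apply Complex.ext
        · simp [hs, hs0]
        · simp [hs, hs0]
          ring
      have hrx : 0 ≤ r * x := mul_nonneg hr.1 hx0
      have hrx1 : r * x ≤ Λ := le_trans (mul_le_of_le_one_left hx0 hr.2) hx1
      have hk0 : 0 ≤ r * (κ - κ0) := mul_nonneg hr.1 (by linarith [hκm.1])
      have hk1 : r * (κ - κ0) ≤ 2 * Real.pi := le_trans (mul_le_of_le_one_left (by linarith [hκm.1]) hr.2)
        (by linarith [hκm.2])
      have h2 := leg1 (r * x) (κ0 + r * (κ - κ0)) hrx hrx1 (by linarith) (by linarith)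
      show 0 ≤ (s0 + r • (s - s0)).re ∧ κ0 ≤ ‖s0 + r • (s - s0)‖ ∧ ‖s0 + r • (s - s0)‖ ≤ 1.02 * κ0
      rw [h1]
      refine ⟨?_, h2.1, h2.2⟩
      simpa using hrx
    have h1 := seg_bound (f := g) (f' := g') (p := s0) (q := s) (C := 2 / κ0)
      (fun z hz => (hg z (hmem z hz).1 (by linarith [(hmem z hz).2.1]) (by linarith [(hmem z hz).2.2])).1)
      (fun z hz => by
        obtain ⟨e1, e2, e3⟩ := hmem z hz
        refine le_trans (hg z e1 (by linarith) (by linarith)).2 ?_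
        exact div_le_div_of_nonneg_left (by norm_num) hκpos e2)
    refine le_trans h1 ?_
    have h2 : ‖s - s0‖ ≤ Λ + 2 * Real.pi := by
      have h3 : s - s0 = (x : ℂ) + ((σ * (κ - κ0) : ℝ) : ℂ) * I := by
        rw [hs, hs0]; push_cast; ring
      rw [h3]
      refine le_trans (norm_add_le _ _) ?_
      rw [norm_mul, Complex.norm_I, mul_one, Complex.norm_real, Complex.norm_real, Real.norm_eq_abs,
        Real.norm_eq_abs, abs_of_nonneg hx0, abs_mul, hσa, one_mul, abs_of_nonneg (by linarith [hκm.1])]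
      linarith [hκm.2]
    have h3 : 2 / κ0 * ‖s - s0‖ ≤ 2 / κ0 * (κ0 / 50) := by
      apply mul_le_mul_of_nonneg_left _ (by positivity)
      refine le_trans h2 ?_
      rw [hΛ]
      linarith
    refine le_trans h3 ?_
    have h4 : 2 / κ0 * (κ0 / 50) = 1 / 25 := by field_simp; norm_num
    rw [h4]
    norm_num
  set s1 : ℂ := (Λ : ℂ) + ((σ * κ : ℝ) : ℂ) * I with hs1
  set v : ℂ := ((2 * κ0 : ℝ) : ℂ) - s1 with hv
  have hvre : v.re = 2 * κ0 - Λ := by rw [hv, hs1]; simp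
  have hvim : v.im = -(σ * κ) := by rw [hv, hs1]; simp
  have hvn : ‖v‖ ≤ 2.4 * κ0 := by
    have h1 : ‖v‖ ^ 2 ≤ (2.4 * κ0) ^ 2 := by
      rw [normSq_eq', hvre, hvim]
      have h2 : (-(σ * κ)) ^ 2 = κ ^ 2 := by
        have : (-(σ * κ)) ^ 2 = (σ * σ) * κ ^ 2 := by ring
        rw [this, hσ2, one_mul]
      rw [h2]
      have h3 : κ ≤ 1.01 * κ0 := by linarith [hκm.2]
      have h4 : κ ^ 2 ≤ (1.01 * κ0) ^ 2 := pow_le_pow_left₀ (by linarith [hκm.1]) h3 2
      have h5 : (2 * κ0 - Λ) ^ 2 ≤ (2 * κ0) ^ 2 := pow_le_pow_left₀ (by rw [hΛ]; linarith) (by linarith) 2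
      have h6 : 0 ≤ κ0 ^ 2 := sq_nonneg _
      have h7 : (1.01 * κ0) ^ 2 + (2 * κ0) ^ 2 = 5.0201 * κ0 ^ 2 := by ring
      have h8 : (2.4 * κ0) ^ 2 = 5.76 * κ0 ^ 2 := by ring
      linarith
    exact le_of_pow_le_pow_left₀ (by norm_num) (by positivity) h1
  -- points of the second leg
  have leg2 : ∀ r ∈ Icc (0:ℝ) 1, 0 ≤ (s1 + (r : ℂ) * v).re ∧ Λ ≤ (s1 + (r : ℂ) * v).re ∧
      4 / 5 * κ0 ≤ ‖s1 + (r : ℂ) * v‖ ∧ ‖s1 + (r : ℂ) * v‖ ≤ 3 * κ0 := by
    intro r hr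
    have e1 : (s1 + (r : ℂ) * v).re = Λ + r * (2 * κ0 - Λ) := by
      rw [Complex.add_re, Complex.re_ofReal_mul, hvre, hs1]; simp
    have e2 : (s1 + (r : ℂ) * v).im = σ * ((1 - r) * κ) := by
      rw [Complex.add_im, Complex.im_ofReal_mul, hvim, hs1]; simp; ring
    have e3 : 0 ≤ r * (2 * κ0 - Λ) := mul_nonneg hr.1 (by rw [hΛ]; linarith)
    have e4 : ‖s1 + (r : ℂ) * v‖ ^ 2 = (Λ + r * (2 * κ0 - Λ)) ^ 2 + ((1 - r) * κ) ^ 2 := by
      rw [normSq_eq', e1, e2]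
      have : (σ * ((1 - r) * κ)) ^ 2 = (σ * σ) * ((1 - r) * κ) ^ 2 := by ring
      rw [this, hσ2, one_mul]
    refine ⟨by rw [e1]; linarith, by rw [e1]; linarith, ?_, ?_⟩
    · apply le_of_pow_le_pow_left₀ (n := 2) (by norm_num) (norm_nonneg _)
      rw [e4]
      have f1 : (r * (2 * κ0)) ^ 2 ≤ (Λ + r * (2 * κ0 - Λ)) ^ 2 := by
        apply pow_le_pow_left₀ (mul_nonneg hr.1 (by linarith))
        have : 0 ≤ (1 - r) * Λ := mul_nonneg (by linarith [hr.2]) hΛpos.le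
        have e9 : Λ + r * (2 * κ0 - Λ) = r * (2 * κ0) + (1 - r) * Λ := by ring
        linarith
      have f2 : ((1 - r) * κ0) ^ 2 ≤ ((1 - r) * κ) ^ 2 := by
        apply pow_le_pow_left₀ (mul_nonneg (by linarith [hr.2]) hκpos.le)
        exact mul_le_mul_of_nonneg_left hκm.1 (by linarith [hr.2])
      have f3 : (4 / 5 * κ0) ^ 2 ≤ (r * (2 * κ0)) ^ 2 + ((1 - r) * κ0) ^ 2 := by
        have : (r * (2 * κ0)) ^ 2 + ((1 - r) * κ0) ^ 2 - (4 / 5 * κ0) ^ 2 =
          (5 * (r - 1/5) ^ 2 + 4/25) * κ0 ^ 2 := by ring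
        have h6 : 0 ≤ (5 * (r - 1/5) ^ 2 + 4/25) * κ0 ^ 2 := by positivity
        linarith
      linarith
    · have f1 : s1 + (r : ℂ) * v = ((1 - r : ℝ) : ℂ) * s1 + ((r * (2 * κ0) : ℝ) : ℂ) := by
        rw [hv]; push_cast; ring
      have f2 : ‖s1‖ ≤ 1.02 * κ0 := (leg1 Λ κ hΛpos.le le_rfl hκm.1 hκm.2).2
      rw [f1]
      refine le_trans (norm_add_le _ _) ?_
      rw [norm_mul, Complex.norm_real, Complex.norm_real, Real.norm_eq_abs, Real.norm_eq_abs,
        abs_of_nonneg (by linarith [hr.2]), abs_of_nonneg (mul_nonneg hr.1 (by linarith))]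
      have f3 : (1 - r) * ‖s1‖ ≤ 1 * (1.02 * κ0) := mul_le_mul (by linarith [hr.1]) f2 (norm_nonneg _) (by norm_num)
      have f4 : r * (2 * κ0) ≤ 1 * (2 * κ0) := mul_le_mul_of_nonneg_right hr.2 (by linarith)
      have f5 : (1 - r) * ‖s1‖ + r * (2 * κ0) ≤ 3 * κ0 := by
        have : (1 - r) * ‖s1‖ ≤ (1 - r) * (1.02 * κ0) := mul_le_mul_of_nonneg_left f2 (by linarith [hr.2])
        have h8 : r * κ0 ≤ 1 * κ0 := mul_le_mul_of_nonneg_right hr.2 hκpos.le
        have e9 : (1 - r) * (1.02 * κ0) + r * (2 * κ0) = 1.02 * κ0 + 0.98 * (r * κ0) := by ring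
        linarith
      exact f5
  -- variation of g on the second leg
  have gvar2 : ∀ r ∈ Icc (0:ℝ) 1, ‖g (s1 + (r : ℂ) * v) - g s1‖ ≤ 6 := by
    intro r hr
    have hmem : ∀ z ∈ segment ℝ s1 (s1 + (r : ℂ) * v), 0 ≤ z.re ∧ 4 / 5 * κ0 ≤ ‖z‖ ∧ ‖z‖ ≤ 3 * κ0 := by
      intro z hz
      rw [segment_eq_image'] at hz
      obtain ⟨q, hq, rfl⟩ := hz
      have h1 : s1 + q • (s1 + (r : ℂ) * v - s1) = s1 + ((q * r : ℝ) : ℂ) * v := by
        rw [Complex.real_smul]; push_cast; ring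
      have h2 := leg2 (q * r) ⟨mul_nonneg hq.1 hr.1, by
        have := mul_le_mul hq.2 hr.2 hr.1 (by norm_num)
        linarith⟩
      show 0 ≤ (s1 + q • (s1 + (r : ℂ) * v - s1)).re ∧ 4 / 5 * κ0 ≤ ‖s1 + q • (s1 + (r : ℂ) * v - s1)‖ ∧
        ‖s1 + q • (s1 + (r : ℂ) * v - s1)‖ ≤ 3 * κ0
      rw [h1]
      exact ⟨h2.1, h2.2.2.1, h2.2.2.2⟩
    have h1 := seg_bound (f := g) (f' := g') (p := s1) (q := s1 + (r : ℂ) * v) (C := 5 / 2 / κ0)
      (fun z hz => (hg z (hmem z hz).1 (hmem z hz).2.1 (hmem z hz).2.2).1)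
      (fun z hz => by
        obtain ⟨e1, e2, e3⟩ := hmem z hz
        refine le_trans (hg z e1 e2 e3).2 ?_
        have : (5 : ℝ) / 2 / κ0 = 2 / (4 / 5 * κ0) := by field_simp; norm_num
        rw [this]
        exact div_le_div_of_nonneg_left (by norm_num) (by positivity) e2)
    refine le_trans h1 ?_
    have h2 : ‖s1 + (r : ℂ) * v - s1‖ ≤ 2.4 * κ0 := by
      rw [add_sub_cancel_left, norm_mul, Complex.norm_real, Real.norm_eq_abs, abs_of_nonneg hr.1]
      exact le_trans (mul_le_of_le_one_left (norm_nonneg _) hr.2) hvn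
    refine le_trans (mul_le_mul_of_nonneg_left h2 (by positivity)) (le_of_eq ?_)
    field_simp
    norm_num
  -- Starting value
  have hstart := hW κ hκm
  -- first leg: monotonicity
  have first : ∀ x : ℝ, 0 ≤ x → x ≤ Λ → 9 / 10 * ‖W‖ ≤ ‖Ψ ((x : ℂ) + ((σ * κ : ℝ) : ℂ) * I)‖ := by
    intro x hx0 hx1
    set uc : ℂ := (starRingEnd ℂ) u with huc
    have hder : ∀ y ∈ Icc (0:ℝ) x, HasDerivAt (fun y : ℝ => (uc * Ψ ((y : ℂ) + ((σ * κ : ℝ) : ℂ) * I)).re)
        ((uc * cexp (g ((y : ℂ) + ((σ * κ : ℝ) : ℂ) * I) + ((y : ℂ) + ((σ * κ : ℝ) : ℂ) * I))).re) y := by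
      intro y hy
      have hl := leg1 y κ hy.1 (le_trans hy.2 hx1) hκm.1 hκm.2
      have h1 := hΨ ((y : ℂ) + ((σ * κ : ℝ) : ℂ) * I) (by simpa using hy.1) (by linarith [hl.1]) (by linarith [hl.2])
      have h2 := (h1.comp_add_const (y : ℂ) (((σ * κ : ℝ) : ℂ) * I)).const_mul uc
      exact h2.real_of_complex
    have hnn : ∀ y ∈ Icc (0:ℝ) x, 0 ≤
        (uc * cexp (g ((y : ℂ) + ((σ * κ : ℝ) : ℂ) * I) + ((y : ℂ) + ((σ * κ : ℝ) : ℂ) * I))).re := by
      intro y hy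
      set ε : ℂ := g ((y : ℂ) + ((σ * κ : ℝ) : ℂ) * I) - g s0 with hε
      have hεn : ‖ε‖ ≤ 1 / 20 := gvar1 y hy.1 (le_trans hy.2 hx1)
      have h1 : g ((y : ℂ) + ((σ * κ : ℝ) : ℂ) * I) + ((y : ℂ) + ((σ * κ : ℝ) : ℂ) * I) =
          ((a + y : ℝ) : ℂ) + (((g s0).im + σ * κ : ℝ) : ℂ) * I + ε := by
        have h2 : g s0 = (a : ℂ) + ((g s0).im : ℂ) * I := (Complex.re_add_im (g s0)).symm
        have h3 : g ((y : ℂ) + ((σ * κ : ℝ) : ℂ) * I) = g s0 + ε := by rw [hε]; ring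
        rw [h3]
        nth_rewrite 1 [h2]
        push_cast
        ring
      rw [h1, Complex.exp_add, Complex.exp_add, hphase]
      have h4 : uc * (cexp ((a + y : ℝ) : ℂ) * u * cexp ε) = ((Real.exp (a + y) : ℝ) : ℂ) * cexp ε := by
        have h5 : uc * u = 1 := by
          rw [huc, ← Complex.normSq_eq_conj_mul_self, Complex.normSq_eq_norm_sq, hunorm]
          norm_num
        rw [Complex.ofReal_exp]
        linear_combination (cexp ((a + y : ℝ) : ℂ) * cexp ε) * h5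
      rw [h4, Complex.re_ofReal_mul]
      apply mul_nonneg (Real.exp_pos _).le
      have h6 := Complex.norm_exp_sub_one_le (x := ε) (by linarith)
      have h7 := Complex.abs_re_le_norm (cexp ε - 1)
      rw [Complex.sub_re, Complex.one_re] at h7
      have h8 := (abs_le.mp h7).1
      linarith
    have hmono : (uc * Ψ (((0 : ℝ) : ℂ) + ((σ * κ : ℝ) : ℂ) * I)).re ≤
        (uc * Ψ ((x : ℂ) + ((σ * κ : ℝ) : ℂ) * I)).re := by
      have hM : MonotoneOn (fun y : ℝ => (uc * Ψ ((y : ℂ) + ((σ * κ : ℝ) : ℂ) * I)).re) (Icc 0 x) := by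
        apply monotoneOn_of_deriv_nonneg (convex_Icc 0 x)
        · exact fun y hy => (hder y hy).continuousAt.continuousWithinAt
        · intro y hy
          rw [interior_Icc] at hy
          exact (hder y ⟨hy.1.le, hy.2.le⟩).differentiableAt.differentiableWithinAt
        · intro y hy
          rw [interior_Icc] at hy
          rw [(hder y ⟨hy.1.le, hy.2.le⟩).deriv]
          exact hnn y ⟨hy.1.le, hy.2.le⟩
      exact hM ⟨le_rfl, hx0⟩ ⟨hx0, le_rfl⟩ hx0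
    rw [Complex.ofReal_zero, zero_add] at hmono
    have hucn : ‖uc‖ = 1 := by rw [huc, RCLike.norm_conj, hunorm]
    have h1 : (uc * Ψ (((σ * κ : ℝ) : ℂ) * I)).re ≥ ‖W‖ - ‖W‖ / 10 := by
      have h2 : uc * Ψ (((σ * κ : ℝ) : ℂ) * I) = uc * W + uc * (Ψ (((σ * κ : ℝ) : ℂ) * I) - W) := by ring
      have h3 : uc * W = (‖W‖ : ℂ) := by
        have h4 : W = (‖W‖ : ℂ) * u := by rw [hu]; field_simp
        have h5 : uc * u = 1 := by
          rw [huc, ← Complex.normSq_eq_conj_mul_self, Complex.normSq_eq_norm_sq, hunorm]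
          norm_num
        nth_rewrite 1 [h4]
        linear_combination (‖W‖ : ℂ) * h5
      rw [h2, h3, Complex.add_re, Complex.ofReal_re]
      have h4 := Complex.abs_re_le_norm (uc * (Ψ (((σ * κ : ℝ) : ℂ) * I) - W))
      rw [norm_mul, hucn, one_mul] at h4
      have h5 := (abs_le.mp h4).1
      linarith
    have h2 := Complex.re_le_norm (uc * Ψ ((x : ℂ) + ((σ * κ : ℝ) : ℂ) * I))
    rw [norm_mul, hucn, one_mul] at h2
    linarith
  -- D estimates
  set D : ℂ → ℂ := fun s => Ψ s - cexp (g s + s) with hD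
  have hDder : ∀ s : ℂ, 0 ≤ s.re → 4 / 5 * κ0 ≤ ‖s‖ → ‖s‖ ≤ 3 * κ0 →
      HasDerivAt D (-(g' s * cexp (g s + s))) s := fun s h1 h2 h3 =>
    hasDerivAt_D (hΨ s h1 h2 h3) (hg s h1 h2 h3).1
  have D1 : ‖D s1 - D (((σ * κ : ℝ) : ℂ) * I)‖ ≤ 2 / κ0 * Real.exp (a + 1) * Real.exp Λ := by
    have key := curve_bound (g := fun x : ℝ => D ((x : ℂ) + ((σ * κ : ℝ) : ℂ) * I))
      (g' := fun x : ℝ => -(g' ((x : ℂ) + ((σ * κ : ℝ) : ℂ) * I) *
        cexp (g ((x : ℂ) + ((σ * κ : ℝ) : ℂ) * I) + ((x : ℂ) + ((σ * κ : ℝ) : ℂ) * I))))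
      (B := fun x : ℝ => 2 / κ0 * Real.exp (a + 1) * Real.exp x)
      (B' := fun x : ℝ => 2 / κ0 * Real.exp (a + 1) * Real.exp x) hΛpos.le ?_ ?_ ?_
    · rw [Complex.ofReal_zero, zero_add] at key
      refine le_trans key ?_
      have : 0 ≤ 2 / κ0 * Real.exp (a + 1) * Real.exp 0 := by positivity
      linarith
    · intro x hx
      have hl := leg1 x κ hx.1 hx.2 hκm.1 hκm.2
      have h1 := hDder ((x : ℂ) + ((σ * κ : ℝ) : ℂ) * I) (by simpa using hx.1) (by linarith [hl.1]) (by linarith [hl.2])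
      exact (h1.comp_add_const (x : ℂ) (((σ * κ : ℝ) : ℂ) * I)).comp_ofReal
    · intro x _
      exact (Real.hasDerivAt_exp x).const_mul _
    · intro x hx
      have hl := leg1 x κ hx.1 hx.2 hκm.1 hκm.2
      have h1 := (hg ((x : ℂ) + ((σ * κ : ℝ) : ℂ) * I) (by simpa using hx.1) (by linarith [hl.1]) (by linarith [hl.2])).2
      have h2 := gvar1 x hx.1 hx.2
      have h3 := (abs_le.mp (Complex.abs_re_le_norm (g ((x : ℂ) + ((σ * κ : ℝ) : ℂ) * I) - g s0))).2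
      rw [Complex.sub_re] at h3
      rw [norm_neg, norm_mul, Complex.norm_exp, mul_assoc, ← Real.exp_add]
      apply mul_le_mul
      · refine le_trans h1 (div_le_div_of_nonneg_left (by norm_num) hκpos hl.1)
      · apply Real.exp_le_exp.mpr
        have h4 : (g ((x : ℂ) + ((σ * κ : ℝ) : ℂ) * I) + ((x : ℂ) + ((σ * κ : ℝ) : ℂ) * I)).re =
          (g ((x : ℂ) + ((σ * κ : ℝ) : ℂ) * I)).re + x := by simp
        rw [h4]
        linarith
      · exact (Real.exp_pos _).le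
      · positivity
  have gre2 : ∀ r ∈ Icc (0:ℝ) 1, a - 7 ≤ (g (s1 + (r : ℂ) * v)).re ∧ (g (s1 + (r : ℂ) * v)).re ≤ a + 7 := by
    intro r hr
    have h1 := gvar1 Λ hΛpos.le le_rfl
    have h2 := gvar2 r hr
    have h3 := abs_le.mp (Complex.abs_re_le_norm (g s1 - g s0))
    have h4 := abs_le.mp (Complex.abs_re_le_norm (g (s1 + (r : ℂ) * v) - g s1))
    rw [Complex.sub_re] at h3 h4
    change ‖g s1 - g s0‖ ≤ 1 / 20 at h1
    constructor
    · linarith [h3.1, h4.1]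
    · linarith [h3.2, h4.2]
  have D2 : ∀ r ∈ Icc (0:ℝ) 1, ‖D (s1 + (r : ℂ) * v) - D s1‖ ≤
      5 / κ0 * Real.exp (a + 7) * Real.exp (s1 + (r : ℂ) * v).re := by
    intro r hr
    have hre : ∀ q : ℝ, (s1 + (q : ℂ) * v).re = Λ + q * (2 * κ0 - Λ) := by
      intro q
      rw [Complex.add_re, Complex.re_ofReal_mul, hvre, hs1]; simp
    have hL : 0 < 2 * κ0 - Λ := by rw [hΛ]; linarith
    have key := curve_bound (g := fun q : ℝ => D (s1 + (q : ℂ) * v))
      (g' := fun q : ℝ => -(g' (s1 + (q : ℂ) * v) * cexp (g (s1 + (q : ℂ) * v) + (s1 + (q : ℂ) * v))) * v)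
      (B := fun q : ℝ => 5 / κ0 * Real.exp (a + 7) * Real.exp (Λ + q * (2 * κ0 - Λ)))
      (B' := fun q : ℝ => 5 / κ0 * Real.exp (a + 7) * (Real.exp (Λ + q * (2 * κ0 - Λ)) * (2 * κ0 - Λ))) hr.1 ?_ ?_ ?_
    · simp only [Complex.ofReal_zero, zero_mul, add_zero] at key
      rw [hre]
      refine le_trans key ?_
      have : 0 ≤ 5 / κ0 * Real.exp (a + 7) * Real.exp Λ := by positivity
      linarith
    · intro q hq
      have hq1 : q ∈ Icc (0:ℝ) 1 := ⟨hq.1, le_trans hq.2 hr.2⟩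
      obtain ⟨e1, _, e3, e4⟩ := leg2 q hq1
      have h1 := hDder _ e1 e3 e4
      have h5 : HasDerivAt (fun w : ℂ => s1 + w * v) v (q : ℂ) := by
        have := ((hasDerivAt_id (q : ℂ)).mul_const v).const_add s1
        rw [one_mul] at this
        exact this
      exact (h1.comp (q : ℂ) h5).comp_ofReal
    · intro q _
      have h1 : HasDerivAt (fun q : ℝ => Λ + q * (2 * κ0 - Λ)) (2 * κ0 - Λ) q := by
        have := ((hasDerivAt_id q).mul_const (2 * κ0 - Λ)).const_add Λ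
        rw [one_mul] at this
        exact this
      exact h1.exp.const_mul _
    · intro q hq
      have hq1 : q ∈ Icc (0:ℝ) 1 := ⟨hq.1, le_trans hq.2 hr.2⟩
      obtain ⟨e1, _, e3, e4⟩ := leg2 q hq1
      have h1 := (hg _ e1 e3 e4).2
      have h2 := (gre2 q hq1).2
      rw [norm_mul, norm_neg, norm_mul, Complex.norm_exp, Complex.add_re, hre]
      have h3 : ‖g' (s1 + (q : ℂ) * v)‖ ≤ 5 / 2 / κ0 := by
        refine le_trans h1 ?_
        have : (5 : ℝ) / 2 / κ0 = 2 / (4 / 5 * κ0) := by field_simp; norm_num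
        rw [this]
        exact div_le_div_of_nonneg_left (by norm_num) (by positivity) e3
      have h4 : Real.exp ((g (s1 + (q : ℂ) * v)).re + (Λ + q * (2 * κ0 - Λ))) ≤
          Real.exp (a + 7) * Real.exp (Λ + q * (2 * κ0 - Λ)) := by
        rw [← Real.exp_add]
        apply Real.exp_le_exp.mpr
        linarith
      have h5 : ‖v‖ ≤ 2 * (2 * κ0 - Λ) := by
        refine le_trans hvn ?_
        rw [hΛ]
        linarith
      calc ‖g' (s1 + (q : ℂ) * v)‖ * Real.exp ((g (s1 + (q : ℂ) * v)).re + (Λ + q * (2 * κ0 - Λ))) * ‖v‖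
          ≤ (5 / 2 / κ0) * (Real.exp (a + 7) * Real.exp (Λ + q * (2 * κ0 - Λ))) * (2 * (2 * κ0 - Λ)) := by
            apply mul_le_mul _ h5 (norm_nonneg _) (by positivity)
            exact mul_le_mul h3 h4 (Real.exp_pos _).le (by positivity)
        _ = _ := by ring
  -- second leg: lower bound
  have second : ∀ r ∈ Icc (0:ℝ) 1, ‖W‖ / 2 ≤ ‖Ψ (s1 + (r : ℂ) * v)‖ := by
    intro r hr
    obtain ⟨e1, e2, e3, e4⟩ := leg2 r hr
    set s : ℂ := s1 + (r : ℂ) * v with hs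
    have f1 := D2 r hr
    rw [← hs] at f1
    have f2 := (gre2 r hr).1
    rw [← hs] at f2
    -- value at start
    have f3 : ‖D (((σ * κ : ℝ) : ℂ) * I)‖ ≤ 11 / 10 * ‖W‖ + 1 := by
      have g1 : ‖Ψ (((σ * κ : ℝ) : ℂ) * I)‖ ≤ 11 / 10 * ‖W‖ := by
        have := norm_add_le (Ψ (((σ * κ : ℝ) : ℂ) * I) - W) W
        rw [sub_add_cancel] at this
        linarith
      have g2 : ‖cexp (g (((σ * κ : ℝ) : ℂ) * I) + ((σ * κ : ℝ) : ℂ) * I)‖ ≤ 1 := by
        have g3 := gvar1 0 le_rfl hΛpos.le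
        rw [Complex.ofReal_zero, zero_add] at g3
        have g4 := (abs_le.mp (Complex.abs_re_le_norm (g (((σ * κ : ℝ) : ℂ) * I) - g s0))).2
        rw [Complex.sub_re] at g4
        rw [Complex.norm_exp, ← Real.exp_zero]
        apply Real.exp_le_exp.mpr
        have g5 : (g (((σ * κ : ℝ) : ℂ) * I) + ((σ * κ : ℝ) : ℂ) * I).re = (g (((σ * κ : ℝ) : ℂ) * I)).re := by
          simp
        rw [g5]
        linarith
      refine le_trans (norm_sub_le _ _) ?_
      linarith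
    have f4 : cexp (g s + s) = Ψ s - (D s - D s1) - (D s1 - D (((σ * κ : ℝ) : ℂ) * I)) - D (((σ * κ : ℝ) : ℂ) * I) := by
      have : cexp (g s + s) = Ψ s - D s := by simp only [hD]; ring
      rw [this]
      ring
    have f5 : ‖cexp (g s + s)‖ ≤ ‖Ψ s‖ + ‖D s - D s1‖ + ‖D s1 - D (((σ * κ : ℝ) : ℂ) * I)‖ + ‖D (((σ * κ : ℝ) : ℂ) * I)‖ := by
      rw [f4]
      refine le_trans (norm_sub_le _ _) ?_
      have g1 := norm_sub_le (Ψ s - (D s - D s1)) (D s1 - D (((σ * κ : ℝ) : ℂ) * I))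
      have g2 := norm_sub_le (Ψ s) (D s - D s1)
      linarith
    rw [Complex.norm_exp, Complex.add_re] at f5
    -- main size
    set X : ℝ := Real.exp (a - 7 + s.re) with hX
    have f6 : X ≤ Real.exp ((g s).re + s.re) := Real.exp_le_exp.mpr (by linarith)
    have f7 : Real.exp (a + 7) * Real.exp s.re = Real.exp 14 * X := by
      rw [hX, ← Real.exp_add, ← Real.exp_add]
      congr 1
      ring
    have f8 : Real.exp (a + 1) * Real.exp Λ ≤ Real.exp 14 * X := by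
      rw [← f7]
      apply mul_le_mul (Real.exp_le_exp.mpr (by linarith)) (Real.exp_le_exp.mpr e2) (Real.exp_pos _).le (Real.exp_pos _).le
    have f9 : 7 / κ0 * Real.exp 14 ≤ 1 / 2 := by
      have g1 : Real.exp 20 = Real.exp 14 * Real.exp 6 := by rw [← Real.exp_add]; norm_num
      have g2 : (14 : ℝ) ≤ Real.exp 6 := by
        have := Real.add_one_le_exp (3 : ℝ)
        have g3 : Real.exp 6 = Real.exp 3 * Real.exp 3 := by rw [← Real.exp_add]; norm_num
        have g4 := mul_le_mul this this (by norm_num) (Real.exp_pos 3).le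
        rw [g3]
        linarith
      have g3 : 14 * Real.exp 14 ≤ κ0 := by
        refine le_trans ?_ hκ0
        rw [g1]
        have g4 := mul_le_mul_of_nonneg_left g2 (Real.exp_pos 14).le
        linarith
      rw [div_mul_eq_mul_div, div_le_div_iff₀ hκpos (by norm_num)]
      linarith
    have hX0 : 0 < X := Real.exp_pos _
    have f10 : ‖D s - D s1‖ + ‖D s1 - D (((σ * κ : ℝ) : ℂ) * I)‖ ≤ X / 2 := by
      have g1 : 5 / κ0 * Real.exp (a + 7) * Real.exp s.re = 5 / κ0 * (Real.exp 14 * X) := by rw [← f7]; ring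
      have g2 : 2 / κ0 * Real.exp (a + 1) * Real.exp Λ ≤ 2 / κ0 * (Real.exp 14 * X) := by
        rw [mul_assoc]
        exact mul_le_mul_of_nonneg_left f8 (by positivity)
      have g3 : 5 / κ0 * (Real.exp 14 * X) + 2 / κ0 * (Real.exp 14 * X) = (7 / κ0 * Real.exp 14) * X := by ring
      have g4 : (7 / κ0 * Real.exp 14) * X ≤ 1 / 2 * X := mul_le_mul_of_nonneg_right f9 hX0.le
      rw [g1] at f1
      linarith
    have f11 : 6 * ‖W‖ ≤ X := by
      have g1 : Real.exp (κ0 / 1000) * Real.exp (κ0 / 1000) ≤ X := by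
        rw [hX, ← Real.exp_add]
        apply Real.exp_le_exp.mpr
        have : Λ = κ0 / 100 := hΛ
        linarith
      have g2 : (6 : ℝ) ≤ Real.exp (κ0 / 1000) := by
        have := Real.add_one_le_exp (κ0 / 1000)
        linarith
      calc 6 * ‖W‖ ≤ Real.exp (κ0 / 1000) * Real.exp (κ0 / 1000) :=
            mul_le_mul g2 hW2 (norm_nonneg _) (Real.exp_pos _).le
        _ ≤ X := g1
    linarith
  -- assembling
  refine ⟨κ, hκm, ?_⟩
  have j1 : JoinedIn {s : ℂ | 0 ≤ s.re ∧ 4 / 5 * κ0 ≤ ‖s‖ ∧ ‖s‖ ≤ 3 * κ0 ∧ ‖W‖ / 2 ≤ ‖Ψ s‖}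
      (((σ * κ : ℝ) : ℂ) * I) s1 := by
    apply JoinedIn.of_segment_subset
    intro z hz
    rw [segment_eq_image'] at hz
    obtain ⟨r, hr, rfl⟩ := hz
    have h1 : ((σ * κ : ℝ) : ℂ) * I + r • (s1 - ((σ * κ : ℝ) : ℂ) * I) = ((r * Λ : ℝ) : ℂ) + ((σ * κ : ℝ) : ℂ) * I := by
      rw [Complex.real_smul, hs1]; push_cast; ring
    have h2 : 0 ≤ r * Λ := mul_nonneg hr.1 hΛpos.le
    have h3 : r * Λ ≤ Λ := mul_le_of_le_one_left hΛpos.le hr.2
    have hl := leg1 (r * Λ) κ h2 h3 hκm.1 hκm.2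
    have h4 := first (r * Λ) h2 h3
    have h5 : (((r * Λ : ℝ) : ℂ) + ((σ * κ : ℝ) : ℂ) * I) ∈ {s : ℂ | 0 ≤ s.re ∧ 4 / 5 * κ0 ≤ ‖s‖ ∧
        ‖s‖ ≤ 3 * κ0 ∧ ‖W‖ / 2 ≤ ‖Ψ s‖} :=
      ⟨by simpa using h2, by linarith [hl.1], by linarith [hl.2], by linarith⟩
    rw [← h1] at h5
    exact h5
  have j2 : JoinedIn {s : ℂ | 0 ≤ s.re ∧ 4 / 5 * κ0 ≤ ‖s‖ ∧ ‖s‖ ≤ 3 * κ0 ∧ ‖W‖ / 2 ≤ ‖Ψ s‖}
      s1 ((2 * κ0 : ℝ) : ℂ) := by
    apply JoinedIn.of_segment_subset
    intro z hz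
    rw [segment_eq_image'] at hz
    obtain ⟨r, hr, rfl⟩ := hz
    have h1 : s1 + r • (((2 * κ0 : ℝ) : ℂ) - s1) = s1 + (r : ℂ) * v := by
      rw [Complex.real_smul, hv]
    obtain ⟨e1, _, e3, e4⟩ := leg2 r hr
    have h5 : (s1 + (r : ℂ) * v) ∈ {s : ℂ | 0 ≤ s.re ∧ 4 / 5 * κ0 ≤ ‖s‖ ∧
        ‖s‖ ≤ 3 * κ0 ∧ ‖W‖ / 2 ≤ ‖Ψ s‖} := ⟨e1, e3, e4, second r hr⟩
    rw [← h1] at h5
    exact h5
  exact j1.trans j2

end Pool.Agent.MP_6f1701_an

end
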