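import Pool.Agent.Lib.MP_6f1701_an.PartB

set_option autoImplicit false

section

open Complex MeasureTheory Set Filter Topology

namespace Pool.Agent.MP_6f1701_an

noncomputable def dl (n : ℕ) : ℝ := (1 / 8) ^ n

lemma dl_pos (n : ℕ) : 0 < dl n := by unfold dl; positivity
lemma dl_mul (n : ℕ) : (8 : ℝ) ^ n * dl n = 1 := by
  unfold dl
  rw [← mul_pow]
  norm_num
lemma dl_two (n : ℕ) : (2 : ℝ) ^ n * dl n = yk n := by
  unfold dl yk
  rw [← mul_pow]
  norm_num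
lemma dl_yk (n : ℕ) : (2 : ℝ) ^ n * yk n ^ 2 = dl n := by
  unfold dl yk
  rw [← pow_mul, mul_comm n 2, pow_mul, ← mul_pow]
  norm_num

lemma dl_small {n : ℕ} (hn : 20 ≤ n) : 1000000 * dl n ≤ yk n := by
  rw [← dl_two n]
  exact mul_le_mul_of_nonneg_right (by linarith [two_pow_ge hn]) (dl_pos n).le

noncomputable def zof (n : ℕ) (ζ : ℂ) : ℂ := zn n + (dl n : ℂ) * ζ

lemma zt_zof (n : ℕ) (ζ : ℂ) : zt n (zof n ζ) = ζ := by
  rw [zt_eq, zof, add_sub_cancel_left, ← mul_assoc]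
  have h : (((8 : ℝ) ^ n : ℝ) : ℂ) * (dl n : ℂ) = 1 := by
    rw [← Complex.ofReal_mul, dl_mul]
    simp
  rw [h, one_mul]

lemma zof_re (n : ℕ) (ζ : ℂ) : (zof n ζ).re = dl n * ζ.re := by
  rw [zof, Complex.add_re, zn_re, Complex.re_ofReal_mul, zero_add]

lemma zof_im (n : ℕ) (ζ : ℂ) : (zof n ζ).im = yk n + dl n * ζ.im := by
  rw [zof, Complex.add_im, zn_im, Complex.im_ofReal_mul]

lemma zof_deriv (n : ℕ) (ζ : ℂ) : HasDerivAt (zof n) (dl n : ℂ) ζ := by
  have := ((hasDerivAt_id ζ).const_mul (dl n : ℂ)).const_add (zn n)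
  rw [mul_one] at this
  exact this

lemma zof_close {n : ℕ} (hn : 20 ≤ n) {ζ : ℂ} (h : |ζ.im| ≤ 100) :
    |(zof n ζ).im - yk n| ≤ yk n / 1000 := by
  rw [zof_im, add_sub_cancel_left, abs_mul, abs_of_pos (dl_pos n)]
  have h1 := dl_small hn
  have h2 := dl_pos n
  have h3 : dl n * |ζ.im| ≤ dl n * 100 := mul_le_mul_of_nonneg_left h h2.le
  linarith

lemma zof_mem {n : ℕ} (hn : 20 ≤ n) {ζ : ℂ} (h : |ζ.im| ≤ 100) : zof n ζ ∈ Qn n := by
  have h1 := abs_le.mp (zof_close hn h)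
  have := yk_pos n
  exact ⟨by linarith [h1.1], by linarith [h1.2]⟩

noncomputable def Phi (n : ℕ) (t : ℂ) : ℂ := FF (zof n (Complex.log t))

noncomputable def II (ζ : ℂ) : ℂ := EE ζ - kk ζ

lemma II_diff : Differentiable ℂ II := EE_diff.sub kk_diff

/-- the admissible region in the `t`-plane -/
structure TR (t : ℂ) : Prop where
  re : 0 ≤ t.re
  norm : Real.pi ≤ ‖t‖

lemma TR.ne {t : ℂ} (h : TR t) : t ≠ 0 := by
  rintro rfl
  have := h.norm
  rw [norm_zero] at this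
  linarith [Real.pi_pos]

lemma TR.slit {t : ℂ} (h : TR t) : t ∈ slitPlane := by
  rcases lt_or_eq_of_le h.re with h1 | h1
  · exact Or.inl h1
  · right
    intro h2
    exact h.ne (Complex.ext h1.symm h2)

lemma log_pi_ge : 1.1 ≤ Real.log Real.pi := by
  rw [Real.le_log_iff_exp_le Real.pi_pos]
  have h1 : Real.exp 1.1 = Real.exp 1 * Real.exp 0.1 := by rw [← Real.exp_add]; norm_num
  have h2 : Real.exp 1 < 2.7183 := lt_trans Real.exp_one_lt_d9 (by norm_num)
  have h3 : Real.exp 0.1 ≤ 1.1112 := by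
    have h4 : Real.exp 0.1 ≤ 1 / (1 - 0.1) := by
      have := Real.one_sub_le_exp_neg (0.1 : ℝ)
      rw [Real.exp_neg] at this
      rw [le_div_iff₀ (by norm_num)]
      have h5 := Real.exp_pos (0.1 : ℝ)
      have h6 := mul_le_mul_of_nonneg_left this h5.le
      rw [mul_inv_cancel₀ h5.ne'] at h6
      exact h6
    refine le_trans h4 (by norm_num)
  have h4 : Real.exp 1 * Real.exp 0.1 ≤ 2.7183 * 1.1112 :=
    mul_le_mul h2.le h3 (Real.exp_pos _).le (by norm_num)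
  rw [h1]
  linarith [pi_ge]

lemma TR.log_re {t : ℂ} (h : TR t) : 1.1 ≤ (Complex.log t).re := by
  rw [Complex.log_re]
  exact le_trans log_pi_ge (Real.log_le_log Real.pi_pos h.norm)

lemma TR.log_im {t : ℂ} (h : TR t) : |(Complex.log t).im| ≤ Real.pi / 2 := by
  rw [Complex.log_im]
  exact Complex.abs_arg_le_pi_div_two_iff.mpr h.re

lemma TR.mem {t : ℂ} (h : TR t) {n : ℕ} (hn : 20 ≤ n) : zof n (Complex.log t) ∈ Qn n :=
  zof_mem hn (by linarith [h.log_im, pi_le])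

lemma II_norm {ζ : ℂ} (h1 : 1.1 ≤ ζ.re) (h2 : |ζ.im| ≤ Real.pi / 2) : ‖II ζ‖ ≤ 3 := by
  have h := EE_sub_kk (ζ := ζ) (d := 1.1) (by norm_num) h1 (by linarith [pi_ge])
  refine le_trans h (by norm_num)

/-- the slowly varying coefficient -/
noncomputable def Bt (n : ℕ) (t : ℂ) : ℂ :=
  (dl n : ℂ) * cexp (Sn n (zof n (Complex.log t)) + II (Complex.log t)) / ((zof n (Complex.log t)) ^ 2 * t)

lemma Phi_deriv {n : ℕ} (hn : 20 ≤ n) {t : ℂ} (h : TR t) :
    HasDerivAt (Phi n) (Bt n t * cexp (cexp t)) t := by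
  have hQ := h.mem hn
  have him := Qn_im_pos hQ
  have h1 : HasDerivAt Complex.log t⁻¹ t := Complex.hasDerivAt_log h.slit
  have h2 := (FF_deriv him).comp t ((zof_deriv n (Complex.log t)).comp t h1)
  have h3 : dF (zof n (Complex.log t)) * ((dl n : ℂ) * t⁻¹) = Bt n t * cexp (cexp t) := by
    unfold dF Bt
    rw [SS_eq n, zt_zof]
    have h4 : Sn n (zof n (Complex.log t)) + EE (Complex.log t) =
        (Sn n (zof n (Complex.log t)) + II (Complex.log t)) + cexp t := by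
      unfold II kk
      rw [Complex.exp_log h.ne]
      ring
    rw [h4, Complex.exp_add]
    have h5 := im_pos_ne_zero him
    have h6 := h.ne
    field_simp
  rw [h3] at h2
  exact h2

lemma Bt_norm {n : ℕ} (hn : 20 ≤ n) {t : ℂ} (h : TR t) :
    ‖Bt n t‖ ≤ Real.exp 4 * dl n / (‖zof n (Complex.log t)‖ ^ 2 * ‖t‖) := by
  have hQ := h.mem hn
  have h1 := Sn_bound hn hQ
  have h2 := II_norm h.log_re h.log_im
  have h3 : ‖cexp (Sn n (zof n (Complex.log t)) + II (Complex.log t))‖ ≤ Real.exp 4 := by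
    refine le_trans (Complex.norm_exp_le_exp_norm _) (Real.exp_le_exp.mpr ?_)
    refine le_trans (norm_add_le _ _) ?_
    linarith
  unfold Bt
  rw [norm_div, norm_mul, norm_mul, norm_pow, Complex.norm_real, Real.norm_eq_abs, abs_of_pos (dl_pos n)]
  apply div_le_div_of_nonneg_right _ (by positivity)
  rw [mul_comm]
  exact mul_le_mul_of_nonneg_right h3 (dl_pos n).le

lemma zof_norm_ge {n : ℕ} {t : ℂ} (hQ : zof n (Complex.log t) ∈ Qn n) :
    yk n / 2 ≤ ‖zof n (Complex.log t)‖ := by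
  have h1 := norm_ge_im (zof n (Complex.log t))
  rw [abs_of_pos (Qn_im_pos hQ)] at h1
  exact le_trans hQ.1 h1

lemma Bt_norm2 {n : ℕ} (hn : 20 ≤ n) {t : ℂ} (h : TR t) :
    ‖Bt n t‖ ≤ 4 * Real.exp 4 * 2 ^ n / ‖t‖ := by
  refine le_trans (Bt_norm hn h) ?_
  have h1 := zof_norm_ge (h.mem hn)
  have hy := yk_pos n
  have ht : 0 < ‖t‖ := lt_of_lt_of_le Real.pi_pos h.norm
  have h2 : (yk n / 2) ^ 2 ≤ ‖zof n (Complex.log t)‖ ^ 2 := pow_le_pow_left₀ (by positivity) h1 2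
  have h3 : Real.exp 4 * dl n / (‖zof n (Complex.log t)‖ ^ 2 * ‖t‖) ≤
      Real.exp 4 * dl n / ((yk n / 2) ^ 2 * ‖t‖) := by
    apply div_le_div_of_nonneg_left
    · have := dl_pos n
      positivity
    · positivity
    · exact mul_le_mul_of_nonneg_right h2 ht.le
  refine le_trans h3 (le_of_eq ?_)
  rw [← dl_yk n]
  field_simp
  norm_num

/-- norm of the double exponential where the cosine is nonpositive -/
lemma exp_exp_le {t : ℂ} (h : Real.cos t.im ≤ 0) : ‖cexp (cexp t)‖ ≤ 1 := by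
  rw [Complex.norm_exp, Complex.exp_re, ← Real.exp_zero]
  apply Real.exp_le_exp.mpr
  exact mul_nonpos_of_nonneg_of_nonpos (Real.exp_pos _).le h

lemma TR_line {θ τ : ℝ} (hθ : Real.pi ≤ |θ|) (hτ : 0 ≤ τ) : TR ((τ : ℂ) + θ * I) := by
  constructor
  · simpa using hτ
  · refine le_trans hθ ?_
    have := norm_ge_im ((τ : ℂ) + θ * I)
    simpa using this

lemma norm_line_ge {θ τ : ℝ} : |θ| ≤ ‖((τ : ℂ) + θ * I)‖ := by
  have := norm_ge_im ((τ : ℂ) + θ * I)
  simpa using this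

set_option maxHeartbeats 4000000 in
/-- values along a river -/
lemma river_diff {n : ℕ} (hn : 20 ≤ n) {θ : ℝ} (hc : Real.cos θ = -1) (hθ : Real.pi ≤ |θ|) {τ : ℝ}
    (hτ : 0 ≤ τ) :
    ‖Phi n ((τ : ℂ) + θ * I) - Phi n (((0 : ℝ) : ℂ) + θ * I)‖ ≤
      Real.exp 4 * dl n / ‖zof n (Complex.log (((0 : ℝ) : ℂ) + θ * I))‖ ^ 2 := by
  set z0 := zof n (Complex.log (((0 : ℝ) : ℂ) + θ * I)) with hz0
  have hT0 : TR (((0 : ℝ) : ℂ) + θ * I) := TR_line hθ le_rfl
  have hQ0 : z0 ∈ Qn n := hT0.mem hn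
  have hz0pos : 0 < ‖z0‖ := norm_pos_iff.mpr (im_pos_ne_zero (Qn_im_pos hQ0))
  have hdl := dl_pos n
  have hds := dl_small hn
  have hpi := pi_le
  -- comparison of norms
  have hcomp : ∀ x : ℝ, 0 ≤ x → ‖z0‖ ^ 2 / 2 ≤ ‖zof n (Complex.log ((x : ℂ) + θ * I))‖ ^ 2 := by
    intro x hx
    have hT : TR ((x : ℂ) + θ * I) := TR_line hθ hx
    rw [normSq_eq', normSq_eq', zof_re, hz0, zof_re]
    have h1 : (Complex.log (((0 : ℝ) : ℂ) + θ * I)).re ≤ (Complex.log ((x : ℂ) + θ * I)).re := by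
      rw [Complex.log_re, Complex.log_re]
      apply Real.log_le_log (norm_pos_iff.mpr hT0.ne)
      have h2 : ‖(((0 : ℝ) : ℂ) + θ * I)‖ = |θ| := by simp
      rw [h2]
      exact norm_line_ge
    have h2 := hT0.log_re
    have h3 : (dl n * (Complex.log (((0 : ℝ) : ℂ) + θ * I)).re) ^ 2 ≤
        (dl n * (Complex.log ((x : ℂ) + θ * I)).re) ^ 2 := by
      apply pow_le_pow_left₀ (mul_nonneg hdl.le (by linarith))
      exact mul_le_mul_of_nonneg_left h1 hdl.le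
    have h4 := abs_le.mp (zof_close hn (ζ := Complex.log (((0 : ℝ) : ℂ) + θ * I)) (by linarith [hT0.log_im]))
    have h5 := abs_le.mp (zof_close hn (ζ := Complex.log ((x : ℂ) + θ * I)) (by linarith [hT.log_im]))
    have hy := yk_pos n
    have h6 : (999 / 1000 * yk n) ^ 2 ≤ (zof n (Complex.log ((x : ℂ) + θ * I))).im ^ 2 :=
      pow_le_pow_left₀ (by positivity) (by linarith [h5.1]) 2
    have h7 : (zof n (Complex.log (((0 : ℝ) : ℂ) + θ * I))).im ^ 2 ≤ (1001 / 1000 * yk n) ^ 2 :=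
      pow_le_pow_left₀ (by linarith [h4.1]) (by linarith [h4.2]) 2
    nlinarith [sq_nonneg (dl n * (Complex.log (((0 : ℝ) : ℂ) + θ * I)).re), sq_nonneg (yk n)]
  have key := curve_bound (g := fun x : ℝ => Phi n ((x : ℂ) + θ * I))
    (g' := fun x : ℝ => Bt n ((x : ℂ) + θ * I) * cexp (cexp ((x : ℂ) + θ * I)))
    (B := fun x : ℝ => -(Real.exp 4 * dl n / ‖z0‖ ^ 2 * Real.exp (-x)))
    (B' := fun x : ℝ => Real.exp 4 * dl n / ‖z0‖ ^ 2 * Real.exp (-x)) hτ ?_ ?_ ?_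
  · refine le_trans key ?_
    have h1 : 0 ≤ Real.exp 4 * dl n / ‖z0‖ ^ 2 * Real.exp (-τ) := by positivity
    rw [neg_zero, Real.exp_zero]
    linarith
  · intro x hx
    have h1 := Phi_deriv hn (TR_line hθ hx.1)
    exact (h1.comp_add_const (x : ℂ) (θ * I)).comp_ofReal
  · intro x _
    have h1 : HasDerivAt (fun x : ℝ => Real.exp (-x)) (Real.exp (-x) * (-1)) x :=
      (hasDerivAt_neg x).exp
    have h2 := (h1.const_mul (Real.exp 4 * dl n / ‖z0‖ ^ 2)).neg
    have h3 : -(Real.exp 4 * dl n / ‖z0‖ ^ 2 * (Real.exp (-x) * (-1))) = Real.exp 4 * dl n / ‖z0‖ ^ 2 * Real.exp (-x) := by ring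
    rw [h3] at h2
    exact h2
  · intro x hx
    have hT : TR ((x : ℂ) + θ * I) := TR_line hθ hx.1
    have h1 := Bt_norm hn hT
    have h2 : ‖cexp (cexp ((x : ℂ) + θ * I))‖ ≤ Real.exp (-x) := by
      rw [Complex.norm_exp, Complex.exp_re]
      have e1 : ((x : ℂ) + θ * I).re = x := by simp
      have e2 : ((x : ℂ) + θ * I).im = θ := by simp
      rw [e1, e2, hc]
      apply Real.exp_le_exp.mpr
      have := Real.add_one_le_exp x
      linarith
    rw [norm_mul]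
    refine mul_le_mul ?_ h2 (norm_nonneg _) (by positivity)
    refine le_trans h1 ?_
    apply div_le_div_of_nonneg_left (by positivity) (by positivity)
    have h3 := hcomp x hx.1
    have h4 : (2 : ℝ) ≤ ‖((x : ℂ) + θ * I)‖ := le_trans (by linarith [pi_ge]) hT.norm
    have h5 : ‖z0‖ ^ 2 / 2 * 2 ≤ ‖zof n (Complex.log ((x : ℂ) + θ * I))‖ ^ 2 * ‖((x : ℂ) + θ * I)‖ :=
      mul_le_mul h3 h4 (by norm_num) (by positivity)
    linarith

lemma river {b : ℝ} (hb : 1 ≤ b) :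
    ∀ᶠ n : ℕ in atTop, ∀ θ : ℝ, Real.cos θ = -1 → Real.pi ≤ |θ| → dl n * Real.log |θ| ≤ b →
      ∀ τ : ℝ, 0 ≤ τ → 5 * 2 ^ n ≤ ell (Phi n ((τ : ℂ) + θ * I)) ∧
        ‖Phi n ((τ : ℂ) + θ * I)‖ ≤ 21 * 4 ^ n := by
  have h2 : Tendsto (fun n : ℕ => (2 : ℝ) ^ n) atTop atTop := tendsto_pow_atTop_atTop_of_one_lt (by norm_num)
  filter_upwards [eventually_ge_atTop 20, h2.eventually_ge_atTop (12 * Real.exp 4), neutral hb]
    with n hn hbig hneu θ hc hθ hθb τ hτ
  have hT0 : TR (((0 : ℝ) : ℂ) + θ * I) := TR_line hθ le_rfl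
  set z0 := zof n (Complex.log (((0 : ℝ) : ℂ) + θ * I)) with hz0
  have hQ0 : z0 ∈ Qn n := hT0.mem hn
  have him0 := Qn_im_pos hQ0
  have hz0pos : 0 < ‖z0‖ := norm_pos_iff.mpr (im_pos_ne_zero him0)
  have hn0 : ‖(((0 : ℝ) : ℂ) + θ * I)‖ = |θ| := by simp
  have hre0 : z0.re = dl n * Real.log |θ| := by
    rw [hz0, zof_re, Complex.log_re, hn0]
  have hdl := dl_pos n
  have h1 := hneu z0 (by rw [hz0, zof_re]; exact mul_nonneg hdl.le (by linarith [hT0.log_re]))
    (by rw [hre0]; exact hθb) hQ0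
    (by
      rw [hz0, zt_zof, Complex.log_im]
      have h5 : (((0 : ℝ) : ℂ) + θ * I) = (θ : ℂ) * I := by simp
      rw [h5]
      rcases le_total 0 θ with h6 | h6
      · rw [abs_of_nonneg h6] at hθ
        have h7 : Complex.arg ((θ : ℂ) * I) = Real.pi / 2 := by
          rw [Complex.arg_real_mul _ (by linarith [Real.pi_pos]), Complex.arg_I]
        rw [h7, abs_of_pos (by linarith [Real.pi_pos])]
      · rw [abs_of_nonpos h6] at hθ
        have h7 : Complex.arg ((θ : ℂ) * I) = -(Real.pi / 2) := by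
          have h8 : (θ : ℂ) * I = ((-θ : ℝ) : ℂ) * (-I) := by push_cast; ring
          rw [h8, Complex.arg_real_mul _ (by linarith [Real.pi_pos]), Complex.arg_neg_I]
        rw [h7, abs_neg, abs_of_pos (by linarith [Real.pi_pos])])
    (by left; rw [hz0, zt_zof]; exact hT0.log_re)
  have h3 := river_diff hn hc hθ hτ
  rw [← hz0] at h3
  have hy := yk_pos n
  have h4 : yk n / 2 ≤ ‖z0‖ := zof_norm_ge hQ0
  -- the difference is at most (2 exp 4 / 2^n) / ‖z0‖
  have h5 : Real.exp 4 * dl n / ‖z0‖ ^ 2 ≤ 1 / 6 / ‖z0‖ := by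
    rw [div_le_div_iff₀ (by positivity) hz0pos]
    have h6 : 12 * Real.exp 4 * dl n ≤ yk n := by
      rw [← dl_two n]
      exact mul_le_mul_of_nonneg_right hbig hdl.le
    have h7 : Real.exp 4 * dl n ≤ 1 / 6 * ‖z0‖ := by linarith
    calc Real.exp 4 * dl n * ‖z0‖ ≤ (1 / 6 * ‖z0‖) * ‖z0‖ := mul_le_mul_of_nonneg_right h7 hz0pos.le
      _ = 1 / 6 * ‖z0‖ ^ 2 := by ring
  have h8 : Phi n (((0 : ℝ) : ℂ) + θ * I) = FF z0 := rfl
  rw [h8] at h3
  have h9 := (abs_le.mp (abs_ell_le (Phi n ((τ : ℂ) + θ * I) - FF z0))).1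
  rw [ell_sub] at h9
  have h10 : 3 / 2 * (1 / 6 / ‖z0‖) = 1 / 4 / ‖z0‖ := by field_simp; norm_num
  constructor
  · have h11 : 3 / 2 * ‖Phi n ((τ : ℂ) + θ * I) - FF z0‖ ≤ 1 / 4 / ‖z0‖ := by
      rw [← h10]
      exact mul_le_mul_of_nonneg_left (le_trans h3 h5) (by norm_num)
    linarith [h1.1]
  · have h11 : ‖Phi n ((τ : ℂ) + θ * I)‖ ≤ ‖Phi n ((τ : ℂ) + θ * I) - FF z0‖ + ‖FF z0‖ := by
      have := norm_add_le (Phi n ((τ : ℂ) + θ * I) - FF z0) (FF z0)
      simpa using this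
    have h12 : 1 / 6 / ‖z0‖ ≤ 4 ^ n := by
      rw [div_le_iff₀ hz0pos]
      have h8 : (4:ℝ) ^ n * yk n = 1 := by
        unfold yk
        rw [← mul_pow]
        norm_num
      have h9 : (4:ℝ) ^ n * (yk n / 2) ≤ 4 ^ n * ‖z0‖ := mul_le_mul_of_nonneg_left h4 (by positivity)
      linarith
    linarith [h1.2]

/-- near a river: the function is almost constant -/
lemma river_box {n : ℕ} (hn : 20 ≤ n) {θ ρ : ℝ} (hc : Real.cos θ = -1) (hρ : Real.pi ≤ ρ)
    {t : ℂ} (h1 : ρ ≤ t.re) (h3 : |t.im - θ| ≤ Real.pi / 2) :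
    ‖Phi n t - Phi n ((ρ : ℂ) + θ * I)‖ ≤ 4 * Real.exp 4 * 2 ^ n / ρ * ‖t - ((ρ : ℂ) + θ * I)‖ := by
  have hρ0 : 0 < ρ := lt_of_lt_of_le Real.pi_pos hρ
  have hs : Real.sin θ = 0 := by
    have := Real.sin_sq_add_cos_sq θ
    rw [hc] at this
    have h4 : Real.sin θ ^ 2 = 0 := by linarith
    exact pow_eq_zero_iff (by norm_num) |>.mp h4
  have hseg : ∀ z ∈ segment ℝ ((ρ : ℂ) + θ * I) t, ρ ≤ z.re ∧ |z.im - θ| ≤ Real.pi / 2 := by
    intro z hz
    rw [segment_eq_image'] at hz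
    obtain ⟨r, hr, rfl⟩ := hz
    constructor
    · simp
      have : 0 ≤ r * (t.re - ρ) := mul_nonneg hr.1 (by linarith)
      linarith
    · simp
      rw [abs_of_nonneg hr.1]
      exact le_trans (mul_le_of_le_one_left (abs_nonneg _) hr.2) h3
  have hTR : ∀ z : ℂ, ρ ≤ z.re → TR z ∧ ρ ≤ ‖z‖ := by
    intro z hz
    have h5 : ρ ≤ ‖z‖ := le_trans hz (le_trans (le_abs_self _) (norm_ge_re z))
    exact ⟨⟨by linarith, by linarith⟩, h5⟩
  apply seg_bound (f := Phi n) (f' := fun t => Bt n t * cexp (cexp t))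
  · intro z hz
    exact Phi_deriv hn (hTR z (hseg z hz).1).1
  · intro z hz
    obtain ⟨e1, e2⟩ := hseg z hz
    obtain ⟨e3, e4⟩ := hTR z e1
    have h5 := Bt_norm2 hn e3
    have h6 : Real.cos z.im ≤ 0 := by
      have h7 : z.im = θ + (z.im - θ) := by ring
      rw [h7, Real.cos_add, hc, hs]
      have h8 : 0 ≤ Real.cos (z.im - θ) := by
        apply Real.cos_nonneg_of_neg_pi_div_two_le_of_le
        · linarith [(abs_le.mp e2).1]
        · linarith [(abs_le.mp e2).2]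
      linarith
    have h7 := exp_exp_le h6
    rw [norm_mul]
    have h8 : 4 * Real.exp 4 * 2 ^ n / ‖z‖ ≤ 4 * Real.exp 4 * 2 ^ n / ρ :=
      div_le_div_of_nonneg_left (by positivity) hρ0 e4
    calc ‖Bt n z‖ * ‖cexp (cexp z)‖ ≤ (4 * Real.exp 4 * 2 ^ n / ρ) * 1 :=
          mul_le_mul (le_trans h5 h8) h7 (norm_nonneg _) (by positivity)
      _ = _ := by ring

end Pool.Agent.MP_6f1701_an

end

section

open Complex MeasureTheory Set Filter Topology

namespace Pool.Agent.MP_6f1701_an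

/-- `t` coordinate in the sheet `j` -/
noncomputable def tc (j : ℤ) (s : ℂ) : ℂ := Complex.log s + ((2 * Real.pi * j : ℝ) : ℂ) * I

lemma tc_re (j : ℤ) (s : ℂ) : (tc j s).re = Real.log ‖s‖ := by
  unfold tc
  simp [Complex.log_re]

lemma tc_im (j : ℤ) (s : ℂ) : (tc j s).im = Complex.arg s + 2 * Real.pi * j := by
  unfold tc
  simp [Complex.log_im]

lemma exp_tc (j : ℤ) {s : ℂ} (hs : s ≠ 0) : cexp (tc j s) = s := by
  unfold tc
  have h : ((2 * Real.pi * j : ℝ) : ℂ) * I = (j : ℂ) * (2 * Real.pi * I) := by push_cast; ring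
  rw [h, Complex.exp_add, Complex.exp_int_mul_two_pi_mul_I, mul_one, Complex.exp_log hs]

/-- region in the `s` plane. -/
structure SR (s : ℂ) : Prop where
  re : 0 ≤ s.re
  norm : Real.exp 12 ≤ ‖s‖

lemma SR.ne {s : ℂ} (h : SR s) : s ≠ 0 := by
  rintro rfl
  have h1 := h.norm
  rw [norm_zero] at h1
  linarith [Real.exp_pos 12]

lemma SR.slit {s : ℂ} (h : SR s) : s ∈ slitPlane := by
  rcases lt_or_eq_of_le h.re with h1 | h1
  · exact Or.inl h1
  · right
    intro h2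
    exact h.ne (Complex.ext h1.symm h2)

lemma SR.tc_re_ge {s : ℂ} (h : SR s) (j : ℤ) : 12 ≤ (tc j s).re := by
  rw [tc_re]
  rw [Real.le_log_iff_exp_le (norm_pos_iff.mpr h.ne)]
  exact h.norm

lemma SR.tc_norm_ge {s : ℂ} (h : SR s) (j : ℤ) : 12 ≤ ‖tc j s‖ :=
  le_trans (h.tc_re_ge j) (le_trans (le_abs_self _) (norm_ge_re _))

lemma SR.TR {s : ℂ} (h : SR s) (j : ℤ) : TR (tc j s) :=
  ⟨by linarith [h.tc_re_ge j], by linarith [h.tc_norm_ge j, pi_le]⟩

lemma tc_deriv {s : ℂ} (h : SR s) (j : ℤ) : HasDerivAt (tc j) s⁻¹ s := by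
  unfold tc
  exact (Complex.hasDerivAt_log h.slit).add_const _

noncomputable def Psi (n : ℕ) (j : ℤ) (s : ℂ) : ℂ := Phi n (tc j s)

noncomputable def gg (n : ℕ) (j : ℤ) (s : ℂ) : ℂ :=
  Sn n (zof n (Complex.log (tc j s))) + II (Complex.log (tc j s)) + Complex.log (dl n : ℂ) -
    2 * Complex.log (zof n (Complex.log (tc j s))) - Complex.log (tc j s) - Complex.log s

lemma exp_gg {n : ℕ} (hn : 20 ≤ n) {j : ℤ} {s : ℂ} (h : SR s) :
    cexp (gg n j s) = Bt n (tc j s) / s := by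
  have hT := h.TR j
  have hz := im_pos_ne_zero (Qn_im_pos (hT.mem hn))
  have hd : (dl n : ℂ) ≠ 0 := by exact_mod_cast (dl_pos n).ne'
  unfold gg Bt
  rw [Complex.exp_sub, Complex.exp_sub, Complex.exp_sub, Complex.exp_add, Complex.exp_log hd,
    Complex.exp_log hT.ne, Complex.exp_log h.ne]
  have h2 : cexp (2 * Complex.log (zof n (Complex.log (tc j s)))) = (zof n (Complex.log (tc j s))) ^ 2 := by
    rw [two_mul, Complex.exp_add, Complex.exp_log hz]
    ring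
  rw [h2]
  have h3 := hT.ne
  have h4 := h.ne
  field_simp

lemma Psi_deriv {n : ℕ} (hn : 20 ≤ n) {j : ℤ} {s : ℂ} (h : SR s) :
    HasDerivAt (Psi n j) (cexp (gg n j s + s)) s := by
  have h1 := (Phi_deriv hn (h.TR j)).comp s (tc_deriv h j)
  have h2 : Bt n (tc j s) * cexp (cexp (tc j s)) * s⁻¹ = cexp (gg n j s + s) := by
    rw [Complex.exp_add, exp_gg hn h, exp_tc j h.ne]
    ring
  rw [h2] at h1
  exact h1

lemma Sn_deriv_le {n : ℕ} (hn : 20 ≤ n) {ζ : ℂ} (hζ : |ζ.im| ≤ 10) :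
    ‖deriv (Sn n) (zof n ζ)‖ ≤ 1 / 10000 / dl n := by
  have hd := dl_pos n
  have hy := yk_pos n
  have hsm := dl_small hn
  have hclose : ∀ w ∈ Metric.closedBall (zof n ζ) (dl n), w ∈ Qn n := by
    intro w hw
    rw [mem_closedBall_iff_norm] at hw
    have h1 := abs_le.mp (le_trans (norm_ge_im (w - zof n ζ)) hw)
    rw [Complex.sub_im] at h1
    have h2 := abs_le.mp (zof_close hn (ζ := ζ) (by linarith))
    constructor
    · linarith [h1.1, h2.1]
    · linarith [h1.2, h2.2]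
  apply Complex.norm_deriv_le_of_forall_mem_sphere_norm_le hd
  · apply DifferentiableOn.diffContOnCl
    rw [closure_ball _ hd.ne']
    exact fun w hw => (Sn_diff (Qn_im_pos (hclose w hw))).differentiableWithinAt
  · intro w hw
    exact Sn_bound hn (hclose w (Metric.sphere_subset_closedBall hw))

lemma II_deriv_le {ζ : ℂ} (h1 : 2 ≤ ζ.re) (h2 : |ζ.im| ≤ Real.pi / 2) : ‖deriv II ζ‖ ≤ 6 := by
  have h3 : ‖deriv II ζ‖ ≤ 3 / (1 / 2) := by
    apply Complex.norm_deriv_le_of_forall_mem_sphere_norm_le (by norm_num)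
    · exact II_diff.diffContOnCl
    · intro w hw
      rw [mem_sphere_iff_norm] at hw
      have h3 := abs_le.mp (le_trans (norm_ge_re (w - ζ)) hw.le)
      have h4 := norm_ge_im (w - ζ)
      rw [hw, Complex.sub_im] at h4
      rw [Complex.sub_re] at h3
      have h5 : |w.im| ≤ |w.im - ζ.im| + |ζ.im| := by
        have := abs_add_le (w.im - ζ.im) ζ.im
        simpa using this
      have h6 := EE_sub_kk (ζ := w) (d := 1) one_pos (by linarith [h3.1]) (by linarith [pi_ge])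
      rw [div_one] at h6
      exact h6
  norm_num at h3
  exact h3

noncomputable def gg' (n : ℕ) (j : ℤ) (s : ℂ) : ℂ :=
  deriv (Sn n) (zof n (Complex.log (tc j s))) * ((dl n : ℂ) * ((tc j s)⁻¹ * s⁻¹)) +
    deriv II (Complex.log (tc j s)) * ((tc j s)⁻¹ * s⁻¹) -
    2 * ((zof n (Complex.log (tc j s)))⁻¹ * ((dl n : ℂ) * ((tc j s)⁻¹ * s⁻¹))) -
    (tc j s)⁻¹ * s⁻¹ - s⁻¹

lemma gg_deriv {n : ℕ} (hn : 20 ≤ n) {j : ℤ} {s : ℂ} (h : SR s) :
    HasDerivAt (gg n j) (gg' n j s) s := by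
  have hT := h.TR j
  have hQ := hT.mem hn
  have him := Qn_im_pos hQ
  have h1 : HasDerivAt (fun s => Complex.log (tc j s)) ((tc j s)⁻¹ * s⁻¹) s :=
    (Complex.hasDerivAt_log hT.slit).comp s (tc_deriv h j)
  have h2 : HasDerivAt (fun s => zof n (Complex.log (tc j s))) ((dl n : ℂ) * ((tc j s)⁻¹ * s⁻¹)) s :=
    (zof_deriv n _).comp s h1
  have h3 : HasDerivAt (fun s => Sn n (zof n (Complex.log (tc j s))))
      (deriv (Sn n) (zof n (Complex.log (tc j s))) * ((dl n : ℂ) * ((tc j s)⁻¹ * s⁻¹))) s :=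
    HasDerivAt.comp (h₂ := Sn n) (h := fun s => zof n (Complex.log (tc j s))) s
      (Sn_diff him).hasDerivAt h2
  have h4 : HasDerivAt (fun s => II (Complex.log (tc j s)))
      (deriv II (Complex.log (tc j s)) * ((tc j s)⁻¹ * s⁻¹)) s :=
    II_diff.differentiableAt.hasDerivAt.comp s h1
  have hzs : zof n (Complex.log (tc j s)) ∈ slitPlane := Or.inr him.ne'
  have h5 : HasDerivAt (fun s => Complex.log (zof n (Complex.log (tc j s))))
      ((zof n (Complex.log (tc j s)))⁻¹ * ((dl n : ℂ) * ((tc j s)⁻¹ * s⁻¹))) s :=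
    HasDerivAt.comp (h₂ := Complex.log) (h := fun s => zof n (Complex.log (tc j s))) s
      (Complex.hasDerivAt_log hzs) h2
  have h6 := ((((h3.add h4).add_const (Complex.log (dl n : ℂ))).sub (h5.const_mul 2)).sub h1).sub
    (Complex.hasDerivAt_log h.slit)
  exact h6

lemma gg'_norm {n : ℕ} (hn : 20 ≤ n) {j : ℤ} {s : ℂ} (h : SR s) : ‖gg' n j s‖ ≤ 2 / ‖s‖ := by
  have hT := h.TR j
  have hQ := hT.mem hn
  have hs0 : 0 < ‖s‖ := norm_pos_iff.mpr h.ne
  have ht12 := h.tc_norm_ge j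
  have hd := dl_pos n
  have hlogre : 2 ≤ (Complex.log (tc j s)).re := by
    rw [Complex.log_re, Real.le_log_iff_exp_le (by linarith)]
    refine le_trans ?_ ht12
    have h1 : Real.exp 2 = Real.exp 1 * Real.exp 1 := by rw [← Real.exp_add]; norm_num
    have h2 : Real.exp 1 < 2.7183 := lt_trans Real.exp_one_lt_d9 (by norm_num)
    rw [h1]
    nlinarith [Real.exp_pos 1]
  have a1 := Sn_deriv_le hn (ζ := Complex.log (tc j s)) (by linarith [hT.log_im, pi_le])
  have a2 := II_deriv_le hlogre hT.log_im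
  have a3 : dl n * ‖(zof n (Complex.log (tc j s)))⁻¹‖ ≤ 1 := by
    rw [norm_inv, ← div_eq_mul_inv, div_le_one (by
      have := zof_norm_ge hQ
      linarith [yk_pos n])]
    have := zof_norm_ge hQ
    linarith [dl_small hn, yk_pos n]
  set τ : ℝ := ‖(tc j s)⁻¹‖ with hτ
  have hτ1 : τ ≤ 1 / 12 := by
    rw [hτ, norm_inv, one_div]
    exact inv_anti₀ (by norm_num) ht12
  have hτ0 : 0 ≤ τ := norm_nonneg _
  have hsn : ‖s⁻¹‖ = 1 / ‖s‖ := by rw [norm_inv, one_div]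
  have b1 : ‖deriv (Sn n) (zof n (Complex.log (tc j s))) * ((dl n : ℂ) * ((tc j s)⁻¹ * s⁻¹))‖ ≤ 1 / 10000 * (τ * (1 / ‖s‖)) := by
    rw [norm_mul, norm_mul, norm_mul, Complex.norm_real, Real.norm_eq_abs, abs_of_pos hd, hsn, ← hτ]
    have e1 : ‖deriv (Sn n) (zof n (Complex.log (tc j s)))‖ * dl n ≤ 1 / 10000 := by
      have := mul_le_mul_of_nonneg_right a1 hd.le
      have e2 : 1 / 10000 / dl n * dl n = 1 / 10000 := by field_simp
      rw [e2] at this
      exact this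
    calc ‖deriv (Sn n) (zof n (Complex.log (tc j s)))‖ * (dl n * (τ * (1 / ‖s‖)))
        = (‖deriv (Sn n) (zof n (Complex.log (tc j s)))‖ * dl n) * (τ * (1 / ‖s‖)) := by ring
      _ ≤ 1 / 10000 * (τ * (1 / ‖s‖)) := mul_le_mul_of_nonneg_right e1 (by positivity)
  have b2 : ‖deriv II (Complex.log (tc j s)) * ((tc j s)⁻¹ * s⁻¹)‖ ≤ 6 * (τ * (1 / ‖s‖)) := by
    rw [norm_mul, norm_mul, hsn, ← hτ]
    exact mul_le_mul_of_nonneg_right a2 (by positivity)
  have b3 : ‖2 * ((zof n (Complex.log (tc j s)))⁻¹ * ((dl n : ℂ) * ((tc j s)⁻¹ * s⁻¹)))‖ ≤ 2 * (τ * (1 / ‖s‖)) := by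
    rw [norm_mul, norm_mul, norm_mul, norm_mul, Complex.norm_real, Real.norm_eq_abs, abs_of_pos hd, hsn, ← hτ]
    have e2 : ‖(2 : ℂ)‖ = 2 := by simp
    rw [e2]
    calc 2 * (‖(zof n (Complex.log (tc j s)))⁻¹‖ * (dl n * (τ * (1 / ‖s‖))))
        = 2 * ((dl n * ‖(zof n (Complex.log (tc j s)))⁻¹‖) * (τ * (1 / ‖s‖))) := by ring
      _ ≤ 2 * (1 * (τ * (1 / ‖s‖))) := by
          apply mul_le_mul_of_nonneg_left _ (by norm_num)
          exact mul_le_mul_of_nonneg_right a3 (by positivity)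
      _ = _ := by ring
  have b4 : ‖(tc j s)⁻¹ * s⁻¹‖ = τ * (1 / ‖s‖) := by rw [norm_mul, hsn]
  have key : ‖gg' n j s‖ ≤ 1 / 10000 * (τ * (1 / ‖s‖)) + 6 * (τ * (1 / ‖s‖)) + 2 * (τ * (1 / ‖s‖)) + τ * (1 / ‖s‖) + 1 / ‖s‖ := by
    unfold gg'
    refine le_trans (norm_sub_le _ _) ?_
    rw [hsn]
    have c1 := norm_sub_le (deriv (Sn n) (zof n (Complex.log (tc j s))) * ((dl n : ℂ) * ((tc j s)⁻¹ * s⁻¹)) +
      deriv II (Complex.log (tc j s)) * ((tc j s)⁻¹ * s⁻¹) -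
      2 * ((zof n (Complex.log (tc j s)))⁻¹ * ((dl n : ℂ) * ((tc j s)⁻¹ * s⁻¹)))) ((tc j s)⁻¹ * s⁻¹)
    have c2 := norm_sub_le (deriv (Sn n) (zof n (Complex.log (tc j s))) * ((dl n : ℂ) * ((tc j s)⁻¹ * s⁻¹)) +
      deriv II (Complex.log (tc j s)) * ((tc j s)⁻¹ * s⁻¹))
      (2 * ((zof n (Complex.log (tc j s)))⁻¹ * ((dl n : ℂ) * ((tc j s)⁻¹ * s⁻¹))))
    have c3 := norm_add_le (deriv (Sn n) (zof n (Complex.log (tc j s))) * ((dl n : ℂ) * ((tc j s)⁻¹ * s⁻¹)))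
      (deriv II (Complex.log (tc j s)) * ((tc j s)⁻¹ * s⁻¹))
    linarith
  refine le_trans key ?_
  have e3 : τ * (1 / ‖s‖) ≤ 1 / 12 * (1 / ‖s‖) := mul_le_mul_of_nonneg_right hτ1 (by positivity)
  have e4 : 2 / ‖s‖ = 2 * (1 / ‖s‖) := by ring
  rw [e4]
  have e5 : 0 < 1 / ‖s‖ := by positivity
  linarith

/-- real part of `gg`. -/
lemma gg_re {n : ℕ} {j : ℤ} {s : ℂ} :
    (gg n j s).re = (Sn n (zof n (Complex.log (tc j s))) + II (Complex.log (tc j s))).re +
      Real.log (dl n) - 2 * Real.log ‖zof n (Complex.log (tc j s))‖ - Real.log ‖tc j s‖ - Real.log ‖s‖ := by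
  unfold gg
  rw [Complex.sub_re, Complex.sub_re, Complex.sub_re, Complex.add_re, Complex.log_re, Complex.log_re,
    Complex.log_re, Complex.norm_real, Real.norm_eq_abs, abs_of_pos (dl_pos n)]
  have h : (2 * Complex.log (zof n (Complex.log (tc j s)))).re = 2 * Real.log ‖zof n (Complex.log (tc j s))‖ := by
    have : (2 : ℂ) = ((2 : ℝ) : ℂ) := by simp
    rw [this, Complex.re_ofReal_mul, Complex.log_re]
  rw [h]

lemma log_dl (n : ℕ) : Real.log (dl n) = -(n * Real.log 8) := by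
  unfold dl
  rw [Real.log_pow, one_div, Real.log_inv]
  ring

lemma gg_re_le {n : ℕ} (hn : 20 ≤ n) {j : ℤ} {s : ℂ} (h : SR s) :
    (gg n j s).re ≤ n + 6 - Real.log ‖s‖ := by
  have hT := h.TR j
  have hQ := hT.mem hn
  rw [gg_re, log_dl]
  have h1 := Sn_bound hn hQ
  have h2 := II_norm hT.log_re hT.log_im
  have h3 : (Sn n (zof n (Complex.log (tc j s))) + II (Complex.log (tc j s))).re ≤ 4 := by
    refine le_trans (Complex.re_le_norm _) (le_trans (norm_add_le _ _) ?_)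
    linarith
  have h4 := zof_norm_ge hQ
  have hy := yk_pos n
  have h5 : Real.log (yk n / 2) ≤ Real.log ‖zof n (Complex.log (tc j s))‖ := Real.log_le_log (by positivity) h4
  have h6 : Real.log (yk n / 2) = -(n * (2 * Real.log 2)) - Real.log 2 := by
    rw [Real.log_div hy.ne' (by norm_num)]
    unfold yk
    rw [Real.log_pow, one_div, Real.log_inv]
    have : Real.log 4 = 2 * Real.log 2 := by
      have h7 : (4 : ℝ) = 2 ^ 2 := by norm_num
      rw [h7, Real.log_pow]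
      norm_num
    rw [this]
    ring
  have h7 : Real.log 8 = 3 * Real.log 2 := by
    have h7 : (8 : ℝ) = 2 ^ 3 := by norm_num
    rw [h7, Real.log_pow]
    norm_num
  have h8 : 0 ≤ Real.log ‖tc j s‖ := Real.log_nonneg (by linarith [h.tc_norm_ge j])
  have h9 : Real.log 2 ≤ 1 := by linarith [Real.log_two_lt_d9]
  have h10 : (0:ℝ) ≤ n := Nat.cast_nonneg n
  rw [h7]
  have h11 : (n : ℝ) * Real.log 2 ≤ n * 1 := mul_le_mul_of_nonneg_left h9 h10
  nlinarith

lemma gg_re_ge {n : ℕ} (hn : 20 ≤ n) {j : ℤ} {s : ℂ} (h : SR s) {b R : ℝ}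
    (hz : ‖zof n (Complex.log (tc j s))‖ ≤ b + 1) (hR : ‖tc j s‖ ≤ R) :
    -(4 + 3 * n + 2 * b + R) - Real.log ‖s‖ ≤ (gg n j s).re := by
  have hT := h.TR j
  have hQ := hT.mem hn
  rw [gg_re, log_dl]
  have h1 := Sn_bound hn hQ
  have h2 := II_norm hT.log_re hT.log_im
  have h3 : -4 ≤ (Sn n (zof n (Complex.log (tc j s))) + II (Complex.log (tc j s))).re := by
    have h4 := (abs_le.mp (le_trans (Complex.abs_re_le_norm _) (norm_add_le (Sn n (zof n (Complex.log (tc j s)))) (II (Complex.log (tc j s)))))).1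
    linarith
  have h4 := zof_norm_ge hQ
  have hy := yk_pos n
  have h5 : Real.log ‖zof n (Complex.log (tc j s))‖ ≤ b := by
    have := Real.log_le_sub_one_of_pos (show 0 < ‖zof n (Complex.log (tc j s))‖ by linarith)
    linarith
  have h6 : Real.log ‖tc j s‖ ≤ R := by
    have := Real.log_le_sub_one_of_pos (show 0 < ‖tc j s‖ by linarith [h.tc_norm_ge j])
    linarith
  have h7 : Real.log 8 ≤ 3 := by
    have h7 : (8 : ℝ) = 2 ^ 3 := by norm_num
    rw [h7, Real.log_pow]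
    have h9 : Real.log 2 ≤ 1 := by linarith [Real.log_two_lt_d9]
    push_cast
    linarith
  have h10 : (0:ℝ) ≤ n := Nat.cast_nonneg n
  have h11 : (n : ℝ) * Real.log 8 ≤ n * 3 := mul_le_mul_of_nonneg_left h7 h10
  linarith

end Pool.Agent.MP_6f1701_an

end

section

open Complex MeasureTheory Set Filter Topology

namespace Pool.Agent.MP_6f1701_an

noncomputable def rho (x0 : ℝ) (n : ℕ) : ℝ := Real.exp (x0 * 8 ^ n)

lemma rho_pos (x0 : ℝ) (n : ℕ) : 0 < rho x0 n := Real.exp_pos _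

lemma dl_log_rho (x0 : ℝ) (n : ℕ) : dl n * Real.log (rho x0 n) = x0 := by
  unfold rho
  rw [Real.log_exp]
  have := dl_mul n
  linear_combination x0 * this

/-- points near `x0` where the function is large -/
def Good (x0 : ℝ) (n : ℕ) : Set ℂ := {z : ℂ | 0 < z.im ∧ ‖z - x0‖ ≤ 4 * yk n ∧ 2 ^ n ≤ ‖FF z‖}

structure Big (x0 : ℝ) (n : ℕ) : Prop where
  x0pos : 0 < x0
  hn : 20 ≤ n
  h1 : 2 * n + 30 ≤ rho x0 n
  h2 : 1000 * (4 + 3 * n + 2 * (x0 + 1) + 5 * rho x0 n) ≤ Real.exp (rho x0 n)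
  h3 : 1000 * Real.exp 4 ≤ rho x0 n
  riv : ∀ θ : ℝ, Real.cos θ = -1 → Real.pi ≤ |θ| → dl n * Real.log |θ| ≤ x0 + 1 →
      ∀ τ : ℝ, 0 ≤ τ → 5 * 2 ^ n ≤ ell (Phi n ((τ : ℂ) + θ * I)) ∧
        ‖Phi n ((τ : ℂ) + θ * I)‖ ≤ 21 * 4 ^ n
  neu : ∀ z : ℂ, 0 ≤ z.re → z.re ≤ x0 + 1 → z ∈ Qn n → Real.pi / 2 ≤ |(zt n z).im| →
      (1.1 ≤ (zt n z).re ∨ 100 ≤ |(zt n z).im|) →
      5 * 2 ^ n + 1 / 4 / ‖z‖ ≤ ell (FF z) ∧ ‖FF z‖ ≤ 20 * 4 ^ n

lemma log_four_le : Real.log 4 ≤ 2 := by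
  have h7 : (4 : ℝ) = 2 ^ 2 := by norm_num
  rw [h7, Real.log_pow]
  have := Real.log_two_lt_d9
  push_cast
  linarith

lemma Big.rho30 {x0 : ℝ} {n : ℕ} (H : Big x0 n) : 30 ≤ rho x0 n := by
  have := H.h1
  have h : (0:ℝ) ≤ n := Nat.cast_nonneg n
  linarith

lemma Big.near {x0 : ℝ} {n : ℕ} (H : Big x0 n) {t : ℂ} (ht : 0 ≤ t.re)
    (h1 : rho x0 n / 2 ≤ ‖t‖) (h2 : ‖t‖ ≤ 4 * rho x0 n) :
    TR t ∧ 0 < (zof n (Complex.log t)).im ∧ ‖zof n (Complex.log t) - x0‖ ≤ 4 * yk n ∧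
      |(zof n (Complex.log t)).re - x0| ≤ 2 * dl n := by
  have hr := H.rho30
  have hT : TR t := ⟨ht, by linarith [pi_le]⟩
  have hQ := hT.mem H.hn
  have hd := dl_pos n
  have hρ := rho_pos x0 n
  have hre : |(zof n (Complex.log t)).re - x0| ≤ 2 * dl n := by
    rw [zof_re, Complex.log_re]
    have e1 : dl n * Real.log ‖t‖ - x0 = dl n * (Real.log ‖t‖ - Real.log (rho x0 n)) := by
      have := dl_log_rho x0 n
      linear_combination this
    rw [e1, abs_mul, abs_of_pos hd, mul_comm]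
    apply mul_le_mul_of_nonneg_right _ hd.le
    have e2 : Real.log ‖t‖ - Real.log (rho x0 n) = Real.log (‖t‖ / rho x0 n) := by
      rw [Real.log_div (by linarith [Real.pi_pos, hT.norm]) hρ.ne']
    rw [e2, abs_le]
    have e3 : (1 : ℝ) / 4 ≤ ‖t‖ / rho x0 n := by
      rw [le_div_iff₀ hρ]; linarith
    have e4 : ‖t‖ / rho x0 n ≤ 4 := by
      rw [div_le_iff₀ hρ]; linarith
    have e5 := Real.log_le_log (by norm_num) e3
    have e6 := Real.log_le_log (by linarith) e4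
    rw [one_div, Real.log_inv] at e5
    constructor <;> linarith [log_four_le]
  have him := abs_le.mp (zof_close H.hn (ζ := Complex.log t) (by linarith [hT.log_im, pi_le]))
  refine ⟨hT, Qn_im_pos hQ, ?_, hre⟩
  have h3 := Complex.norm_le_abs_re_add_abs_im (zof n (Complex.log t) - x0)
  have e1 : (zof n (Complex.log t) - x0).re = (zof n (Complex.log t)).re - x0 := by simp
  have e2 : (zof n (Complex.log t) - x0).im = (zof n (Complex.log t)).im := by simp
  rw [e1, e2, abs_of_pos (Qn_im_pos hQ)] at h3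
  linarith [him.2, dl_small H.hn, yk_pos n]

noncomputable def PP (x0 : ℝ) (n : ℕ) (θ : ℝ) : ℂ := zof n (Complex.log (((rho x0 n : ℝ) : ℂ) + θ * I))

noncomputable def CC (x0 : ℝ) (n : ℕ) (j : ℤ) : ℂ :=
  zof n (Complex.log (tc j ((2 * Real.exp (rho x0 n) : ℝ) : ℂ)))

lemma cos_river (j : ℤ) {σ : ℝ} (hσ : σ = 1 ∨ σ = -1) : Real.cos (2 * Real.pi * j + σ * Real.pi) = -1 := by
  have h : 2 * Real.pi * (j : ℝ) + σ * Real.pi = σ * Real.pi + j * (2 * Real.pi) := by ring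
  rw [h, Real.cos_add_int_mul_two_pi]
  rcases hσ with rfl | rfl
  · rw [one_mul, Real.cos_pi]
  · rw [neg_one_mul, Real.cos_neg, Real.cos_pi]

lemma abs_river (j : ℤ) {σ : ℝ} (hσ : σ = 1 ∨ σ = -1) : Real.pi ≤ |2 * Real.pi * j + σ * Real.pi| := by
  have hp := Real.pi_pos
  have h : 2 * Real.pi * (j : ℝ) + σ * Real.pi = Real.pi * (2 * j + σ) := by ring
  rw [h, abs_mul, abs_of_pos hp]
  have h1 : (1 : ℝ) ≤ |2 * (j : ℝ) + σ| := by
    rcases hσ with rfl | rfl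
    · have : (2 * (j : ℝ) + 1) = ((2 * j + 1 : ℤ) : ℝ) := by push_cast; ring
      rw [this, ← Int.cast_abs]
      have : (1 : ℤ) ≤ |2 * j + 1| := Int.one_le_abs (by omega)
      exact_mod_cast this
    · have : (2 * (j : ℝ) + -1) = ((2 * j - 1 : ℤ) : ℝ) := by push_cast; ring
      rw [this, ← Int.cast_abs]
      have : (1 : ℤ) ≤ |2 * j - 1| := Int.one_le_abs (by omega)
      exact_mod_cast this
  nlinarith

/-- facts about a river value -/
lemma Big.W {x0 : ℝ} {n : ℕ} (H : Big x0 n) {θ : ℝ} (hc : Real.cos θ = -1) (h1 : Real.pi ≤ |θ|)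
    (h2 : |θ| ≤ 2 * rho x0 n) {τ : ℝ} (hτ : 0 ≤ τ) :
    10 / 3 * 2 ^ n ≤ ‖Phi n ((τ : ℂ) + θ * I)‖ ∧ ‖Phi n ((τ : ℂ) + θ * I)‖ ≤ 21 * 4 ^ n := by
  have hρ := rho_pos x0 n
  have hd := dl_pos n
  have h3 : dl n * Real.log |θ| ≤ x0 + 1 := by
    have h4 : Real.log |θ| ≤ Real.log 2 + Real.log (rho x0 n) := by
      rw [← Real.log_mul (by norm_num) hρ.ne']
      exact Real.log_le_log (by linarith [Real.pi_pos]) h2
    have h5 : dl n * Real.log |θ| ≤ dl n * (Real.log 2 + Real.log (rho x0 n)) :=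
      mul_le_mul_of_nonneg_left h4 hd.le
    rw [mul_add, dl_log_rho] at h5
    have h6 : dl n * Real.log 2 ≤ 1 * 1 := by
      apply mul_le_mul _ (by linarith [Real.log_two_lt_d9]) (Real.log_nonneg (by norm_num)) (by norm_num)
      unfold dl
      exact pow_le_one₀ (by norm_num) (by norm_num)
    linarith
  obtain ⟨h4, h5⟩ := H.riv θ hc h1 h3 τ hτ
  refine ⟨?_, h5⟩
  have h6 := ell_le_norm (Phi n ((τ : ℂ) + θ * I))
  linarith

/-- the box around the river near `ρ` -/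
lemma Big.box {x0 : ℝ} {n : ℕ} (H : Big x0 n) {θ : ℝ} (hc : Real.cos θ = -1) (h1 : Real.pi ≤ |θ|)
    (h2 : |θ| ≤ 2 * rho x0 n) {t : ℂ} (h3 : rho x0 n ≤ t.re) (h4 : t.re ≤ rho x0 n + 1)
    (h5 : |t.im - θ| ≤ Real.pi / 2) :
    ‖Phi n t - Phi n (((rho x0 n : ℝ) : ℂ) + θ * I)‖ ≤ ‖Phi n (((rho x0 n : ℝ) : ℂ) + θ * I)‖ / 10 ∧
    zof n (Complex.log t) ∈ Good x0 n := by
  have hρ := rho_pos x0 n
  have hr := H.rho30
  have hW := H.W hc h1 h2 hρ.le
  have hb := river_box H.hn hc (ρ := rho x0 n) (by linarith [pi_le]) h3 h5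
  have h6 : ‖t - (((rho x0 n : ℝ) : ℂ) + θ * I)‖ ≤ 3 := by
    refine le_trans (Complex.norm_le_abs_re_add_abs_im _) ?_
    have e1 : (t - (((rho x0 n : ℝ) : ℂ) + θ * I)).re = t.re - rho x0 n := by simp
    have e2 : (t - (((rho x0 n : ℝ) : ℂ) + θ * I)).im = t.im - θ := by simp
    rw [e1, e2, abs_of_nonneg (by linarith)]
    linarith [pi_le]
  have h7 : 4 * Real.exp 4 * 2 ^ n / rho x0 n * ‖t - (((rho x0 n : ℝ) : ℂ) + θ * I)‖ ≤ 1 / 10 * 2 ^ n := by
    have e1 : 4 * Real.exp 4 * 2 ^ n / rho x0 n ≤ 4 / 1000 * 2 ^ n := by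
      rw [div_le_iff₀ hρ]
      have h3 := H.h3
      have : (0:ℝ) < 2 ^ n := by positivity
      nlinarith
    have e2 : (0:ℝ) < 2 ^ n := by positivity
    calc _ ≤ (4 / 1000 * 2 ^ n) * 3 := mul_le_mul e1 h6 (norm_nonneg _) (by positivity)
      _ ≤ _ := by linarith
  have h8 : (0:ℝ) < 2 ^ n := by positivity
  have hmain : ‖Phi n t - Phi n (((rho x0 n : ℝ) : ℂ) + θ * I)‖ ≤ ‖Phi n (((rho x0 n : ℝ) : ℂ) + θ * I)‖ / 10 := by
    linarith [hW.1]
  refine ⟨hmain, ?_⟩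
  have hnt1 : rho x0 n ≤ ‖t‖ := le_trans h3 (le_trans (le_abs_self _) (norm_ge_re t))
  have hnt2 : ‖t‖ ≤ 4 * rho x0 n := by
    refine le_trans (Complex.norm_le_abs_re_add_abs_im _) ?_
    rw [abs_of_nonneg (by linarith)]
    have e1 : |t.im| ≤ |t.im - θ| + |θ| := by
      have := abs_add_le (t.im - θ) θ
      simpa using this
    linarith [pi_le]
  obtain ⟨_, f2, f3, _⟩ := H.near (by linarith) (by linarith) hnt2
  refine ⟨f2, f3, ?_⟩
  have e3 : ‖Phi n (((rho x0 n : ℝ) : ℂ) + θ * I)‖ ≤ ‖Phi n t - Phi n (((rho x0 n : ℝ) : ℂ) + θ * I)‖ + ‖Phi n t‖ := by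
    have := norm_sub_le (Phi n t) (Phi n t - Phi n (((rho x0 n : ℝ) : ℂ) + θ * I))
    rw [sub_sub_cancel] at this
    linarith
  show 2 ^ n ≤ ‖Phi n t‖
  linarith [hW.1]

set_option maxHeartbeats 4000000 in
lemma Big.half {x0 : ℝ} {n : ℕ} (H : Big x0 n) {j : ℤ} {σ : ℝ} (hσ : σ = 1 ∨ σ = -1)
    (hj : |2 * Real.pi * (j : ℝ)| + Real.pi ≤ 2 * rho x0 n) :
    JoinedIn (Good x0 n) (PP x0 n (2 * Real.pi * j + σ * Real.pi)) (CC x0 n j) := by
  set ρ := rho x0 n with hρdef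
  set κ0 : ℝ := Real.exp ρ with hκ0
  set θ : ℝ := 2 * Real.pi * j + σ * Real.pi with hθ
  have hσa : |σ| = 1 := by rcases hσ with rfl | rfl <;> norm_num
  have hρ : 0 < ρ := rho_pos x0 n
  have hr : 30 ≤ ρ := H.rho30
  have hpi := Real.pi_pos
  have hpi2 := pi_le
  have hκpos : 0 < κ0 := Real.exp_pos _
  have hc : Real.cos θ = -1 := cos_river j hσ
  have h1 : Real.pi ≤ |θ| := abs_river j hσ
  have h2 : |θ| ≤ 2 * ρ := by
    rw [hθ]
    refine le_trans (abs_add_le _ _) ?_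
    rw [abs_mul σ, hσa, one_mul, abs_of_pos hpi]
    exact hj
  have hW := H.W hc h1 h2 hρ.le
  set W : ℂ := Phi n ((ρ : ℂ) + θ * I) with hWdef
  have h2n := two_pow_ge H.hn
  -- size of κ0
  have hκbig : Real.exp 30 ≤ κ0 := Real.exp_le_exp.mpr hr
  have he12 : Real.exp 12 ≤ 4 / 5 * κ0 := by
    have e1 : Real.exp 12 * Real.exp 18 = Real.exp 30 := by rw [← Real.exp_add]; norm_num
    have e2 : (19 : ℝ) ≤ Real.exp 18 := by have := Real.add_one_le_exp (18 : ℝ); linarith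
    have e3 := Real.exp_pos 12
    nlinarith
  have hSR : ∀ s : ℂ, 0 ≤ s.re → 4 / 5 * κ0 ≤ ‖s‖ → SR s := fun s a1 a2 => ⟨a1, le_trans he12 a2⟩
  have hκ2pi : κ0 + 2 * Real.pi ≤ κ0 * Real.exp 1 := by
    have e1 := Real.exp_one_gt_d9
    have e2 : (31 : ℝ) ≤ κ0 := by have := Real.add_one_le_exp (30 : ℝ); linarith
    nlinarith
  -- arguments on the imaginary axis
  have harg : ∀ κ : ℝ, 0 < κ → Complex.arg (((σ * κ : ℝ) : ℂ) * I) = σ * (Real.pi / 2) := by
    intro κ hκ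
    rcases hσ with rfl | rfl
    · have e1 : ((1 * κ : ℝ) : ℂ) * I = (κ : ℂ) * I := by push_cast; ring
      rw [e1, Complex.arg_real_mul _ hκ, Complex.arg_I, one_mul]
    · have e1 : ((-1 * κ : ℝ) : ℂ) * I = (κ : ℂ) * (-I) := by push_cast; ring
      rw [e1, Complex.arg_real_mul _ hκ, Complex.arg_neg_I]
      ring
  have hnormI : ∀ κ : ℝ, 0 < κ → ‖(((σ * κ : ℝ) : ℂ) * I)‖ = κ := by
    intro κ hκ
    rw [norm_mul, Complex.norm_I, mul_one, Complex.norm_real, Real.norm_eq_abs, abs_mul, hσa, one_mul, abs_of_pos hκ]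
  have hboxpt : ∀ κ ∈ Icc κ0 (κ0 + 2 * Real.pi), ρ ≤ (tc j (((σ * κ : ℝ) : ℂ) * I)).re ∧
      (tc j (((σ * κ : ℝ) : ℂ) * I)).re ≤ ρ + 1 ∧ |(tc j (((σ * κ : ℝ) : ℂ) * I)).im - θ| ≤ Real.pi / 2 := by
    intro κ hκ
    have hκ' : 0 < κ := lt_of_lt_of_le hκpos hκ.1
    rw [tc_re, tc_im, hnormI κ hκ', harg κ hκ']
    refine ⟨?_, ?_, ?_⟩
    · rw [Real.le_log_iff_exp_le hκ']
      exact hκ.1
    · rw [Real.log_le_iff_le_exp hκ', Real.exp_add]
      exact le_trans hκ.2 hκ2pi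
    · rw [hθ]
      have e1 : σ * (Real.pi / 2) + 2 * Real.pi * (j : ℝ) - (2 * Real.pi * (j : ℝ) + σ * Real.pi) = -(σ * (Real.pi / 2)) := by ring
      rw [e1, abs_neg, abs_mul, hσa, one_mul, abs_of_pos (by linarith)]
  -- application of the half cell lemma
  have hg0 : SR (((σ * κ0 : ℝ) : ℂ) * I) := by
    apply hSR
    · simp
    · rw [hnormI κ0 hκpos]; linarith
  have hTnorm : ∀ s : ℂ, 0 ≤ s.re → 4 / 5 * κ0 ≤ ‖s‖ → ‖s‖ ≤ 3 * κ0 →
      0 ≤ (tc j s).re ∧ ρ / 2 ≤ ‖tc j s‖ ∧ ‖tc j s‖ ≤ 4 * ρ := by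
    intro s a1 a2 a3
    have hs := hSR s a1 a2
    have hs0 : 0 < ‖s‖ := norm_pos_iff.mpr hs.ne
    have e1 : ρ - 1 ≤ (tc j s).re := by
      rw [tc_re, Real.le_log_iff_exp_le hs0, sub_eq_add_neg, Real.exp_add]
      refine le_trans ?_ a2
      have e2 : Real.exp (-1) ≤ 4 / 5 := by
        rw [Real.exp_neg, inv_le_comm₀ (Real.exp_pos 1) (by norm_num)]
        have := Real.exp_one_gt_d9
        linarith
      rw [mul_comm]
      exact mul_le_mul_of_nonneg_right e2 hκpos.le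
    have e2 : (tc j s).re ≤ ρ + 2 := by
      rw [tc_re, Real.log_le_iff_le_exp hs0, Real.exp_add]
      refine le_trans a3 ?_
      rw [mul_comm]
      apply mul_le_mul_of_nonneg_left _ hκpos.le
      have := Real.add_one_le_exp (2 : ℝ)
      linarith
    have e3 : |(tc j s).im| ≤ 2 * ρ := by
      rw [tc_im]
      refine le_trans (abs_add_le _ _) ?_
      have := Complex.abs_arg_le_pi_div_two_iff.mpr a1
      linarith
    refine ⟨by linarith, ?_, ?_⟩
    · refine le_trans ?_ (le_trans (le_abs_self _) (norm_ge_re _))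
      linarith
    · refine le_trans (Complex.norm_le_abs_re_add_abs_im _) ?_
      rw [abs_of_nonneg (by linarith)]
      linarith
  obtain ⟨κ, hκm, hJ⟩ := halfcell (Ψ := Psi n j) (g := gg n j) (g' := gg' n j) (κ0 := κ0) (W := W) hσ
    (Real.exp_le_exp.mpr (by linarith))
    (fun s a1 a2 _ => Psi_deriv H.hn (hSR s a1 a2))
    (fun s a1 a2 _ => ⟨gg_deriv H.hn (hSR s a1 a2), gg'_norm H.hn (hSR s a1 a2)⟩)
    (fun κ hκ => (H.box hc h1 h2 (hboxpt κ hκ).1 (hboxpt κ hκ).2.1 (hboxpt κ hκ).2.2).1)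
    (by linarith [hW.1])
    (by
      refine le_trans hW.2 ?_
      have e1 : κ0 / 1000 ≤ Real.exp (κ0 / 1000) := by
        have := Real.add_one_le_exp (κ0 / 1000)
        linarith
      refine le_trans ?_ e1
      rw [le_div_iff₀ (by norm_num)]
      have e2 : Real.exp (2 * n + 30) ≤ κ0 := Real.exp_le_exp.mpr H.h1
      refine le_trans ?_ e2
      rw [Real.exp_add]
      have e3 : (4:ℝ) ^ n ≤ Real.exp (2 * n) := by
        have e4 : Real.exp (2 * n) = (Real.exp 2) ^ n := by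
          rw [← Real.exp_nat_mul]; ring_nf
        rw [e4]
        apply pow_le_pow_left₀ (by norm_num)
        have e5 : Real.exp 2 = Real.exp 1 * Real.exp 1 := by rw [← Real.exp_add]; norm_num
        have e6 := Real.exp_one_gt_d9
        rw [e5]
        nlinarith
      have e4 : (21000 : ℝ) ≤ Real.exp 30 := by
        have e5 : Real.exp 30 = Real.exp 1 ^ 30 := by rw [← Real.exp_nat_mul]; norm_num
        have e6 := Real.exp_one_gt_d9
        have e7 : (2 : ℝ) ^ 30 ≤ Real.exp 1 ^ 30 := pow_le_pow_left₀ (by norm_num) (by linarith) 30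
        rw [e5]
        norm_num at e7
        linarith
      have e5 : (4:ℝ) ^ n * 21000 ≤ Real.exp (2 * n) * Real.exp 30 :=
        mul_le_mul e3 e4 (by norm_num) (Real.exp_pos _).le
      linarith)
    (by
      have hnz := hTnorm (((σ * κ0 : ℝ) : ℂ) * I) (by simp) (by rw [hnormI κ0 hκpos]; linarith)
        (by rw [hnormI κ0 hκpos]; linarith)
      obtain ⟨_, f2, f3, f4⟩ := H.near hnz.1 hnz.2.1 hnz.2.2
      have e1 : ‖zof n (Complex.log (tc j (((σ * κ0 : ℝ) : ℂ) * I)))‖ ≤ (x0 + 1) + 1 := by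
        have e2 : ‖zof n (Complex.log (tc j (((σ * κ0 : ℝ) : ℂ) * I)))‖ ≤
            ‖zof n (Complex.log (tc j (((σ * κ0 : ℝ) : ℂ) * I))) - x0‖ + ‖(x0 : ℂ)‖ := by
          have := norm_add_le (zof n (Complex.log (tc j (((σ * κ0 : ℝ) : ℂ) * I))) - x0) (x0 : ℂ)
          simpa using this
        rw [Complex.norm_real, Real.norm_eq_abs, abs_of_pos H.x0pos] at e2
        have e3 : 4 * yk n ≤ 1 := by
          have := yk_anti (show 1 ≤ n by linarith [H.hn])
          have e4 : yk 1 = 1 / 4 := by unfold yk; norm_num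
          rw [e4] at this
          linarith
        linarith
      have e5 := gg_re_ge H.hn hg0 e1 (R := 4 * ρ) hnz.2.2
      rw [hnormI κ0 hκpos] at e5
      have e6 : Real.log κ0 = ρ := Real.log_exp ρ
      rw [e6] at e5
      have e7 : 1000 * (4 + 3 * n + 2 * (x0 + 1) + 5 * ρ) ≤ κ0 := H.h2
      linarith)
    (by
      have e5 := gg_re_le H.hn (j := j) hg0
      rw [hnormI κ0 hκpos] at e5
      have e6 : Real.log κ0 = ρ := Real.log_exp ρ
      rw [e6] at e5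
      have e7 : 2 * n + 30 ≤ ρ := H.h1
      have e8 : (0:ℝ) ≤ n := Nat.cast_nonneg n
      linarith)
  -- push forward to the z plane
  have hcont : ContinuousOn (fun s : ℂ => zof n (Complex.log (tc j s)))
      {s : ℂ | 0 ≤ s.re ∧ 4 / 5 * κ0 ≤ ‖s‖ ∧ ‖s‖ ≤ 3 * κ0 ∧ ‖W‖ / 2 ≤ ‖Psi n j s‖} := by
    intro s hs
    have hS := hSR s hs.1 hs.2.1
    have c1 : ContinuousAt (tc j) s := (tc_deriv hS j).continuousAt
    have c2 : ContinuousAt Complex.log (tc j s) := (Complex.hasDerivAt_log (hS.TR j).slit).continuousAt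
    have c3 : ContinuousAt (fun s => Complex.log (tc j s)) s := ContinuousAt.comp c2 c1
    have c4 : ContinuousAt (zof n) (Complex.log (tc j s)) := (zof_deriv n _).continuousAt
    have c5 : ContinuousAt (fun s => zof n (Complex.log (tc j s))) s := ContinuousAt.comp (f := fun s => Complex.log (tc j s)) c4 c3
    exact c5.continuousWithinAt
  have hJ2 := hJ.map_continuousOn hcont
  have hsub : (fun s : ℂ => zof n (Complex.log (tc j s))) ''
      {s : ℂ | 0 ≤ s.re ∧ 4 / 5 * κ0 ≤ ‖s‖ ∧ ‖s‖ ≤ 3 * κ0 ∧ ‖W‖ / 2 ≤ ‖Psi n j s‖} ⊆ Good x0 n := by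
    rintro _ ⟨s, ⟨a1, a2, a3, a4⟩, rfl⟩
    obtain ⟨b1, b2, b3⟩ := hTnorm s a1 a2 a3
    obtain ⟨_, f2, f3, _⟩ := H.near b1 b2 b3
    refine ⟨f2, f3, ?_⟩
    show 2 ^ n ≤ ‖Psi n j s‖
    have : (0:ℝ) < 2 ^ n := by positivity
    linarith [hW.1]
  have hJ3 := hJ2.mono hsub
  -- the segment in the box
  set t1 : ℂ := tc j (((σ * κ : ℝ) : ℂ) * I) with ht1
  obtain ⟨q1, q2, q3⟩ := hboxpt κ hκm
  have hsegbox : ∀ t ∈ segment ℝ ((ρ : ℂ) + θ * I) t1, ρ ≤ t.re ∧ t.re ≤ ρ + 1 ∧ |t.im - θ| ≤ Real.pi / 2 := by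
    intro z hz
    rw [segment_eq_image'] at hz
    obtain ⟨r, hr, rfl⟩ := hz
    have e1 : ((ρ : ℂ) + θ * I + r • (t1 - ((ρ : ℂ) + θ * I))).re = ρ + r * (t1.re - ρ) := by simp
    have e2 : ((ρ : ℂ) + θ * I + r • (t1 - ((ρ : ℂ) + θ * I))).im = θ + r * (t1.im - θ) := by simp
    have e3 : 0 ≤ r * (t1.re - ρ) := mul_nonneg hr.1 (by linarith)
    have e4 : r * (t1.re - ρ) ≤ 1 * 1 := mul_le_mul hr.2 (by linarith) (by linarith) (by norm_num)
    refine ⟨?_, ?_, ?_⟩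
    · show ρ ≤ ((ρ : ℂ) + θ * I + r • (t1 - ((ρ : ℂ) + θ * I))).re
      rw [e1]; linarith
    · show ((ρ : ℂ) + θ * I + r • (t1 - ((ρ : ℂ) + θ * I))).re ≤ ρ + 1
      rw [e1]; linarith
    · show |((ρ : ℂ) + θ * I + r • (t1 - ((ρ : ℂ) + θ * I))).im - θ| ≤ Real.pi / 2
      rw [e2, add_sub_cancel_left, abs_mul, abs_of_nonneg hr.1]
      exact le_trans (mul_le_of_le_one_left (abs_nonneg _) hr.2) q3
  have hK1 : JoinedIn (segment ℝ ((ρ : ℂ) + θ * I) t1) ((ρ : ℂ) + θ * I) t1 :=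
    JoinedIn.of_segment_subset subset_rfl
  have hcont2 : ContinuousOn (fun t : ℂ => zof n (Complex.log t)) (segment ℝ ((ρ : ℂ) + θ * I) t1) := by
    intro t ht
    obtain ⟨b1, b2, b3⟩ := hsegbox t ht
    have hts : t ∈ slitPlane := Or.inl (by linarith)
    have c2 : ContinuousAt Complex.log t := (Complex.hasDerivAt_log hts).continuousAt
    have c4 : ContinuousAt (zof n) (Complex.log t) := (zof_deriv n _).continuousAt
    exact (ContinuousAt.comp (f := Complex.log) c4 c2).continuousWithinAt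
  have hK2 := hK1.map_continuousOn hcont2
  have hsub2 : (fun t : ℂ => zof n (Complex.log t)) '' (segment ℝ ((ρ : ℂ) + θ * I) t1) ⊆ Good x0 n := by
    rintro _ ⟨t, ht, rfl⟩
    obtain ⟨b1, b2, b3⟩ := hsegbox t ht
    exact (H.box hc h1 h2 b1 b2 b3).2
  have hK3 := hK2.mono hsub2
  exact hK3.trans hJ3

/-- crossing one cell -/
lemma Big.cell {x0 : ℝ} {n : ℕ} (H : Big x0 n) {j : ℤ}
    (hj : |2 * Real.pi * (j : ℝ)| + Real.pi ≤ 2 * rho x0 n) :
    JoinedIn (Good x0 n) (PP x0 n (2 * Real.pi * j + Real.pi)) (PP x0 n (2 * Real.pi * j - Real.pi)) := by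
  have h1 := H.half (j := j) (σ := 1) (Or.inl rfl) hj
  have h2 := H.half (j := j) (σ := -1) (Or.inr rfl) hj
  rw [one_mul] at h1
  rw [neg_one_mul, ← sub_eq_add_neg] at h2
  exact h1.trans h2.symm

end Pool.Agent.MP_6f1701_an

end

section

open Complex MeasureTheory Set Filter Topology

namespace Pool.Agent.MP_6f1701_an

lemma Big.chain {x0 : ℝ} {n : ℕ} (H : Big x0 n) {J : ℕ}
    (hJ : 2 * Real.pi * (J : ℝ) + Real.pi ≤ 2 * rho x0 n) :
    ∀ m : ℕ, m ≤ 2 * J → JoinedIn (Good x0 n) (PP x0 n (2 * Real.pi * J + Real.pi))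
      (PP x0 n (2 * Real.pi * ((J : ℝ) - m) - Real.pi)) := by
  have hp := Real.pi_pos
  have hcell : ∀ m : ℕ, m ≤ 2 * J → JoinedIn (Good x0 n)
      (PP x0 n (2 * Real.pi * ((J : ℝ) - m) + Real.pi)) (PP x0 n (2 * Real.pi * ((J : ℝ) - m) - Real.pi)) := by
    intro m hm
    have h1 := H.cell (j := (J : ℤ) - m) (by
      push_cast
      refine le_trans ?_ hJ
      have : |2 * Real.pi * ((J : ℝ) - m)| ≤ 2 * Real.pi * J := by
        rw [abs_mul, abs_of_pos (by linarith)]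
        apply mul_le_mul_of_nonneg_left _ (by linarith)
        have h2 : (m : ℝ) ≤ 2 * J := by exact_mod_cast hm
        rw [abs_le]
        constructor
        · linarith
        · have := Nat.cast_nonneg (α := ℝ) m
          linarith
      linarith)
    push_cast at h1
    exact h1
  intro m
  induction m with
  | zero =>
    intro h
    have := hcell 0 h
    simpa using this
  | succ m ih =>
    intro h
    have h1 := ih (by omega)
    have h2 := hcell (m + 1) h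
    have h3 : 2 * Real.pi * ((J : ℝ) - m) - Real.pi = 2 * Real.pi * ((J : ℝ) - (m + 1 : ℕ)) + Real.pi := by
      push_cast; ring
    rw [h3] at h1
    exact h1.trans h2

/-- along a river, from `Re t = ρ` to `Re t = 0` -/
lemma Big.riverPath {x0 : ℝ} {n : ℕ} (H : Big x0 n) {θ : ℝ} (hc : Real.cos θ = -1)
    (h1 : rho x0 n / 2 ≤ |θ|) (h2 : |θ| ≤ 2 * rho x0 n) :
    JoinedIn (Good x0 n) (PP x0 n θ) (zof n (Complex.log (((0 : ℝ) : ℂ) + θ * I))) := by
  set ρ := rho x0 n with hρdef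
  have hρ : 0 < ρ := rho_pos x0 n
  have hr : 30 ≤ ρ := H.rho30
  have hpi : Real.pi ≤ |θ| := by linarith [pi_le]
  have key : JoinedIn (Good x0 n) (zof n (Complex.log (((0 : ℝ) : ℂ) + θ * I))) (PP x0 n θ) := by
    apply JoinedIn.ofLine (f := fun r : ℝ => zof n (Complex.log (((r * ρ : ℝ) : ℂ) + θ * I)))
    · intro r hr
      have hT : TR (((r * ρ : ℝ) : ℂ) + θ * I) := TR_line hpi (mul_nonneg hr.1 hρ.le)
      have c1 : ContinuousAt (fun r : ℝ => (((r * ρ : ℝ) : ℂ) + θ * I)) r := by fun_prop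
      have c2 : ContinuousAt Complex.log (((r * ρ : ℝ) : ℂ) + θ * I) := (Complex.hasDerivAt_log hT.slit).continuousAt
      have c3 : ContinuousAt (fun r : ℝ => Complex.log (((r * ρ : ℝ) : ℂ) + θ * I)) r :=
        ContinuousAt.comp (f := fun r : ℝ => (((r * ρ : ℝ) : ℂ) + θ * I)) c2 c1
      have c4 : ContinuousAt (zof n) (Complex.log (((r * ρ : ℝ) : ℂ) + θ * I)) := (zof_deriv n _).continuousAt
      exact (ContinuousAt.comp (f := fun r : ℝ => Complex.log (((r * ρ : ℝ) : ℂ) + θ * I)) c4 c3).continuousWithinAt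
    · simp
    · simp [PP, hρdef]
    · rintro _ ⟨r, hr, rfl⟩
      have h0 : 0 ≤ r * ρ := mul_nonneg hr.1 hρ.le
      have hle : r * ρ ≤ ρ := mul_le_of_le_one_left hρ.le hr.2
      have hn1 : ρ / 2 ≤ ‖(((r * ρ : ℝ) : ℂ) + θ * I)‖ := le_trans h1 norm_line_ge
      have hn2 : ‖(((r * ρ : ℝ) : ℂ) + θ * I)‖ ≤ 4 * ρ := by
        refine le_trans (norm_add_le _ _) ?_
        rw [norm_mul, Complex.norm_I, mul_one, Complex.norm_real, Complex.norm_real, Real.norm_eq_abs,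
          Real.norm_eq_abs, abs_of_nonneg h0]
        linarith
      obtain ⟨_, f2, f3, _⟩ := H.near (t := (((r * ρ : ℝ) : ℂ) + θ * I)) (by simpa using h0) hn1 hn2
      refine ⟨f2, f3, ?_⟩
      have hW := (H.W hc hpi h2 h0).1
      show 2 ^ n ≤ ‖Phi n (((r * ρ : ℝ) : ℂ) + θ * I)‖
      have : (0:ℝ) < 2 ^ n := by positivity
      linarith
  exact key.symm

/-- membership in `Good` from the neutral estimate. -/
lemma Big.good_of_neutral {x0 : ℝ} {n : ℕ} (H : Big x0 n) {z : ℂ} (h0 : 0 ≤ z.re)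
    (h1 : |z.re - x0| ≤ 2 * dl n) (hQ : z ∈ Qn n) (h3 : Real.pi / 2 ≤ |(zt n z).im|)
    (h4 : 1.1 ≤ (zt n z).re ∨ 100 ≤ |(zt n z).im|) : z ∈ Good x0 n := by
  have hd1 : dl n ≤ 1 / 2 := by
    have := dl_small H.hn
    have := yk_le_one n
    linarith
  have h5 := H.neu z h0 (by linarith [(abs_le.mp h1).2]) hQ h3 h4
  have him := Qn_im_pos hQ
  refine ⟨him, ?_, ?_⟩
  · have h6 := Complex.norm_le_abs_re_add_abs_im (z - x0)
    have e1 : (z - x0).re = z.re - x0 := by simp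
    have e2 : (z - x0).im = z.im := by simp
    rw [e1, e2, abs_of_pos him] at h6
    linarith [hQ.2, dl_small H.hn, yk_pos n]
  · have h6 := ell_le_norm (FF z)
    have h7 : (0:ℝ) < 2 ^ n := by positivity
    have h8 : 0 ≤ 1 / 4 / ‖z‖ := by positivity
    linarith [h5.1]

/-- exit from a river: vertical then horizontal. `σ = 1` up, `σ = -1` down. -/
lemma Big.exit {x0 : ℝ} {n : ℕ} (H : Big x0 n) {θ σ Y : ℝ} (hσ : σ = 1 ∨ σ = -1)
    (hθσ : 0 < σ * θ) (h1 : rho x0 n / 2 ≤ |θ|) (h2 : |θ| ≤ 2 * rho x0 n)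
    (hY1 : yk n / 2 ≤ Y) (hY2 : Y ≤ 2 * yk n) (hY3 : 100 ≤ σ * (8 ^ n * (Y - yk n))) :
    JoinedIn (Good x0 n) (zof n (Complex.log (((0 : ℝ) : ℂ) + θ * I))) ((x0 : ℂ) + Y * I) := by
  set ρ := rho x0 n with hρdef
  have hρ : 0 < ρ := rho_pos x0 n
  have hr : 30 ≤ ρ := H.rho30
  have hpi : Real.pi ≤ |θ| := by linarith [pi_le]
  have hpp := Real.pi_pos
  have hσa : |σ| = 1 := by rcases hσ with rfl | rfl <;> norm_num
  have hσ2 : σ * σ = 1 := by rcases hσ with rfl | rfl <;> norm_num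
  set t0 : ℂ := ((0 : ℝ) : ℂ) + θ * I with ht0
  set V : ℂ := zof n (Complex.log t0) with hV
  have hT : TR t0 := TR_line hpi le_rfl
  have hn0 : ‖t0‖ = |θ| := by rw [ht0]; simp
  obtain ⟨_, f2, f3, f4⟩ := H.near (t := t0) (by simp [ht0]) (by rw [hn0]; exact h1) (by rw [hn0]; linarith)
  have hd := dl_pos n
  have h8 : (0:ℝ) < 8 ^ n := by positivity
  have hVre0 : 0 ≤ V.re := by
    rw [hV, zof_re]
    exact mul_nonneg hd.le (by linarith [hT.log_re])
  have hargs : (Complex.log t0).im = σ * (Real.pi / 2) := by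
    rw [Complex.log_im]
    have h5 : t0 = ((σ * θ : ℝ) : ℂ) * ((σ : ℂ) * I) := by
      rw [ht0]
      have : (σ : ℂ) * σ = 1 := by exact_mod_cast congrArg (fun t : ℝ => (t : ℂ)) hσ2
      push_cast
      linear_combination (-(θ : ℂ) * I) * this
    rw [h5, Complex.arg_real_mul _ hθσ]
    rcases hσ with rfl | rfl
    · simp [Complex.arg_I]
    · have : ((-1 : ℝ) : ℂ) * I = -I := by push_cast; ring
      rw [this, Complex.arg_neg_I]; ring
  have hVim : 8 ^ n * (V.im - yk n) = σ * (Real.pi / 2) := by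
    rw [hV, zof_im, hargs]
    have := dl_mul n
    linear_combination (σ * (Real.pi / 2)) * this
  have hVzt : (zt n V).re = (Complex.log t0).re := by rw [hV, zt_zof]
  -- vertical
  have hvert : JoinedIn (Good x0 n) V ((V.re : ℂ) + Y * I) := by
    apply JoinedIn.of_segment_subset
    intro z hz
    rw [segment_eq_image'] at hz
    obtain ⟨r, hr, rfl⟩ := hz
    set z : ℂ := V + r • (((V.re : ℂ) + Y * I) - V) with hzdef
    have e1 : z.re = V.re := by rw [hzdef]; simp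
    have e2 : z.im = V.im + r * (Y - V.im) := by rw [hzdef]; simp
    have e3 : 8 ^ n * (z.im - yk n) = (1 - r) * (8 ^ n * (V.im - yk n)) + r * (8 ^ n * (Y - yk n)) := by
      rw [e2]; ring
    have e4 : σ * (8 ^ n * (z.im - yk n)) = (1 - r) * (Real.pi / 2) + r * (σ * (8 ^ n * (Y - yk n))) := by
      rw [e3, hVim]
      linear_combination ((1 - r) * (Real.pi / 2)) * hσ2
    have e5 : Real.pi / 2 ≤ σ * (8 ^ n * (z.im - yk n)) := by
      rw [e4]
      have : r * (Real.pi / 2) ≤ r * (σ * (8 ^ n * (Y - yk n))) :=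
        mul_le_mul_of_nonneg_left (by linarith [pi_le]) hr.1
      linarith
    have e6 : Real.pi / 2 ≤ |(zt n z).im| := by
      rw [zt_im]
      have : |8 ^ n * (z.im - yk n)| = |σ * (8 ^ n * (z.im - yk n))| := by
        rw [abs_mul σ, hσa, one_mul]
      rw [this]
      exact le_trans e5 (le_abs_self _)
    have hVQ : V ∈ Qn n := hT.mem H.hn
    have e7 : z ∈ Qn n := by
      have g1 : z.im = (1 - r) * V.im + r * Y := by rw [e2]; ring
      have g2 : 0 ≤ 1 - r := by linarith [hr.2]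
      constructor
      · rw [g1]
        have a1 := mul_le_mul_of_nonneg_left hVQ.1 g2
        have a2 := mul_le_mul_of_nonneg_left hY1 hr.1
        linarith
      · rw [g1]
        have a1 := mul_le_mul_of_nonneg_left hVQ.2 g2
        have a2 := mul_le_mul_of_nonneg_left hY2 hr.1
        linarith
    apply H.good_of_neutral
    · show 0 ≤ z.re
      rw [e1]; exact hVre0
    · show |z.re - x0| ≤ 2 * dl n
      rw [e1]; exact f4
    · exact e7
    · exact e6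
    · left
      show 1.1 ≤ (zt n z).re
      rw [zt_re, e1, ← zt_re, hVzt]
      exact hT.log_re
  -- horizontal
  have hhor : JoinedIn (Good x0 n) ((V.re : ℂ) + Y * I) ((x0 : ℂ) + Y * I) := by
    apply JoinedIn.of_segment_subset
    intro z hz
    rw [segment_eq_image'] at hz
    obtain ⟨r, hr, rfl⟩ := hz
    set z : ℂ := ((V.re : ℂ) + Y * I) + r • (((x0 : ℂ) + Y * I) - ((V.re : ℂ) + Y * I)) with hzdef
    have e1 : z.re = V.re + r * (x0 - V.re) := by rw [hzdef]; simp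
    have e2 : z.im = Y := by rw [hzdef]; simp
    have e3 : 100 ≤ |(zt n z).im| := by
      rw [zt_im, e2]
      have : |8 ^ n * (Y - yk n)| = |σ * (8 ^ n * (Y - yk n))| := by
        rw [abs_mul σ, hσa, one_mul]
      rw [this]
      exact le_trans hY3 (le_abs_self _)
    apply H.good_of_neutral
    · show 0 ≤ z.re
      rw [e1]
      have g1 : V.re + r * (x0 - V.re) = (1 - r) * V.re + r * x0 := by ring
      rw [g1]
      have := H.x0pos
      have g2 : 0 ≤ 1 - r := by linarith [hr.2]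
      exact add_nonneg (mul_nonneg g2 hVre0) (mul_nonneg hr.1 this.le)
    · show |z.re - x0| ≤ 2 * dl n
      rw [e1]
      have g1 : V.re + r * (x0 - V.re) - x0 = (1 - r) * (V.re - x0) := by ring
      rw [g1, abs_mul, abs_of_nonneg (by linarith [hr.2])]
      refine le_trans (mul_le_of_le_one_left (abs_nonneg _) (by linarith [hr.1])) f4
    · exact ⟨by rw [e2]; exact hY1, by rw [e2]; exact hY2⟩
    · show Real.pi / 2 ≤ |(zt n z).im|
      linarith [pi_le]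
    · right; exact e3
  exact hvert.trans hhor

lemma Big.level {x0 : ℝ} {n : ℕ} (H : Big x0 n) :
    JoinedIn (Good x0 n) ((x0 : ℂ) + ((2 * yk n : ℝ) : ℂ) * I) ((x0 : ℂ) + ((yk n / 2 : ℝ) : ℂ) * I) := by
  set ρ := rho x0 n with hρdef
  have hρ : 0 < ρ := rho_pos x0 n
  have hr : 30 ≤ ρ := H.rho30
  have hpp := Real.pi_pos
  have hpl := pi_le
  set J : ℕ := ⌊ρ / (2 * Real.pi)⌋₊ with hJ
  have h1 : (J : ℝ) ≤ ρ / (2 * Real.pi) := Nat.floor_le (by positivity)
  have h2 : ρ / (2 * Real.pi) < J + 1 := Nat.lt_floor_add_one _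
  rw [le_div_iff₀ (by positivity)] at h1
  rw [div_lt_iff₀ (by positivity)] at h2
  set θ : ℝ := 2 * Real.pi * J + Real.pi with hθ
  have hθ1 : ρ / 2 ≤ θ := by rw [hθ]; nlinarith
  have hθ2 : θ ≤ 2 * ρ := by rw [hθ]; nlinarith
  have hθ0 : 0 < θ := by linarith
  have hc : Real.cos θ = -1 := by
    have := cos_river (J : ℤ) (σ := 1) (Or.inl rfl)
    rw [one_mul] at this
    exact_mod_cast this
  have hch := H.chain (J := J) (by rw [← hθ]; exact hθ2) (2 * J) le_rfl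
  have hneg : 2 * Real.pi * ((J : ℝ) - ((2 * J : ℕ) : ℝ)) - Real.pi = -θ := by
    rw [hθ]; push_cast; ring
  rw [hneg, ← hθ] at hch
  have hym := yk_mul n
  have h2n := two_pow_ge H.hn
  have hy := yk_pos n
  have r1 := H.riverPath hc (by rw [abs_of_pos hθ0]; exact hθ1) (by rw [abs_of_pos hθ0]; exact hθ2)
  have r2 := H.riverPath (θ := -θ) (by rw [Real.cos_neg]; exact hc) (by rw [abs_neg, abs_of_pos hθ0]; exact hθ1)
    (by rw [abs_neg, abs_of_pos hθ0]; exact hθ2)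
  have x1 := H.exit (θ := θ) (σ := 1) (Y := 2 * yk n) (Or.inl rfl) (by linarith)
    (by rw [abs_of_pos hθ0]; exact hθ1) (by rw [abs_of_pos hθ0]; exact hθ2) (by linarith) le_rfl
    (by
      have : 1 * (8 ^ n * (2 * yk n - yk n)) = 8 ^ n * yk n := by ring
      rw [this, hym]; linarith)
  have x2 := H.exit (θ := -θ) (σ := -1) (Y := yk n / 2) (Or.inr rfl) (by linarith)
    (by rw [abs_neg, abs_of_pos hθ0]; exact hθ1) (by rw [abs_neg, abs_of_pos hθ0]; exact hθ2) le_rfl (by linarith)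
    (by
      have : -1 * (8 ^ n * (yk n / 2 - yk n)) = 8 ^ n * yk n / 2 := by ring
      rw [this, hym]; linarith)
  exact ((x1.symm.trans r1.symm).trans hch).trans (r2.trans x2)

lemma rho_eventually {x0 : ℝ} (hx : 0 < x0) (C : ℝ) : ∀ᶠ n : ℕ in atTop, 2 * (n : ℝ) + C ≤ rho x0 n := by
  have h4 : Tendsto (fun n : ℕ => (4 : ℝ) ^ n) atTop atTop := tendsto_pow_atTop_atTop_of_one_lt (by norm_num)
  filter_upwards [h4.eventually_ge_atTop ((2 + |C|) / x0)] with n hn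
  rw [div_le_iff₀ hx] at hn
  have h1 : (1 : ℝ) ≤ 2 ^ n := one_le_pow₀ (by norm_num)
  have h2 : (n : ℝ) ≤ 2 ^ n := by exact_mod_cast (Nat.lt_two_pow_self (n := n)).le
  have h3 : (8 : ℝ) ^ n = 4 ^ n * 2 ^ n := by rw [← mul_pow]; norm_num
  have h5 := Real.add_one_le_exp (x0 * 8 ^ n)
  unfold rho
  have h6 : (2 + |C|) * 2 ^ n ≤ x0 * 8 ^ n := by
    rw [h3]
    have : (2 + |C|) * 2 ^ n ≤ (4 ^ n * x0) * 2 ^ n := mul_le_mul_of_nonneg_right hn (by positivity)
    linarith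
  have h7 : |C| ≤ |C| * 2 ^ n := le_mul_of_one_le_right (abs_nonneg C) h1
  have h8 := le_abs_self C
  linarith

lemma exp_eventually (A B : ℝ) : ∃ R : ℝ, ∀ r : ℝ, R ≤ r → A + B * r ≤ Real.exp r := by
  have h1 : Tendsto (fun r : ℝ => Real.exp r / r ^ 1) atTop atTop := Real.tendsto_exp_div_pow_atTop 1
  obtain ⟨R, hR⟩ := (h1.eventually_ge_atTop (|A| + |B|)).exists_forall_of_atTop
  refine ⟨max R 1, fun r hr => ?_⟩
  have h2 := hR r (le_trans (le_max_left _ _) hr)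
  have h3 : 1 ≤ r := le_trans (le_max_right _ _) hr
  rw [pow_one, le_div_iff₀ (by linarith)] at h2
  have h4 : A ≤ |A| * r := le_trans (le_abs_self A) (le_mul_of_one_le_right (abs_nonneg _) h3)
  have h5 : B * r ≤ |B| * r := mul_le_mul_of_nonneg_right (le_abs_self B) (by linarith)
  linarith

lemma big_eventually {x0 : ℝ} (hx : 0 < x0) : ∀ᶠ n : ℕ in atTop, Big x0 n := by
  have hb : 1 ≤ x0 + 1 := by linarith
  obtain ⟨R, hR⟩ := exp_eventually (1000 * (4 + 2 * (x0 + 1))) 8000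
  filter_upwards [eventually_ge_atTop 20, rho_eventually hx 30, rho_eventually hx R,
    rho_eventually hx (1000 * Real.exp 4), river hb, neutral hb] with n h0 h1 h2 h3 h4 h5
  have hn : (0:ℝ) ≤ n := Nat.cast_nonneg n
  refine ⟨hx, h0, h1, ?_, by linarith, h4, h5⟩
  have h6 := hR (rho x0 n) (by linarith)
  linarith

end Pool.Agent.MP_6f1701_an

end

section

open Complex MeasureTheory Set Filter Topology

namespace Pool.Agent.MP_6f1701_an

/-- Concatenation of infinitely many paths. -/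
lemma path_concat (p : ℕ → ℂ) (G : ℕ → Set ℂ) (h : ∀ n, JoinedIn (G n) (p n) (p (n + 1))) :
    ∃ γ : ℝ → ℂ, Continuous γ ∧ ∀ n : ℕ, ∀ u ∈ Icc (n : ℝ) (n + 1), γ u ∈ G n := by
  set P : ∀ n, Path (p n) (p (n + 1)) := fun n => (h n).somePath with hP
  have hPm : ∀ n t, (P n) t ∈ G n := fun n t => (h n).somePath_mem t
  set F : ℕ → ℝ → ℂ := fun N u => p 0 + ∑ n ∈ Finset.range N, ((P n).extend (u - n) - p n) with hF
  have hFc : ∀ N, Continuous (F N) := by
    intro N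
    apply Continuous.add continuous_const
    apply continuous_finsetSum
    intro n _
    exact ((P n).extend.continuous.comp (continuous_id.sub continuous_const)).sub continuous_const
  have hstep : ∀ (N : ℕ) (u : ℝ), u ≤ N → F (N + 1) u = F N u := by
    intro N u hu
    simp only [hF]
    rw [Finset.sum_range_succ, (P N).extend_of_le_zero (by linarith), sub_self, add_zero]
  have hstab : ∀ (k N : ℕ) (u : ℝ), u ≤ N → F (N + k) u = F N u := by
    intro k
    induction k with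
    | zero => intro N u _; rfl
    | succ k ih =>
      intro N u hu
      rw [← add_assoc, hstep (N + k) u (by push_cast; have := Nat.cast_nonneg (α := ℝ) k; linarith), ih N u hu]
  have hstab2 : ∀ (M N : ℕ) (u : ℝ), u ≤ N → u ≤ M → F M u = F N u := by
    intro M N u h1 h2
    rcases le_total M N with h3 | h3
    · obtain ⟨k, rfl⟩ := Nat.exists_eq_add_of_le h3
      exact (hstab k M u h2).symm
    · obtain ⟨k, rfl⟩ := Nat.exists_eq_add_of_le h3
      exact hstab k N u h1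
  set γ : ℝ → ℂ := fun u => F ⌈u⌉₊ u with hγ
  have hγeq : ∀ (N : ℕ) (u : ℝ), u ≤ N → γ u = F N u := fun N u hu =>
    hstab2 _ _ _ hu (Nat.le_ceil u)
  refine ⟨γ, ?_, ?_⟩
  · rw [continuous_iff_continuousAt]
    intro u
    obtain ⟨N, hN⟩ := exists_nat_gt u
    have h1 : γ =ᶠ[𝓝 u] F N := by
      filter_upwards [Iio_mem_nhds hN] with w hw
      exact hγeq N w (le_of_lt hw)
    exact (hFc N).continuousAt.congr h1.symm
  · intro n u hu
    rw [hγeq (n + 1) u (by push_cast; exact hu.2)]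
    have htel : F (n + 1) u = (P n).extend (u - n) := by
      simp only [hF]
      rw [Finset.sum_range_succ]
      have h1 : ∑ k ∈ Finset.range n, ((P k).extend (u - k) - p k) = ∑ k ∈ Finset.range n, (p (k + 1) - p k) := by
        apply Finset.sum_congr rfl
        intro k hk
        rw [Finset.mem_range] at hk
        rw [(P k).extend_of_one_le]
        have : (k : ℝ) + 1 ≤ n := by exact_mod_cast hk
        linarith [hu.1]
      rw [h1, Finset.sum_range_sub]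
      ring
    rw [htel, (P n).extend_apply ⟨by linarith [hu.1], by linarith [hu.2]⟩]
    exact hPm n _

lemma reparam_tendsto : Tendsto (fun t : ℝ => t / (1 - t)) (𝓝[<] (1 : ℝ)) atTop := by
  have h1 : Tendsto (fun t : ℝ => 1 - t) (𝓝[<] (1 : ℝ)) (𝓝[>] (0 : ℝ)) := by
    rw [tendsto_nhdsWithin_iff]
    constructor
    · have : Tendsto (fun t : ℝ => 1 - t) (𝓝 (1 : ℝ)) (𝓝 (1 - 1)) := by
        apply Continuous.tendsto; fun_prop
      rw [sub_self] at this
      exact this.mono_left nhdsWithin_le_nhds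
    · filter_upwards [self_mem_nhdsWithin] with t ht
      have : t < 1 := ht
      show 0 < 1 - t
      linarith
  have h2 : Tendsto (fun t : ℝ => (1 - t)⁻¹) (𝓝[<] (1 : ℝ)) atTop := tendsto_inv_nhdsGT_zero.comp h1
  have h3 : Tendsto (fun t : ℝ => t) (𝓝[<] (1 : ℝ)) (𝓝 1) := tendsto_id.mono_left nhdsWithin_le_nhds
  have h4 := h3.pos_mul_atTop one_pos h2
  refine h4.congr (fun t => ?_)
  rw [div_eq_mul_inv]

/-- Asymptotic path at a positive real point. -/
lemma path_pos {x0 : ℝ} (hx : 0 < x0) : ∃ γ : ℝ → ℂ, ContinuousOn γ (Ico 0 1) ∧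
    (∀ t ∈ Ico (0 : ℝ) 1, 0 < (γ t).im) ∧ Tendsto γ (𝓝[<] (1 : ℝ)) (𝓝 (x0 : ℂ)) ∧
    Tendsto (fun t => ‖FF (γ t)‖) (𝓝[<] (1 : ℝ)) atTop := by
  obtain ⟨N, hN⟩ := (big_eventually hx).exists_forall_of_atTop
  set p : ℕ → ℂ := fun n => (x0 : ℂ) + ((2 * yk (N + n) : ℝ) : ℂ) * I with hp
  have hp1 : ∀ n, p (n + 1) = (x0 : ℂ) + ((yk (N + n) / 2 : ℝ) : ℂ) * I := by
    intro n
    simp only [hp]
    have : 2 * yk (N + (n + 1)) = yk (N + n) / 2 := by
      rw [← add_assoc, yk_succ]; ring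
    rw [this]
  obtain ⟨γ, hγc, hγ⟩ := path_concat p (fun n => Good x0 (N + n)) (fun n => by
    rw [hp1]
    exact (hN (N + n) (by omega)).level)
  have hfl : ∀ u : ℝ, 0 ≤ u → γ u ∈ Good x0 (N + ⌊u⌋₊) := fun u hu =>
    hγ ⌊u⌋₊ u ⟨Nat.floor_le hu, (Nat.lt_floor_add_one u).le⟩
  have hft : Tendsto (fun u : ℝ => N + ⌊u⌋₊) atTop atTop :=
    tendsto_atTop_mono (fun u => Nat.le_add_left _ _) tendsto_nat_floor_atTop
  have hlim : Tendsto γ atTop (𝓝 (x0 : ℂ)) := by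
    rw [tendsto_iff_norm_sub_tendsto_zero]
    have h1 : Tendsto (fun u : ℝ => 4 * yk (N + ⌊u⌋₊)) atTop (𝓝 0) := by
      have := (yk_tendsto.comp hft).const_mul 4
      rw [mul_zero] at this
      exact this
    refine squeeze_zero' (Eventually.of_forall (fun u => norm_nonneg _)) ?_ h1
    filter_upwards [eventually_ge_atTop 0] with u hu
    exact (hfl u hu).2.1
  have hbig : Tendsto (fun u => ‖FF (γ u)‖) atTop atTop := by
    have h1 : Tendsto (fun u : ℝ => (2 : ℝ) ^ (N + ⌊u⌋₊)) atTop atTop :=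
      (tendsto_pow_atTop_atTop_of_one_lt (by norm_num)).comp hft
    apply tendsto_atTop_mono' _ _ h1
    filter_upwards [eventually_ge_atTop 0] with u hu
    exact (hfl u hu).2.2
  refine ⟨fun t => γ (t / (1 - t)), ?_, ?_, hlim.comp reparam_tendsto, hbig.comp reparam_tendsto⟩
  · apply hγc.comp_continuousOn
    apply ContinuousOn.div continuousOn_id (by fun_prop)
    intro t ht
    have := ht.2
    intro h0
    linarith
  · intro t ht
    exact (hfl (t / (1 - t)) (div_nonneg ht.1 (by linarith [ht.2]))).1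

/-- near a negative real point the derivative is bounded. -/
lemma SS_bound_neg {r : ℝ} (hr : 0 < r) : ∃ C : ℝ, ∀ z : ℂ, 0 < z.im → z.re ≤ -r → ‖SS z‖ ≤ C := by
  have hsum : Summable (fun k : ℕ => 3 / (8 ^ (k + 20) * r)) := by
    have h := (summable_geometric_of_lt_one (r := (1/8 : ℝ)) (by norm_num) (by norm_num)).mul_left (3 / (8 ^ 20 * r))
    refine h.congr (fun k => ?_)
    rw [pow_add, one_div, inv_pow]
    field_simp
  refine ⟨∑' k : ℕ, 3 / (8 ^ (k + 20) * r), fun z _ hzr => ?_⟩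
  have h4 : ∀ k : ℕ, ‖EE (zt (k + 20) z)‖ ≤ 3 / (8 ^ (k + 20) * r) := by
    intro k
    apply EE_le_re (by positivity)
    rw [zt_re]
    have : (8:ℝ) ^ (k + 20) * z.re ≤ 8 ^ (k + 20) * (-r) := mul_le_mul_of_nonneg_left hzr (by positivity)
    linarith
  exact tsum_of_norm_bounded hsum.hasSum h4

/-- Asymptotic path at a negative real point. -/
lemma path_neg {x0 : ℝ} (hx : x0 < 0) : ∃ γ : ℝ → ℂ, ContinuousOn γ (Ico 0 1) ∧
    (∀ t ∈ Ico (0 : ℝ) 1, 0 < (γ t).im) ∧ Tendsto γ (𝓝[<] (1 : ℝ)) (𝓝 (x0 : ℂ)) ∧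
    ∃ w : ℂ, Tendsto (fun t => FF (γ t)) (𝓝[<] (1 : ℝ)) (𝓝 w) := by
  obtain ⟨C, hC⟩ := SS_bound_neg (r := -x0) (by linarith)
  set γ : ℝ → ℂ := fun t => (x0 : ℂ) + ((1 - t : ℝ) : ℂ) * I with hγ
  have hγc : Continuous γ := by
    simp only [hγ]
    fun_prop
  have hre : ∀ t, (γ t).re = x0 := by intro t; simp [hγ]
  have him : ∀ t, (γ t).im = 1 - t := by intro t; simp [hγ]
  refine ⟨γ, hγc.continuousOn, ?_, ?_, ?_⟩
  · intro t ht
    rw [him]
    linarith [ht.2]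
  · have h1 : Tendsto γ (𝓝 1) (𝓝 (γ 1)) := hγc.tendsto 1
    have h2 : γ 1 = (x0 : ℂ) := by simp [hγ]
    rw [h2] at h1
    exact h1.mono_left nhdsWithin_le_nhds
  · -- Cauchy
    set K : ℝ := Real.exp C / x0 ^ 2 with hK
    have hx2 : 0 < x0 ^ 2 := by nlinarith
    have hK0 : 0 ≤ K := by positivity
    have hlip : ∀ s ∈ Iio (1:ℝ), ∀ t ∈ Iio (1:ℝ), ‖FF (γ t) - FF (γ s)‖ ≤ K * |t - s| := by
      intro s hs t ht
      have hs1 : s < 1 := hs
      have ht1 : t < 1 := ht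
      have hseg : ∀ z ∈ segment ℝ (γ s) (γ t), z.re = x0 ∧ 0 < z.im := by
        intro z hz
        rw [segment_eq_image'] at hz
        obtain ⟨r, hr, rfl⟩ := hz
        constructor
        · show (γ s + r • (γ t - γ s)).re = x0
          rw [Complex.add_re, Complex.real_smul, Complex.re_ofReal_mul, Complex.sub_re, hre, hre]
          ring
        · show 0 < (γ s + r • (γ t - γ s)).im
          rw [Complex.add_im, Complex.real_smul, Complex.im_ofReal_mul, Complex.sub_im, him, him]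
          have g1 : 1 - s + r * (1 - t - (1 - s)) = (1 - r) * (1 - s) + r * (1 - t) := by ring
          rw [g1]
          rcases eq_or_lt_of_le hr.1 with h0 | h0
          · rw [← h0]; simp; linarith
          · have a1 : 0 ≤ (1 - r) * (1 - s) := mul_nonneg (by linarith [hr.2]) (by linarith)
            have a2 : 0 < r * (1 - t) := mul_pos h0 (by linarith)
            linarith
      have h1 := seg_bound (f := FF) (f' := dF) (p := γ s) (q := γ t) (C := K)
        (fun z hz => FF_deriv (hseg z hz).2)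
        (fun z hz => by
          obtain ⟨e1, e2⟩ := hseg z hz
          unfold dF
          rw [norm_div, norm_pow, hK]
          apply div_le_div₀ (Real.exp_pos _).le
          · refine le_trans (Complex.norm_exp_le_exp_norm _) (Real.exp_le_exp.mpr ?_)
            exact hC z e2 (by rw [e1]; linarith)
          · exact hx2
          · rw [normSq_eq', e1]
            nlinarith [sq_nonneg z.im])
      refine le_trans h1 ?_
      apply mul_le_mul_of_nonneg_left _ hK0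
      have h2 : γ t - γ s = ((s - t : ℝ) : ℂ) * I := by
        simp only [hγ]; push_cast; ring
      rw [h2, norm_mul, Complex.norm_I, mul_one, Complex.norm_real, Real.norm_eq_abs, abs_sub_comm]
    have hcau : Cauchy (map (fun t => FF (γ t)) (𝓝[<] (1 : ℝ))) := by
      rw [Metric.cauchy_iff]
      refine ⟨inferInstance, fun ε hε => ?_⟩
      set η : ℝ := ε / (2 * (K + 1)) with hη
      have hη0 : 0 < η := by positivity
      refine ⟨(fun t => FF (γ t)) '' (Ioo (1 - η) 1), ?_, ?_⟩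
      · apply image_mem_map
        exact Ioo_mem_nhdsLT (by linarith)
      · rintro _ ⟨s, hs, rfl⟩ _ ⟨t, ht, rfl⟩
        rw [dist_eq_norm]
        have h1 := hlip t ht.2 s hs.2
        refine lt_of_le_of_lt h1 ?_
        have h2 : |s - t| ≤ η := by
          rw [abs_le]
          constructor <;> linarith [hs.1, hs.2, ht.1, ht.2]
        have h3 : K * |s - t| ≤ K * η := mul_le_mul_of_nonneg_left h2 hK0
        have h4 : K * η < ε := by
          rw [hη, mul_div_assoc', div_lt_iff₀ (by positivity)]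
          nlinarith
        linarith
    obtain ⟨w, hw⟩ := cauchy_map_iff_exists_tendsto.mp hcau
    exact ⟨w, hw⟩

end Pool.Agent.MP_6f1701_an

end

section

open Complex MeasureTheory Set Filter Topology

namespace Pool.Agent.MP_6f1701_an

lemma Cai_contAt {z : ℂ} (hz : 0 ≤ z.im) : ContinuousAt Cai z :=
  (Cai_deriv (add_I_ne hz)).continuousAt

lemma Cai_Cay' {w : ℂ} (hw : w ≠ 1) : Cai (Cay w) = w := by
  have h1 : 1 - w ≠ 0 := sub_ne_zero.mpr hw.symm
  have h2 : Cay w + I ≠ 0 := by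
    have : Cay w + I = 2 * I / (1 - w) := by
      unfold Cay
      field_simp
      ring
    rw [this]
    exact div_ne_zero (by simp) h1
  unfold Cai
  rw [div_eq_iff h2]
  unfold Cay
  field_simp
  ring

lemma Cay_real {w : ℂ} (hw : ‖w‖ = 1) (hw1 : w ≠ 1) : Cay w = (((Cay w).re : ℝ) : ℂ) := by
  have h1 : 1 - w ≠ 0 := sub_ne_zero.mpr hw1.symm
  have h2 : Cay w = ((1 / Complex.normSq (1 - w) : ℝ) : ℂ) * (I * (1 + w) * (starRingEnd ℂ) (1 - w)) := by
    unfold Cay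
    rw [div_eq_mul_inv, Complex.inv_def]
    push_cast
    ring
  have h4 : (I * (1 + w) * (starRingEnd ℂ) (1 - w)).im = 1 - (w.re ^ 2 + w.im ^ 2) := by
    simp
    ring
  have h5 : w.re ^ 2 + w.im ^ 2 = 1 := by
    rw [← normSq_eq', hw]
    norm_num
  have h6 : (Cay w).im = 0 := by
    rw [h2, Complex.im_ofReal_mul, h4, h5]
    simp
  apply Complex.ext
  · simp
  · rw [h6]; simp

/-- Conclusion at a boundary point different from `±1`. -/
lemma asym_point {ζ : ℂ} (h0 : ‖ζ‖ = 1) (h1 : ζ ≠ 1) (h2 : ζ ≠ -1) :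
    ∃ γ : ℝ → ℂ, ContinuousOn γ (Set.Ico 0 1) ∧
      (∀ t ∈ Set.Ico (0 : ℝ) 1, γ t ∈ Metric.ball (0 : ℂ) 1) ∧
      Tendsto γ (𝓝[<] (1 : ℝ)) (𝓝 ζ) ∧
      ((∃ w : ℂ, Tendsto (fun t => fd (γ t)) (𝓝[<] (1 : ℝ)) (𝓝 w)) ∨
        Tendsto (fun t => ‖fd (γ t)‖) (𝓝[<] (1 : ℝ)) atTop) := by
  set x0 : ℝ := (Cay ζ).re with hx0
  have hreal : Cay ζ = (x0 : ℂ) := Cay_real h0 h1
  have hback : Cai (x0 : ℂ) = ζ := by rw [← hreal]; exact Cai_Cay' h1
  have hne : x0 ≠ 0 := by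
    intro h
    rw [h] at hback
    apply h2
    rw [← hback]
    unfold Cai
    simp
  have hcont : ContinuousAt Cai (x0 : ℂ) := Cai_contAt (by simp)
  have trans : ∀ γ : ℝ → ℂ, ContinuousOn γ (Ico 0 1) → (∀ t ∈ Ico (0 : ℝ) 1, 0 < (γ t).im) →
      Tendsto γ (𝓝[<] (1 : ℝ)) (𝓝 (x0 : ℂ)) →
      ContinuousOn (fun t => Cai (γ t)) (Ico 0 1) ∧ (∀ t ∈ Ico (0 : ℝ) 1, Cai (γ t) ∈ Metric.ball (0 : ℂ) 1) ∧
      Tendsto (fun t => Cai (γ t)) (𝓝[<] (1 : ℝ)) (𝓝 ζ) := by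
    intro γ hγ1 hγ2 hγ3
    refine ⟨?_, fun t ht => Cai_mem (hγ2 t ht), ?_⟩
    · intro t ht
      exact ContinuousAt.comp_continuousWithinAt (f := γ) (Cai_contAt (hγ2 t ht).le) (hγ1 t ht)
    · have := hcont.tendsto.comp hγ3
      rw [hback] at this
      exact this
  rcases lt_or_gt_of_ne hne with h | h
  · obtain ⟨γ, hγ1, hγ2, hγ3, w, hw⟩ := path_neg h
    obtain ⟨a1, a2, a3⟩ := trans γ hγ1 hγ2 hγ3
    exact ⟨fun t => Cai (γ t), a1, a2, a3, Or.inl ⟨w, hw⟩⟩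
  · obtain ⟨γ, hγ1, hγ2, hγ3, hw⟩ := path_pos h
    obtain ⟨a1, a2, a3⟩ := trans γ hγ1 hγ2 hγ3
    exact ⟨fun t => Cai (γ t), a1, a2, a3, Or.inr hw⟩

lemma exists_near {ζ₀ : ℂ} (h0 : ‖ζ₀‖ = 1) {ε : ℝ} (hε : 0 < ε) :
    ∃ ζ : ℂ, ‖ζ‖ = 1 ∧ ζ ≠ 1 ∧ ζ ≠ -1 ∧ dist ζ ζ₀ < ε := by
  by_cases h1 : ζ₀ = 1 ∨ ζ₀ = -1
  · set η : ℝ := min (ε / 2) 1 with hη
    have hη0 : 0 < η := by rw [hη]; positivity
    have hη1 : η ≤ 1 := min_le_right _ _
    have hη2 : η ≤ ε / 2 := min_le_left _ _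
    have hsin : 0 < Real.sin η := Real.sin_pos_of_pos_of_lt_pi hη0 (by linarith [pi_ge])
    have hre : ζ₀.im = 0 ∧ ζ₀.re ≠ 0 := by
      rcases h1 with rfl | rfl <;> simp
    have him : (ζ₀ * cexp (η * I)).im = ζ₀.re * Real.sin η := by
      rw [Complex.mul_im, Complex.exp_ofReal_mul_I_im, hre.1]
      ring
    have hne : (ζ₀ * cexp (η * I)).im ≠ 0 := by
      rw [him]
      exact mul_ne_zero hre.2 hsin.ne'
    refine ⟨ζ₀ * cexp (η * I), ?_, ?_, ?_, ?_⟩
    · rw [norm_mul, h0, Complex.norm_exp_ofReal_mul_I, one_mul]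
    · intro h; rw [h] at hne; simp at hne
    · intro h; rw [h] at hne; simp at hne
    · rw [dist_eq_norm]
      have h3 : ζ₀ * cexp (η * I) - ζ₀ = ζ₀ * (cexp (η * I) - 1) := by ring
      rw [h3, norm_mul, h0, one_mul]
      have h4 : ‖cexp (η * I) - 1‖ ≤ ‖(η : ℂ) * I‖ * 1 := by
        have := Real.norm_exp_I_mul_ofReal_sub_one_le (x := η)
        rw [mul_comm] at this
        rw [norm_mul, Complex.norm_I, mul_one, mul_one, Complex.norm_real]
        exact this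
      rw [norm_mul, Complex.norm_I, mul_one, mul_one, Complex.norm_real, Real.norm_eq_abs, abs_of_pos hη0] at h4
      linarith
  · push Not at h1
    exact ⟨ζ₀, h0, h1.1, h1.2, by rw [dist_self]; exact hε⟩

/-- real boundary coordinate of `exp (i θ)` -/
noncomputable def XX (θ : ℝ) : ℝ := -Real.cos (θ / 2) / Real.sin (θ / 2)

lemma sin_half_neg {θ : ℝ} (h : θ ∈ Icc (-2 : ℝ) (-1)) : Real.sin (θ / 2) < 0 :=
  Real.sin_neg_of_neg_of_neg_pi_lt (by linarith [h.2]) (by linarith [h.1, pi_ge])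

lemma cos_half_pos {θ : ℝ} (h : θ ∈ Icc (-2 : ℝ) (-1)) : 0 < Real.cos (θ / 2) :=
  Real.cos_pos_of_mem_Ioo ⟨by linarith [h.1, pi_ge], by linarith [h.2, pi_ge]⟩

lemma XX_pos {θ : ℝ} (h : θ ∈ Icc (-2 : ℝ) (-1)) : 0 < XX θ := by
  unfold XX
  exact div_pos_of_neg_of_neg (by linarith [cos_half_pos h]) (sin_half_neg h)

lemma XX_cont : ContinuousOn XX (Icc (-2 : ℝ) (-1)) := by
  unfold XX
  apply ContinuousOn.div
  · fun_prop
  · fun_prop
  · intro θ h
    exact (sin_half_neg h).ne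

lemma Cai_XX {θ : ℝ} (h : θ ∈ Icc (-2 : ℝ) (-1)) : Cai (XX θ : ℂ) = cexp (θ * I) := by
  have hs := (sin_half_neg h).ne
  have h1 : cexp (θ * I) = (Complex.cos (θ / 2) + Complex.sin (θ / 2) * I) ^ 2 := by
    rw [← Complex.exp_mul_I, ← Complex.exp_nat_mul]
    congr 1
    push_cast
    ring
  have h2 : (XX θ : ℂ) + I ≠ 0 := add_I_ne (by simp)
  have hsc : Complex.sin (θ / 2) ≠ 0 := by
    have : Complex.sin (θ / 2) = ((Real.sin (θ / 2) : ℝ) : ℂ) := by push_cast; rfl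
    rw [this]
    exact_mod_cast hs
  have h3 := Complex.sin_sq_add_cos_sq ((θ : ℂ) / 2)
  have h4 : (XX θ : ℂ) = -Complex.cos (θ / 2) / Complex.sin (θ / 2) := by
    unfold XX; push_cast; rfl
  unfold Cai
  rw [div_eq_iff h2, h1, h4]
  field_simp
  have hI : I ^ 2 = -1 := Complex.I_sq
  linear_combination (Complex.cos (θ / 2) + Complex.sin (θ / 2) * I) * h3 + (Complex.cos (θ/2) * Complex.sin (θ / 2) ^ 2 * 1 + Complex.sin (θ/2) ^ 3 * I) * (- 1) * hI

lemma Cai_sub_le {z w : ℂ} (hz : 0 ≤ z.im) (hw : 0 ≤ w.im) : ‖Cai z - Cai w‖ ≤ 2 * ‖z - w‖ := by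
  have h1 := add_I_ne hz
  have h2 := add_I_ne hw
  have h3 : Cai z - Cai w = 2 * I * (z - w) / ((z + I) * (w + I)) := by
    unfold Cai
    field_simp
    ring
  have h4 : 1 ≤ ‖z + I‖ := by
    refine le_trans ?_ (norm_ge_im _)
    refine le_trans ?_ (le_abs_self _)
    simp; exact hz
  have h5 : 1 ≤ ‖w + I‖ := by
    refine le_trans ?_ (norm_ge_im _)
    refine le_trans ?_ (le_abs_self _)
    simp; exact hw
  rw [h3, norm_div, norm_mul, norm_mul, norm_mul, Complex.norm_I, mul_one]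
  have e2 : ‖(2 : ℂ)‖ = 2 := by simp
  rw [e2]
  apply div_le_self (by positivity)
  nlinarith

lemma arc_tract : ∃ a b : ℝ, a < b ∧ b < a + 2 * Real.pi ∧
    ∃ g : ℕ → ℝ → ℂ,
      (∀ n, ContinuousOn (g n) (Set.Icc 0 1) ∧ Set.InjOn (g n) (Set.Icc 0 1) ∧
        g n '' Set.Icc 0 1 ⊆ Metric.ball (0 : ℂ) 1) ∧
      Tendsto (fun n => Metric.hausdorffDist (g n '' Set.Icc 0 1)
          ((fun θ : ℝ => Complex.exp ((θ : ℂ) * Complex.I)) '' Set.Icc a b))
        atTop (𝓝 0) ∧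
      ∀ M : ℝ, ∀ᶠ n in atTop, ∀ t ∈ Set.Icc (0 : ℝ) 1, M ≤ ‖fd (g n t)‖ := by
  refine ⟨-2, -1, by norm_num, by linarith [pi_ge], ?_⟩
  obtain ⟨b0, hb0⟩ := isCompact_Icc.exists_bound_of_continuousOn XX_cont
  set b : ℝ := max 1 b0 with hb
  have hXb : ∀ θ ∈ Icc (-2 : ℝ) (-1), XX θ ≤ b := fun θ hθ =>
    le_trans (le_abs_self _) (le_trans (hb0 θ hθ) (le_max_right _ _))
  obtain ⟨N, hN⟩ := ((neutral (le_max_left 1 b0)).and (eventually_ge_atTop 20)).exists_forall_of_atTop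
  set Z : ℕ → ℝ → ℂ := fun n t => (XX (-2 + t) : ℂ) + ((yk (N + n) / 2 : ℝ) : ℂ) * I with hZ
  have hmem : ∀ t ∈ Icc (0:ℝ) 1, -2 + t ∈ Icc (-2 : ℝ) (-1) := fun t ht =>
    ⟨by linarith [ht.1], by linarith [ht.2]⟩
  have hZre : ∀ n t, (Z n t).re = XX (-2 + t) := by intro n t; simp [hZ]
  have hZim : ∀ n t, (Z n t).im = yk (N + n) / 2 := by intro n t; simp [hZ]
  have hZpos : ∀ n t, 0 < (Z n t).im := by intro n t; rw [hZim]; linarith [yk_pos (N + n)]
  have hdist : ∀ n, ∀ t ∈ Icc (0:ℝ) 1, dist (Cai (Z n t)) (cexp (((-2 + t : ℝ) : ℂ) * I)) ≤ yk (N + n) := by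
    intro n t ht
    rw [← Cai_XX (hmem t ht), dist_eq_norm]
    refine le_trans (Cai_sub_le (hZpos n t).le (by simp)) ?_
    have : Z n t - (XX (-2 + t) : ℂ) = ((yk (N + n) / 2 : ℝ) : ℂ) * I := by simp only [hZ]; ring
    rw [this, norm_mul, Complex.norm_I, mul_one, Complex.norm_real, Real.norm_eq_abs,
      abs_of_pos (by linarith [yk_pos (N + n)])]
    linarith
  refine ⟨fun n t => Cai (Z n t), ?_, ?_, ?_⟩
  · intro n
    refine ⟨?_, ?_, ?_⟩
    · intro t ht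
      apply ContinuousAt.comp_continuousWithinAt (f := Z n) (Cai_contAt (hZpos n t).le)
      have h1 : ContinuousWithinAt (fun t : ℝ => XX (-2 + t)) (Icc 0 1) t :=
        ContinuousWithinAt.comp (t := Icc (-2 : ℝ) (-1)) (XX_cont (-2 + t) (hmem t ht))
          (by fun_prop) (fun s hs => hmem s hs)
      exact (Complex.continuous_ofReal.continuousAt.comp_continuousWithinAt h1).add continuousWithinAt_const
    · intro t ht s hs hts
      have h1 : Z n t = Z n s := by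
        rw [← Cay_Cai (hZpos n t), ← Cay_Cai (hZpos n s)]
        exact congrArg Cay hts
      have h2 : XX (-2 + t) = XX (-2 + s) := by rw [← hZre n t, ← hZre n s, h1]
      have h3 : cexp (((-2 + t : ℝ) : ℂ) * I) = cexp (((-2 + s : ℝ) : ℂ) * I) := by
        rw [← Cai_XX (hmem t ht), ← Cai_XX (hmem s hs), h2]
      rw [Complex.exp_eq_exp_iff_exists_int] at h3
      obtain ⟨k, hk⟩ := h3
      have h4 : t - s = k * (2 * Real.pi) := by
        have h5 : ((-2 + t : ℝ) : ℂ) * I - ((-2 + s : ℝ) : ℂ) * I = k * (2 * Real.pi * I) := by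
          rw [hk]; ring
        have h6 := congrArg Complex.im h5
        simp at h6
        linarith
      have h5 : k = 0 := by
        by_contra hk0
        have h6 : (1 : ℝ) ≤ |(k : ℝ)| := by
          rw [← Int.cast_abs]
          exact_mod_cast Int.one_le_abs hk0
        have h7 : |t - s| ≤ 1 := by
          rw [abs_le]; constructor <;> linarith [ht.1, ht.2, hs.1, hs.2]
        rw [h4, abs_mul, abs_of_pos (show (0:ℝ) < 2 * Real.pi by positivity)] at h7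
        nlinarith [pi_ge]
      rw [h5] at h4
      simp at h4
      linarith
    · rintro _ ⟨t, _, rfl⟩
      exact Cai_mem (hZpos n t)
  · have h1 : Tendsto (fun n : ℕ => yk (N + n)) atTop (𝓝 0) :=
      yk_tendsto.comp (tendsto_atTop_mono (fun n => Nat.le_add_left n N) tendsto_id)
    refine squeeze_zero (fun n => Metric.hausdorffDist_nonneg) (fun n => ?_) h1
    apply Metric.hausdorffDist_le_of_mem_dist (yk_pos _).le
    · rintro _ ⟨t, ht, rfl⟩
      exact ⟨_, ⟨-2 + t, hmem t ht, rfl⟩, hdist n t ht⟩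
    · rintro _ ⟨θ, hθ, rfl⟩
      have ht : θ + 2 ∈ Icc (0:ℝ) 1 := ⟨by linarith [hθ.1], by linarith [hθ.2]⟩
      refine ⟨_, ⟨θ + 2, ht, rfl⟩, ?_⟩
      have h2 := hdist n (θ + 2) ht
      have h3 : -2 + (θ + 2) = θ := by ring
      rw [h3, dist_comm] at h2
      exact h2
  · intro M
    have h2 : Tendsto (fun n : ℕ => (2 : ℝ) ^ n) atTop atTop := tendsto_pow_atTop_atTop_of_one_lt (by norm_num)
    filter_upwards [h2.eventually_ge_atTop M] with n hn t ht
    obtain ⟨hneu, h20⟩ := hN (N + n) (by omega)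
    have hy := yk_pos (N + n)
    have h3 := hneu (Z n t) (by rw [hZre]; exact (XX_pos (hmem t ht)).le) (by rw [hZre]; exact hXb _ (hmem t ht))
      ⟨by rw [hZim], by rw [hZim]; linarith⟩
    have hzt : |(zt (N + n) (Z n t)).im| = 2 ^ (N + n) / 2 := by
      rw [zt_im, hZim]
      have : (8:ℝ) ^ (N + n) * (yk (N + n) / 2 - yk (N + n)) = -(8 ^ (N + n) * yk (N + n) / 2) := by ring
      rw [this, yk_mul, abs_neg, abs_of_pos (by positivity)]
    have h2n := two_pow_ge h20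
    rw [hzt] at h3
    have h4 := (h3 (by linarith [pi_le]) (Or.inr (by linarith))).1
    have h5 := ell_le_norm (FF (Z n t))
    have h6 : 0 ≤ 1 / 4 / ‖Z n t‖ := by positivity
    have h7 : (2:ℝ) ^ n ≤ 2 ^ (N + n) := pow_le_pow_right₀ (by norm_num) (by omega)
    show M ≤ ‖FF (Z n t)‖
    have h8 : (0:ℝ) < 2 ^ (N + n) := by positivity
    linarith

lemma fd_deriv_ne {w : ℂ} (hw : w ∈ Metric.ball (0 : ℂ) 1) : deriv fd w ≠ 0 := by
  rw [(fd_deriv hw).deriv]
  apply mul_ne_zero (dF_ne_zero (Cay_im hw))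
  exact div_ne_zero (by simp) (pow_ne_zero 2 (one_sub_ne hw))

lemma fd_nonconst : ¬ ∃ c : ℂ, ∀ z ∈ Metric.ball (0 : ℂ) 1, fd z = c := by
  rintro ⟨c, hc⟩
  have h0 : (0 : ℂ) ∈ Metric.ball (0 : ℂ) 1 := by simp
  apply fd_deriv_ne h0
  have h1 : fd =ᶠ[𝓝 (0 : ℂ)] fun _ => c := by
    filter_upwards [Metric.isOpen_ball.mem_nhds h0] with w hw
    exact hc w hw
  rw [h1.deriv_eq]
  simp

end Pool.Agent.MP_6f1701_an

end
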